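import Mathlib

/-! Clusters and gaps of zeros of zeta: one asymptotic inequality. -/

set_option autoImplicit false

namespace Pool.Agent.Lib.MP_31bf45_nt.Cl

theorem asy (C D : ℝ) (hD : 1 ≤ D) : ∃ w0 : ℝ, ∀ l κ w : ℝ, w0 ≤ w → 1 ≤ κ → l = w ^ 4 * κ →
    24 * D * Real.log l ≤ w ^ 3 →
      C / ((D * κ * w)⁻¹ * Real.exp (l * ((D * κ * w)⁻¹ / 2))) *
        (Real.exp (400 * w ^ 2) * (1 + 560 * l) ^ 4) ≤ 1 := by
  obtain ⟨A, hA⟩ : ∃ A : ℝ, A = |C| * D * 561 ^ 4 := ⟨_, rfl⟩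
  have hD0 : 0 < D := by linarith
  have hA0 : 0 ≤ A := by rw [hA]; positivity
  refine ⟨4 * D * (400 + A), fun l κ w hw hκ hl hlog => ?_⟩
  have hw1 : 1 ≤ w := by nlinarith
  have hw0 : 0 < w := by linarith
  have hκ0 : 0 < κ := by linarith
  have hw3 : 1 ≤ w ^ 3 := one_le_pow₀ hw1
  have hw2 : 1 ≤ w ^ 2 := one_le_pow₀ hw1
  have hkw : κ * w ≤ l := by
    have : l = κ * w * w ^ 3 := by rw [hl]; ring
    rw [this]
    exact le_mul_of_one_le_right (by positivity) hw3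
  have hl1 : 1 ≤ l := le_trans (one_le_mul_of_one_le_of_one_le hκ hw1) hkw
  have hl0 : 0 < l := by linarith
  obtain ⟨q, hq⟩ : ∃ q : ℝ, q = w ^ 3 / D := ⟨_, rfl⟩
  have e1 : l * ((D * κ * w)⁻¹ / 2) = q / 2 := by
    rw [hl, hq]; field_simp
  have hlq : 24 * Real.log l ≤ q := by
    rw [hq, le_div_iff₀ hD0]; linarith
  have hqw : 4 * (400 + A) * w ^ 2 ≤ q := by
    rw [hq, le_div_iff₀ hD0]
    have := mul_le_mul_of_nonneg_right hw (by positivity : 0 ≤ w ^ 2)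
    nlinarith
  have hAw : A ≤ A * w ^ 2 := le_mul_of_one_le_right hA0 hw2
  have h5 : l ^ 5 = Real.exp (5 * Real.log l) := by
    have := Real.exp_nat_mul (Real.log l) 5
    rw [Real.exp_log hl0] at this
    rw [← this]; norm_num
  have h4 : (1 + 560 * l) ^ 4 ≤ (561 * l) ^ 4 := pow_le_pow_left₀ (by positivity) (by linarith) 4
  have hE := Real.exp_pos (q / 2)
  rw [e1, div_mul_eq_mul_div, div_le_one (by positivity), ← div_eq_inv_mul,
    le_div_iff₀ (by positivity)]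
  calc C * (Real.exp (400 * w ^ 2) * (1 + 560 * l) ^ 4) * (D * κ * w)
      ≤ |C| * (Real.exp (400 * w ^ 2) * (561 * l) ^ 4) * (D * l) := by
        rw [mul_assoc D]
        gcongr
        exact le_abs_self C
    _ = A * (Real.exp (400 * w ^ 2) * l ^ 5) := by rw [hA]; ring
    _ ≤ Real.exp A * (Real.exp (400 * w ^ 2) * l ^ 5) := by
        gcongr
        linarith [Real.add_one_le_exp A]
    _ = Real.exp (A + (400 * w ^ 2 + 5 * Real.log l)) := by
        rw [h5, Real.exp_add, Real.exp_add]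
    _ ≤ Real.exp (q / 2) := by
        rw [Real.exp_le_exp]
        nlinarith

end Pool.Agent.Lib.MP_31bf45_nt.Cl
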