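import Pool.Agent.Lib.MP_31bf45_nt.Cl.Def

/-! Clusters and gaps of zeros of zeta: the smoothed count is an average of sharp counts. -/

set_option autoImplicit false

namespace Pool.Agent.Lib.MP_31bf45_nt.Cl

open Complex Finset MeasureTheory Metric Om

theorem avg_nn (κ u : ℝ) : 0 ≤ kr κ u := by unfold kr; positivity

theorem avg_le (κ u : ℝ) : kr κ u ≤ Real.exp (-(5 * κ) * u ^ 2) := by
  unfold kr
  refine mul_le_of_le_one_left (Real.exp_pos _).le ?_
  rw [sq_le_one_iff_abs_le_one]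
  exact Real.abs_sinc_le_one _

theorem avg_cont (κ : ℝ) : Continuous (kr κ) := by
  unfold kr
  have := Real.continuous_sinc
  fun_prop

theorem avg_int {κ : ℝ} (h : 0 < κ) : Integrable (kr κ) :=
  (integrable_exp_neg_mul_sq (b := 5 * κ) (by positivity)).mono'
    (avg_cont κ).aestronglyMeasurable (Filter.Eventually.of_forall fun u => by
      rw [Real.norm_of_nonneg (avg_nn κ u)]; exact avg_le κ u)

theorem avg_gz (κ : ℝ) : gg κ 0 = ∫ u, kr κ u := by simp [gg]

theorem avg_g4 : ∫ v : ℝ, Real.exp (-(1 / 4) * v ^ 2) ≤ 4 := by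
  rw [integral_gaussian, Real.sqrt_le_iff]
  exact ⟨by norm_num, by linarith [Real.pi_le_four]⟩

theorem WW_nonneg {κ : ℝ} (h : 0 < κ) (x : ℝ) : 0 ≤ WW κ x :=
  intervalIntegral.integral_nonneg (by
    have : 0 < 40 / κ := by positivity
    linarith) fun _ _ => avg_nn _ _

theorem avg_WW {κ : ℝ} (h : 0 < κ) (x : ℝ) :
    WW κ x = ∫ u, (Set.Ioo (x - 40 / κ) (x + 40 / κ)).indicator (kr κ) u := by
  have h0 : 0 < 40 / κ := by positivity
  unfold WW
  rw [intervalIntegral.integral_comp_sub_left (fun u => kr κ u) x, sub_neg_eq_add,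
    intervalIntegral.integral_of_le (by linarith), integral_Ioc_eq_integral_Ioo,
    integral_indicator measurableSet_Ioo]

theorem avg_sum {κ : ℝ} {n : ℕ} (x : Fin n → ℝ) (u : ℝ) :
    ∑ i, (Set.Ioo (x i - 40 / κ) (x i + 40 / κ)).indicator (kr κ) u =
      kr κ u * (#{i | u - 40 / κ < x i ∧ x i < u + 40 / κ} : ℕ) := by
  rw [card_filter, Nat.cast_sum, mul_sum]
  refine sum_congr rfl fun i _ => ?_
  by_cases hi : u - 40 / κ < x i ∧ x i < u + 40 / κ
  · rw [if_pos hi, Set.indicator_of_mem (by constructor <;> linarith [hi.1, hi.2])]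
    simp
  · rw [if_neg hi, Set.indicator_of_notMem fun hh => hi ⟨by linarith [hh.2], by linarith [hh.1]⟩]
    simp

theorem avg {κ ε M V : ℝ} (h : 1 ≤ κ) (hε : ε = 1 ∨ ε = -1) (hM : 0 ≤ M) (hV : 0 ≤ V) {n : ℕ}
    (x : Fin n → ℝ) (hx : ∀ u : ℝ, |u| ≤ 1 →
      ε * ((#{i | u - 40 / κ < x i ∧ x i < u + 40 / κ} : ℕ) - V) ≤ M) :
    ε * (∑ i, WW κ (x i) - gg κ 0 * V) ≤
      gg κ 0 * M + 4 * (n + V) * Real.exp (-(5 * κ) / 2) := by
  have h0 : 0 < κ := by linarith
  have hk := avg_int h0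
  have hi : ∀ i, Integrable ((Set.Ioo (x i - 40 / κ) (x i + 40 / κ)).indicator (kr κ)) :=
    fun i => hk.indicator measurableSet_Ioo
  have hs : Integrable fun u => ∑ i, (Set.Ioo (x i - 40 / κ) (x i + 40 / κ)).indicator (kr κ) u :=
    integrable_finsetSum _ fun i _ => hi i
  have h4 : Integrable fun v : ℝ => Real.exp (-(1 / 4) * v ^ 2) :=
    integrable_exp_neg_mul_sq (b := 1 / 4) (by norm_num)
  obtain ⟨E, hE⟩ : ∃ E : ℝ, E = (n + V) * Real.exp (-(5 * κ) / 2) := ⟨_, rfl⟩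
  have hE0 : 0 ≤ E := by rw [hE]; positivity
  have pt : ∀ u : ℝ,
      ε * (∑ i, (Set.Ioo (x i - 40 / κ) (x i + 40 / κ)).indicator (kr κ) u - kr κ u * V) ≤
        kr κ u * M + E * Real.exp (-(1 / 4) * u ^ 2) := by
    intro u
    have k0 := avg_nn κ u
    have e0 : 0 ≤ E * Real.exp (-(1 / 4) * u ^ 2) := by positivity
    rw [avg_sum, ← mul_sub, mul_left_comm]
    by_cases hu : |u| ≤ 1
    · linarith [mul_le_mul_of_nonneg_left (hx u hu) k0]
    · have hu2 : 1 ≤ u ^ 2 := by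
        rw [← sq_abs]; exact one_le_pow₀ (not_le.mp hu).le
      have hc : ((#{i | u - 40 / κ < x i ∧ x i < u + 40 / κ} : ℕ) : ℝ) ≤ n := by
        exact_mod_cast (card_le_univ _).trans_eq (Fintype.card_fin n)
      have hc0 : (0 : ℝ) ≤ (#{i | u - 40 / κ < x i ∧ x i < u + 40 / κ} : ℕ) := Nat.cast_nonneg _
      have hn : (0 : ℝ) ≤ n := Nat.cast_nonneg _
      have h1 : ε * ((#{i | u - 40 / κ < x i ∧ x i < u + 40 / κ} : ℕ) - V) ≤ n + V := by
        rcases hε with rfl | rfl <;> linarith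
      have h2 : kr κ u ≤ Real.exp (-(5 * κ) / 2) * Real.exp (-(1 / 4) * u ^ 2) := by
        rw [← Real.exp_add]
        refine (avg_le κ u).trans (Real.exp_le_exp.mpr ?_)
        nlinarith [mul_nonneg (sub_nonneg.mpr h) (sub_nonneg.mpr hu2)]
      have h3 := mul_le_mul_of_nonneg_left h1 k0
      have h5 := mul_le_mul_of_nonneg_right h2 (add_nonneg hn hV)
      have h6 := mul_nonneg k0 hM
      rw [hE]
      linarith
  have key := integral_mono ((hs.sub (hk.mul_const V)).const_mul ε)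
    ((hk.mul_const M).add (h4.const_mul E)) pt
  rw [integral_add' (hk.mul_const M) (h4.const_mul E), integral_const_mul,
    integral_sub' hs (hk.mul_const V), integral_finsetSum _ fun i _ => hi i, integral_mul_const,
    integral_mul_const, integral_const_mul, ← avg_gz] at key
  have k4 := mul_le_mul_of_nonneg_left avg_g4 hE0
  simp only [avg_WW h0]
  rw [mul_assoc 4, ← hE]
  linarith

end Pool.Agent.Lib.MP_31bf45_nt.Cl
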