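import Pool.Agent.Lib.MP_b09185_nt.ShChi
import Pool.Agent.Lib.MP_b09185_nt.MaiLandau

/-! The logarithmic derivative of the factor in the functional equation. -/

set_option autoImplicit false

namespace Pool.Agent.Lib.MP_31bf45_nt.Cl

open Complex Metric Pool.Agent.Lib.MP_b09185_nt Pool.Agent.Lib.MP_b09185_nt.Sh
open scoped Real

theorem chi_pow {t c e u : ℝ} (ht : 0 < t) (hc : 1 ≤ c) (he : 0 ≤ e) (he' : e ≤ 3) (hu : 0 ≤ u)
    (h : u ≤ c * t ^ 2) : u ^ e ≤ c ^ 3 * t ^ (2 * e) := by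
  refine (Real.rpow_le_rpow hu h he).trans ?_
  rw [Real.mul_rpow (by linarith) (by positivity), ← Real.rpow_natCast t, ← Real.rpow_mul ht.le,
    ← Real.rpow_natCast c]
  exact mul_le_mul_of_nonneg_right (Real.rpow_le_rpow_of_exponent_le hc (by exact_mod_cast he'))
    (by positivity)

theorem chi_gam : ∃ c C : ℝ, 0 < c ∧ ∀ t x y : ℝ, 4 ≤ t → 1 / 4 ≤ x → x ≤ 9 / 4 →
    t ^ 2 / 4 ≤ y ^ 2 → y ^ 2 ≤ 4 * t ^ 2 →
      c * t ^ (2 * x) ≤ ‖Gamma (x + y * I)‖ ^ 2 * Real.cosh (π * y) * t ∧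
        ‖Gamma (x + y * I)‖ ^ 2 * Real.cosh (π * y) * t ≤ C * t ^ (2 * x) := by
  have g1 := Real.Gamma_pos_of_pos (show (0 : ℝ) < 3 / 2 by norm_num)
  have g2 := Real.Gamma_pos_of_pos (show (0 : ℝ) < 9 / 2 by norm_num)
  have p0 := Real.pi_pos
  refine ⟨π / 256 / (25 * Real.Gamma (9 / 2) ^ 2 * 5 ^ 3),
    5 * π * Real.Gamma 5 ^ 2 * 17 ^ 3 * 16 / Real.Gamma (3 / 2) ^ 2, by positivity,
    fun t x y ht h1 h2 h3 h4 => ?_⟩
  have t0 : 0 < t := by linarith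
  have t2 : 16 ≤ t ^ 2 := by nlinarith
  have c0 := Real.cosh_pos (π * y)
  have m := Real.Gamma_strictMonoOn_Ici.monotoneOn
  have a1 : 1 ≤ Real.Gamma (x + 1 + 1) := by
    simpa using m (a := 2) (b := x + 1 + 1) (by simp) (by simp; linarith) (by linarith)
  have a2 : Real.Gamma (x + 1 + 1) ≤ Real.Gamma 5 :=
    m (by simp; linarith) (by norm_num) (by linarith)
  have s1 : (x + 1) ^ 2 + y ^ 2 ≤ 5 * t ^ 2 := by nlinarith
  have s2 : x ^ 2 + y ^ 2 ≤ 5 * t ^ 2 := by nlinarith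
  have s3 (a : ℝ) : t ^ 2 / 4 ≤ a ^ 2 + y ^ 2 := by linarith [sq_nonneg a]
  have e1 := gam_succ one_half_pos y
  have e2 := gam_succ (x := 3 / 2) (by norm_num) y
  have e3 := gam_succ (x := 5 / 2) (by norm_num) y
  have e4 := gam_succ (x := 7 / 2) (by norm_num) y
  rw [gam_half, show (1 / 2 + 1 : ℝ) = 3 / 2 by norm_num] at e1
  rw [e1, show (3 / 2 + 1 : ℝ) = 5 / 2 by norm_num] at e2
  rw [e2, show (5 / 2 + 1 : ℝ) = 7 / 2 by norm_num] at e3
  rw [e3, show (7 / 2 + 1 : ℝ) = 9 / 2 by norm_num] at e4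
  have f := gam_succ (x := x + 1) (by linarith) y
  rw [gam_succ (x := x) (by linarith) y] at f
  have u1 := gam_up (b := 3 / 2) (δ := x + 1 / 2) (by norm_num) (by linarith) y
  have u2 := gam_up (b := x + 1 + 1) (δ := 5 / 2 - x) (by linarith) (by linarith) y
  rw [show 3 / 2 + (x + 1 / 2) = x + 1 + 1 by ring, f, e1] at u1
  rw [show x + 1 + 1 + (5 / 2 - x) = 9 / 2 by ring, f, e4] at u2
  have v1 := chi_pow (c := 17) (e := x + 1 / 2) (u := 1 + y ^ 2 / (3 / 2 - 1) ^ 2) t0 (by norm_num)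
    (by linarith) (by linarith) (by positivity) (by norm_num; linarith)
  have v2 := chi_pow (c := 5) (e := 5 / 2 - x) (u := 1 + y ^ 2 / (x + 1 + 1 - 1) ^ 2) t0
    (by norm_num) (by linarith) (by linarith) (by positivity)
    (by linarith [div_le_self (sq_nonneg y) (show 1 ≤ (x + 1 + 1 - 1) ^ 2 by nlinarith)])
  rw [show 2 * (x + 1 / 2) = 2 * x + 1 by ring, Real.rpow_add_one t0.ne'] at v1
  rw [show 2 * (5 / 2 - x) = (5 : ℕ) - 2 * x by push_cast; ring, Real.rpow_sub t0,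
    Real.rpow_natCast] at v2
  have q0 := Real.rpow_pos_of_pos t0 (2 * x)
  generalize t ^ (2 * x) = q at *
  have n0 := sq_nonneg ‖Gamma (x + y * I)‖
  generalize ‖Gamma (x + y * I)‖ ^ 2 = G at *
  generalize Real.cosh (π * y) = H at *
  constructor
  · have w : t ^ 2 / 4 * (t ^ 2 / 4 * (t ^ 2 / 4 * (t ^ 2 / 4 * (π / H)))) * 1 ^ 2 ≤
        5 * t ^ 2 * (5 * t ^ 2 * G) * Real.Gamma (9 / 2) ^ 2 * (5 ^ 3 * (t ^ 5 / q)) := by
      refine le_trans ?_ (u2.trans ?_)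
      · gcongr <;> exact s3 _
      · gcongr
    rw [div_mul_eq_mul_div, div_le_iff₀ (by positivity)]
    calc _ = t ^ 2 / 4 * (t ^ 2 / 4 * (t ^ 2 / 4 * (t ^ 2 / 4 * (π / H)))) * 1 ^ 2 *
          (H * q / t ^ 8) := by field_simp; norm_num
      _ ≤ _ := mul_le_mul_of_nonneg_right w (by positivity)
      _ = _ := by field_simp; ring
  · have w : t ^ 2 / 4 * (t ^ 2 / 4 * G) * Real.Gamma (3 / 2) ^ 2 ≤
        5 * t ^ 2 * (π / H) * Real.Gamma 5 ^ 2 * (17 ^ 3 * (q * t)) := by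
      refine le_trans ?_ (u1.trans ?_)
      · gcongr <;> exact s3 _
      · gcongr
        linarith only [t2, h4]
    rw [div_mul_eq_mul_div, le_div_iff₀ (by positivity)]
    calc _ = t ^ 2 / 4 * (t ^ 2 / 4 * G) * Real.Gamma (3 / 2) ^ 2 * (16 * H / t ^ 3) := by
          field_simp; norm_num
      _ ≤ _ := mul_le_mul_of_nonneg_right w (by positivity)
      _ = _ := by field_simp

theorem chi_two : ∃ c C : ℝ, 0 < c ∧ ∀ t : ℝ, 20 ≤ t → ∀ z : ℂ, -(5 / 4) ≤ z.re → z.re ≤ 3 / 4 →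
    |z.im - t| ≤ 4 → c ≤ ‖chi z * exp ((z - 1 / 2) * Real.log t)‖ ^ 2 ∧
      ‖chi z * exp ((z - 1 / 2) * Real.log t)‖ ^ 2 ≤ C := by
  obtain ⟨c, C, c0, h⟩ := chi_gam
  have p0 := Real.pi_gt_three
  refine ⟨(2 * π) ^ (-5 : ℝ) * c, 4 * C, by positivity, fun t ht z h1 h2 h3 => ?_⟩
  have t0 : 0 < t := by linarith
  obtain ⟨h3, h4⟩ := abs_le.1 h3
  obtain ⟨a, b⟩ := h t (1 - z.re) (-z.im) (by linarith) (by linarith) (by linarith) (by nlinarith)
    (by nlinarith)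
  have e := norm_chi_sq z.re z.im
  rw [re_add_im] at e
  rw [show π * -z.im = -(π * z.im) by ring, Real.cosh_neg] at a b
  have q0 := Real.rpow_pos_of_pos t0 (2 * (1 - z.re))
  have f : ‖exp ((z - 1 / 2) * Real.log t)‖ ^ 2 = t / t ^ (2 * (1 - z.re)) := by
    rw [norm_exp, ← Real.exp_nat_mul, re_mul_ofReal, Real.rpow_def_of_pos t0,
      eq_div_iff (by positivity), ← Real.exp_add]
    refine (congrArg _ ?_).trans (Real.exp_log t0)
    simp
    ring
  have k : 2 ≤ Real.cosh (π * z.im) := by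
    rw [Real.cosh_eq]
    nlinarith [Real.add_one_le_exp (π * z.im), Real.exp_pos (-(π * z.im))]
  have l1 := Real.cos_le_one (π * (1 - z.re))
  have l2 := Real.neg_one_le_cos (π * (1 - z.re))
  have r1 : (2 * π) ^ (-5 : ℝ) ≤ (2 * π) ^ (2 * (z.re - 1)) :=
    Real.rpow_le_rpow_of_exponent_le (by linarith) (by linarith)
  have r2 : (2 * π) ^ (2 * (z.re - 1)) ≤ 1 :=
    Real.rpow_le_one_of_one_le_of_nonpos (by linarith) (by linarith)
  rw [norm_mul, mul_pow, e, f]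
  have n0 := sq_nonneg ‖Gamma ((1 - z.re : ℝ) + (-z.im : ℝ) * I)‖
  generalize ‖Gamma ((1 - z.re : ℝ) + (-z.im : ℝ) * I)‖ ^ 2 = G at *
  generalize t ^ (2 * (1 - z.re)) = q at *
  generalize Real.cosh (π * z.im) = H at *
  rw [← le_div_iff₀ q0] at a
  rw [← div_le_iff₀ q0] at b
  constructor
  · calc _ ≤ (2 * π) ^ (-5 : ℝ) * (G * H * t / q) := by gcongr
      _ = 2 * (2 * π) ^ (-5 : ℝ) * G * (H / 2) * (t / q) := by ring
      _ ≤ _ := by gcongr; linarith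
  · calc _ ≤ 2 * 1 * G * (2 * H) * (t / q) := by gcongr <;> linarith
      _ = 4 * (G * H * t / q) := by ring
      _ ≤ _ := by linarith

theorem chi_ld : ∃ C : ℝ, 0 ≤ C ∧ ∀ t : ℝ, 20 ≤ t → ∀ s : ℂ, -1 ≤ s.re → s.re ≤ 1 / 2 →
    |s.im - t| ≤ 3 → chi s ≠ 0 ∧ ‖deriv chi s / chi s + Real.log t‖ ≤ C := by
  obtain ⟨c, C, c0, h⟩ := chi_two
  have c1 := Real.sqrt_pos.2 c0
  refine ⟨4 * (√C / √c + 1) / (1 / 4), by positivity, fun t ht s h1 h2 h3 => ?_⟩
  have k (z) (hz : z ∈ ball s (1 / 4)) : z.re < 1 ∧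
      √c ≤ ‖chi z * exp ((z - 1 / 2) * Real.log t)‖ ∧
        ‖chi z * exp ((z - 1 / 2) * Real.log t)‖ ≤ √C := by
    rw [mem_ball, dist_eq_norm] at hz
    have a := abs_lt.1 ((abs_re_le_norm _).trans_lt hz)
    have b := abs_lt.1 ((abs_im_le_norm _).trans_lt hz)
    rw [sub_re] at a
    rw [sub_im] at b
    have d := abs_le.1 h3
    obtain ⟨e, f⟩ := h t ht z (by linarith) (by linarith) (abs_le.2 ⟨by linarith, by linarith⟩)
    exact ⟨by linarith, Real.sqrt_le_iff.2 ⟨norm_nonneg _, e⟩, Real.le_sqrt_of_sq_le f⟩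
  have k0 := k s (mem_ball_self (by norm_num))
  have n : chi s ≠ 0 := fun e => by
    rw [e, zero_mul, norm_zero] at k0
    linarith [k0.2.1]
  have b := Mai.logderiv_le (f := fun z => chi z * exp ((z - 1 / 2) * Real.log t)) (c := s)
    (r := 1 / 4) (B := √C) (M := √C / √c + 1) (by norm_num) (by positivity)
    (fun z hz => ((chi_diffAt (k z hz).1).mul (by fun_prop)).differentiableWithinAt)
    (fun z hz => norm_pos_iff.1 (c1.trans_le (k z hz).2.1)) (fun z hz => (k z hz).2.2)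
    (by
      calc √C = √C / √c * √c := by field_simp
        _ ≤ _ := by
          gcongr
          · linarith [Real.add_one_le_exp (√C / √c + 1)]
          · exact k0.2.1)
  have d : HasDerivAt (fun z => chi z * exp ((z - 1 / 2) * Real.log t)) _ s :=
    (chi_diffAt k0.1).hasDerivAt.mul (((hasDerivAt_id s).sub_const _).mul_const _).cexp
  rw [d.deriv] at b
  refine ⟨n, le_of_eq_of_le (congrArg _ ?_) b⟩
  simp only [id]
  field_simp

end Pool.Agent.Lib.MP_31bf45_nt.Cl
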