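import Pool.Agent.Lib.MP_31bf45_nt.Om.Def

/-! Clusters and gaps of zeros of zeta: definitions. -/

set_option autoImplicit false

namespace Pool.Agent.Lib.MP_31bf45_nt.Cl

open Complex Finset Om
open ArithmeticFunction (vonMangoldt)

noncomputable section

/-- `m` zeros, with multiplicity, have their ordinate in `(y, y + h)` -/
def IsZ (y h : ℝ) (m : ℕ) : Prop := ∃ S : Finset ℂ,
  (∀ ρ, ρ ∈ S ↔ riemannZeta ρ = 0 ∧ y < ρ.im ∧ ρ.im < y + h) ∧
    m = ∑ ρ ∈ S, analyticOrderNatAt riemannZeta ρ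

/-- `sinh z / z` at `z = κ w / 2` -/
def BB (κ : ℝ) (w : ℂ) : ℂ := dslope sinh 0 (κ * w / 2)

/-- the kernel -/
def KK (κ : ℝ) (w : ℂ) : ℂ := BB κ w ^ 2 * kk √(10 * κ) w

/-- the kernel on the imaginary axis -/
def kr (κ u : ℝ) : ℝ := Real.sinc (κ * u / 2) ^ 2 * Real.exp (-(5 * κ) * u ^ 2)

/-- its cosine transform -/
def gg (κ v : ℝ) : ℝ := ∫ u, kr κ u * Real.cos (u * v)

/-- the smoothed window -/
def WW (κ x : ℝ) : ℝ := ∫ τ in (-(40 / κ))..(40 / κ), kr κ (x - τ)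

/-- the logarithmic derivative to the right of the line one -/
def LV (s : ℂ) : ℂ := LSeries (fun n : ℕ => vonMangoldt n) s

/-- the prime side of the explicit formula -/
def PS (κ : ℝ) (Y : ℕ) (y : ℝ) : ℂ :=
  ∑ n ∈ Icc 1 Y, (vonMangoldt n / √n * gg κ (Real.log n) : ℝ) * ee n y

/-- coefficients after integration over the window -/
def cb (κ : ℝ) (n : ℕ) : ℝ := vonMangoldt n / Real.log n / √n *
  (κ * gg κ (Real.log n) / (4 * Real.pi)) * Real.sin (40 * Real.log n / κ)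

/-- the polynomial with these coefficients -/
def FP (κ : ℝ) (Y : ℕ) (t : ℝ) : ℂ := ∑ n ∈ Icc 1 Y, cb κ n * ee n t

end

end Pool.Agent.Lib.MP_31bf45_nt.Cl
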