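import Pool.Agent.Lib.MP_31bf45_nt.Cl.Ker

/-! Clusters and gaps of zeros of zeta: the error made by a zero off the line is dominated by its
own contribution to the smoothed count. -/

set_option autoImplicit false

namespace Pool.Agent.Lib.MP_31bf45_nt.Cl

open Complex Finset MeasureTheory Metric Om
open scoped ComplexConjugate

variable {κ : ℝ}

/-- the envelope of the kernel -/
noncomputable def dom_J (κ u : ℝ) : ℝ := Real.exp (-(5 * κ) * u ^ 2) / (1 + κ ^ 2 * u ^ 2)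

theorem dom_pos (κ u : ℝ) : 0 < dom_J κ u := by unfold dom_J; positivity

theorem dom_BB (h : 1 ≤ κ) {z : ℂ} (hz : ‖z‖ < 1 / κ) (u : ℝ) :
    ‖BB κ (z + u * I)‖ ^ 2 * (1 + κ ^ 2 * u ^ 2) ≤ 80 := by
  have h0 : 0 < κ := by linarith
  have hz' : κ * ‖z‖ ≤ 1 := by
    rw [lt_div_iff₀ h0] at hz; linarith
  have hre : κ * |(z + u * I).re| ≤ 1 := by
    have e : (z + u * I).re = z.re := by simp
    rw [e]
    exact (mul_le_mul_of_nonneg_left (abs_re_le_norm z) h0.le).trans hz'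
  have he : Real.exp (κ * |(z + u * I).re| / 2) ≤ 2 := by
    refine (Real.exp_le_exp.2 (by linarith : _ ≤ (1 / 2 : ℝ))).trans ?_
    have h1 : Real.exp (1 / 2) * Real.exp (1 / 2) = Real.exp 1 := by
      rw [← Real.exp_add]; norm_num
    have h2 := Real.exp_one_lt_d9
    nlinarith [Real.exp_pos (1 / 2 : ℝ)]
  have b1 : ‖BB κ (z + u * I)‖ ≤ 4 := by linarith [BB_le h0.le (z + u * I)]
  have b2 : ‖BB κ (z + u * I)‖ * (κ * ‖z + u * I‖) ≤ 4 := by
    have e := congrArg norm (BB_mul κ (z + u * I))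
    rw [norm_mul, norm_div, norm_mul, norm_real, Real.norm_of_nonneg h0.le, Complex.norm_two] at e
    have e2 : |((κ : ℂ) * (z + u * I) / 2).re| = κ * |(z + u * I).re| / 2 := by
      rw [div_ofNat_re, re_ofReal_mul, abs_div, abs_mul, abs_of_pos h0, abs_two]
    have e3 := sinh_le (κ * (z + u * I) / 2)
    rw [e2] at e3
    linarith
  have b3 : |u| ≤ ‖z + u * I‖ + ‖z‖ := by
    have := norm_sub_le (z + u * I) z
    rwa [add_sub_cancel_left, norm_mul, norm_I, mul_one, norm_real, Real.norm_eq_abs] at this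
  have n0 := norm_nonneg (BB κ (z + u * I))
  have b4 : ‖BB κ (z + u * I)‖ * (κ * |u|) ≤ 8 := by
    have t1 := mul_le_mul_of_nonneg_left (mul_le_mul_of_nonneg_left b3 h0.le) n0
    have t2 := mul_le_mul_of_nonneg_left hz' n0
    linarith
  have b5 := pow_le_pow_left₀ (by positivity) b4 2
  have b6 := pow_le_pow_left₀ n0 b1 2
  rw [mul_pow, mul_pow, sq_abs] at b5
  linarith

theorem dom_one (h : 1 ≤ κ) {z : ℂ} (hz : ‖z‖ < 1 / κ) {u : ℝ} (hu : |u| ≤ 6) :
    ‖KK κ (z + u * I)‖ ≤ 80 * Real.exp 65 * dom_J κ u := by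
  have h0 : 0 < κ := by linarith
  have hz' : κ * ‖z‖ ≤ 1 := by
    rw [lt_div_iff₀ h0] at hz; linarith
  have hz1 : ‖z‖ ≤ 1 := by nlinarith [norm_nonneg z]
  have e : z + u * I = (z.re : ℝ) + (z.im + u : ℝ) * I := by
    apply Complex.ext <;> simp
  have k1 : ‖kk √(10 * κ) (z + u * I)‖ ≤ Real.exp 65 * Real.exp (-(5 * κ) * u ^ 2) := by
    rw [e, norm_kk, Real.sq_sqrt (by positivity), ← Real.exp_add, Real.exp_le_exp]
    have p1 := abs_re_le_norm z
    have p2 := abs_im_le_norm z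
    have q1 : κ * z.re ^ 2 ≤ 1 := by
      rw [← sq_abs, sq, ← mul_assoc]
      exact mul_le_one₀ ((mul_le_mul_of_nonneg_left p1 h0.le).trans hz') (abs_nonneg _)
        (p1.trans hz1)
    have q2 : |κ * (z.im * u)| ≤ 1 * 6 := by
      rw [← mul_assoc, abs_mul, abs_mul, abs_of_pos h0]
      exact mul_le_mul ((mul_le_mul_of_nonneg_left p2 h0.le).trans hz') hu (abs_nonneg _) one_pos.le
    have q3 : 0 ≤ κ * z.im ^ 2 := by positivity
    linarith [(abs_le.1 q2).1]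
  have k2 : ‖BB κ (z + u * I)‖ ^ 2 ≤ 80 / (1 + κ ^ 2 * u ^ 2) := by
    rw [le_div_iff₀ (by positivity)]; exact dom_BB h hz u
  rw [KK, norm_mul, norm_pow]
  refine (mul_le_mul k2 k1 (norm_nonneg _) (by positivity)).trans (le_of_eq ?_)
  unfold dom_J; ring

theorem dom_two (h : 1 ≤ κ) {α δ u : ℝ} (ha : |α| ≤ δ) (hd : δ * κ ≤ 1 / 2) (hu : |u| ≤ 6) :
    |(KK κ (α + u * I)).re - kr κ u| ≤ 160 * Real.exp 65 * (δ ^ 2 * κ ^ 2) * dom_J κ u := by
  have h0 : 0 < κ := by linarith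
  have hJ := dom_pos κ u
  obtain ⟨f, hf⟩ : ∃ f : ℂ → ℂ, f = fun z => KK κ (z + u * I) + KK κ (-z + u * I) := ⟨_, rfl⟩
  have hK := KK_diff κ
  have d1 : Differentiable ℂ f := by rw [hf]; fun_prop
  have d2 : HasDerivAt f 0 0 := by
    have a1 : HasDerivAt (fun z : ℂ => KK κ (z + u * I)) (deriv (KK κ) (u * I) * 1) 0 :=
      HasDerivAt.comp_of_eq 0 (hK (u * I)).hasDerivAt ((hasDerivAt_id (0 : ℂ)).add_const (u * I))
        (by simp)
    have a2 : HasDerivAt (fun z : ℂ => KK κ (-z + u * I)) (deriv (KK κ) (u * I) * -1) 0 :=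
      HasDerivAt.comp_of_eq 0 (hK (u * I)).hasDerivAt
        ((hasDerivAt_neg (0 : ℂ)).add_const (u * I)) (by simp)
    rw [hf]
    exact (a1.add a2).congr_deriv (by ring)
  have b : ∀ z : ℂ, ‖z‖ < 1 / κ → ‖f z‖ ≤ 160 * Real.exp 65 * dom_J κ u := fun z hz => by
    rw [hf]
    have t1 := dom_one h hz hu
    have t2 := dom_one h (z := -z) (by rwa [norm_neg]) hu
    linarith [norm_add_le (KK κ (z + u * I)) (KK κ (-z + u * I))]
  have hm : Set.MapsTo f (ball 0 (1 / κ)) (closedBall (f 0) (320 * Real.exp 65 * dom_J κ u)) := by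
    intro z hz
    rw [mem_closedBall, dist_eq_norm]
    have t1 := b z (mem_ball_zero_iff.1 hz)
    have t2 := b 0 (by rw [norm_zero]; positivity)
    linarith [norm_sub_le (f z) (f 0)]
  have hak : |α| * κ ≤ δ * κ := mul_le_mul_of_nonneg_right ha h0.le
  have hz : (α : ℂ) ∈ ball (0 : ℂ) (1 / κ) := by
    rw [mem_ball_zero_iff, norm_real, Real.norm_eq_abs, lt_div_iff₀ h0]; linarith
  have key := dist_le_mul_div_pow_of_mapsTo_ball_of_isLittleO (n := 1) d1.differentiableOn hm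
    (by simpa using d2.isLittleO.norm_right) hz
  have e0 : f 0 = ((2 * kr κ u : ℝ) : ℂ) := by
    rw [hf]; simp only [neg_zero, zero_add]
    rw [KK_zero h0.le]; push_cast; ring
  have e1 : f α = ((2 * (KK κ (α + u * I)).re : ℝ) : ℂ) := by
    have : (-(α : ℂ) + u * I) = -conj ((α : ℂ) + u * I) := by simp; ring
    rw [hf]; simp only
    rw [this, KK_neg, KK_conj, add_conj]
  rw [e0, e1, dist_eq_norm, ← ofReal_sub, norm_real, Real.norm_eq_abs, ← mul_sub, abs_mul, abs_two,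
    dist_zero_right, norm_real, Real.norm_eq_abs, div_div_eq_mul_div, div_one] at key
  have k2 : (|α| * κ) ^ (1 + 1) ≤ (δ * κ) ^ 2 := pow_le_pow_left₀ (by positivity) hak 2
  have k3 := mul_le_mul_of_nonneg_left k2
    (by positivity : 0 ≤ 320 * Real.exp 65 * dom_J κ u)
  rw [mul_pow δ] at k3
  linarith

theorem dom_three (h : 1 ≤ κ) {u v : ℝ} (hu : |u| ≤ 6) (hv : |v| ≤ 6) (hd : |u - v| ≤ 40 / κ) :
    dom_J κ u ≤ 3201 * Real.exp 2400 * dom_J κ v := by
  have h0 : 0 < κ := by linarith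
  have hd' : |κ * (u - v)| ≤ 40 := by
    rw [le_div_iff₀ h0] at hd
    rw [abs_mul, abs_of_pos h0]; linarith
  have k1 : Real.exp (-(5 * κ) * u ^ 2) ≤ Real.exp 2400 * Real.exp (-(5 * κ) * v ^ 2) := by
    rw [← Real.exp_add, Real.exp_le_exp]
    have q : |κ * (u - v) * (u + v)| ≤ 40 * 12 := by
      rw [abs_mul]
      exact mul_le_mul hd' ((abs_add_le u v).trans (by linarith)) (abs_nonneg _) (by norm_num)
    linarith [(abs_le.1 q).1]
  have k2 : 1 / (1 + κ ^ 2 * u ^ 2) ≤ 3201 / (1 + κ ^ 2 * v ^ 2) := by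
    rw [div_le_div_iff₀ (by positivity) (by positivity)]
    have q := pow_le_pow_left₀ (abs_nonneg _) hd' 2
    rw [sq_abs] at q
    nlinarith [sq_nonneg (κ * (u - v) + κ * u), sq_nonneg (κ * u)]
  have k3 := mul_le_mul k1 k2 (by positivity) (by positivity)
  unfold dom_J
  calc _ = Real.exp (-(5 * κ) * u ^ 2) * (1 / (1 + κ ^ 2 * u ^ 2)) := by ring
    _ ≤ _ := k3
    _ = _ := by ring

theorem dom_low (κ u : ℝ) : Real.sin (κ * u / 2) ^ 2 * dom_J κ u ≤ kr κ u := by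
  have a1 : ∀ y : ℝ, Real.sin y = Real.sinc y * y := fun y => by
    rcases eq_or_ne y 0 with rfl | h
    · simp
    · rw [Real.sinc_of_ne_zero h, div_mul_cancel₀ _ h]
  unfold dom_J kr
  rw [a1, mul_pow, mul_assoc]
  refine mul_le_mul_of_nonneg_left ?_ (sq_nonneg _)
  rw [← mul_div_assoc, div_le_iff₀ (by positivity), mul_comm]
  refine mul_le_mul_of_nonneg_left ?_ (Real.exp_pos _).le
  nlinarith [sq_nonneg (κ * u)]

theorem dom_sin (h : 0 < κ) (x : ℝ) :
    38 / κ ≤ ∫ τ in (-(40 / κ))..(40 / κ), Real.sin (κ * (x - τ) / 2) ^ 2 := by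
  have e : ∀ τ : ℝ, κ * (x - τ) / 2 = κ * x / 2 - κ / 2 * τ := fun τ => by ring
  simp only [e]
  rw [intervalIntegral.integral_comp_sub_mul (fun y => Real.sin y ^ 2) (by positivity : κ / 2 ≠ 0),
    integral_sin_sq, smul_eq_mul]
  have e1 : κ / 2 * (40 / κ) = 20 := by field_simp; norm_num
  have a : ∀ y : ℝ, |Real.sin y * Real.cos y| ≤ 1 := fun y => by
    rw [abs_mul]
    exact mul_le_one₀ (Real.abs_sin_le_one y) (abs_nonneg _) (Real.abs_cos_le_one y)
  rw [mul_neg, e1, show 38 / κ = (κ / 2)⁻¹ * 19 by field_simp; norm_num]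
  refine mul_le_mul_of_nonneg_left ?_ (by positivity)
  linarith [(abs_le.1 (a (κ * x / 2 - 20))).1, (abs_le.1 (a (κ * x / 2 - -20))).2]

theorem dom : ∃ C : ℝ, 0 ≤ C ∧ ∀ (κ δ : ℝ) (a : ℂ), 80 ≤ κ → δ * κ ≤ 1 / 2 → |a.re| ≤ δ →
    |a.im| ≤ 5 → |(∫ τ in (-(40 / κ))..(40 / κ), (KK κ (a - τ * I)).re) - WW κ a.im| ≤
      C * δ ^ 2 * κ ^ 2 * WW κ a.im := by
  obtain ⟨A, hA⟩ : ∃ A : ℝ, A = 160 * Real.exp 65 := ⟨_, rfl⟩
  obtain ⟨B, hB⟩ : ∃ B : ℝ, B = 3201 * Real.exp 2400 := ⟨_, rfl⟩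
  have A0 : 0 < A := by rw [hA]; positivity
  have B0 : 0 < B := by rw [hB]; positivity
  refine ⟨3 * A * B ^ 2, by positivity, fun κ δ a hκ hd hre him => ?_⟩
  have h0 : 0 < κ := by linarith
  have h1 : 1 ≤ κ := by linarith
  have w0 : 0 < 40 / κ := by positivity
  have w1 : 40 / κ ≤ 1 := by rw [div_le_one h0]; linarith
  have hle : -(40 / κ) ≤ 40 / κ := by linarith
  have hJ := dom_pos κ a.im
  have hx : |a.im| ≤ 6 := by linarith
  have hu : ∀ τ : ℝ, |τ| ≤ 40 / κ → |a.im - τ| ≤ 6 := fun τ hτ =>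
    (abs_sub a.im τ).trans (by linarith)
  have hK := (KK_diff κ).continuous
  have hk := kr_cont κ
  have c1 : Continuous fun τ : ℝ => (KK κ (a - τ * I)).re :=
    continuous_re.comp (hK.comp (by fun_prop))
  have c2 : Continuous fun τ : ℝ => kr κ (a.im - τ) := by fun_prop
  have c3 : Continuous fun τ : ℝ => Real.sin (κ * (a.im - τ) / 2) ^ 2 * dom_J κ a.im := by fun_prop
  have up : ‖∫ τ in (-(40 / κ))..(40 / κ), ((KK κ (a - τ * I)).re - kr κ (a.im - τ))‖ ≤
      A * (δ ^ 2 * κ ^ 2) * (B * dom_J κ a.im) * |40 / κ - -(40 / κ)| := by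
    refine intervalIntegral.norm_integral_le_of_norm_le_const fun τ hτ => ?_
    rw [Set.uIoc_of_le hle] at hτ
    have hτ' : |τ| ≤ 40 / κ := abs_le.2 ⟨hτ.1.le, hτ.2⟩
    have e : a - τ * I = (a.re : ℝ) + (a.im - τ : ℝ) * I := by
      apply Complex.ext <;> simp [sub_eq_add_neg]
    have t1 := dom_two h1 hre hd (hu τ hτ')
    have t2 := dom_three h1 (hu τ hτ') hx (by rwa [sub_sub_cancel_left, abs_neg])
    rw [← hA] at t1
    rw [← hB] at t2
    rw [e, Real.norm_eq_abs]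
    exact t1.trans (mul_le_mul_of_nonneg_left t2 (by positivity))
  have lo : 38 / κ * dom_J κ a.im ≤ B * WW κ a.im := by
    refine (mul_le_mul_of_nonneg_right (dom_sin h0 a.im) hJ.le).trans ?_
    rw [WW, ← intervalIntegral.integral_mul_const, ← intervalIntegral.integral_const_mul]
    refine intervalIntegral.integral_mono_on hle (c3.intervalIntegrable _ _)
      ((continuous_const.mul c2).intervalIntegrable _ _) fun τ hτ => ?_
    have hτ' : |τ| ≤ 40 / κ := abs_le.2 hτ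
    have t2 := dom_three h1 hx (hu τ hτ') (by rwa [sub_sub_cancel])
    rw [← hB] at t2
    have t3 := mul_le_mul_of_nonneg_left (dom_low κ (a.im - τ)) B0.le
    have t4 := mul_le_mul_of_nonneg_left t2 (sq_nonneg (Real.sin (κ * (a.im - τ) / 2)))
    linarith
  rw [intervalIntegral.integral_sub (c1.intervalIntegrable _ _) (c2.intervalIntegrable _ _),
    Real.norm_eq_abs, abs_of_pos (by linarith : 0 < 40 / κ - -(40 / κ))] at up
  have f1 : dom_J κ a.im * (40 / κ - -(40 / κ)) ≤ 3 * (B * WW κ a.im) := by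
    have : 0 ≤ 1 / κ * dom_J κ a.im := by positivity
    have e1 : dom_J κ a.im * (40 / κ - -(40 / κ)) = 80 * (1 / κ * dom_J κ a.im) := by ring
    have e2 : 38 / κ * dom_J κ a.im = 38 * (1 / κ * dom_J κ a.im) := by ring
    linarith
  have f2 := mul_le_mul_of_nonneg_left f1 (by positivity : 0 ≤ A * (δ ^ 2 * κ ^ 2) * B)
  calc _ ≤ _ := up
    _ = A * (δ ^ 2 * κ ^ 2) * B * (dom_J κ a.im * (40 / κ - -(40 / κ))) := by ring
    _ ≤ _ := f2
    _ = _ := by ring

end Pool.Agent.Lib.MP_31bf45_nt.Cl
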