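import Pool.Agent.Lib.MP_31bf45_nt.Cl.Def
import Pool.Agent.Lib.MP_31bf45_nt.Om.Land

/-! Local factorisation of zeta: logarithmic derivative and the count of zeros. -/

set_option autoImplicit false

namespace Pool.Agent.Lib.MP_31bf45_nt.Cl

open Complex Finset MeasureTheory Metric Om Pool.Agent.Lib.MP_b09185_nt.Sh
open scoped ComplexConjugate

theorem refl {s : ℂ} (h : riemannZeta s = 0) (h' : s.im ≠ 0) : riemannZeta (1 - conj s) = 0 := by
  have h1 : ∀ n : ℕ, conj s ≠ -n := fun n e => h' (by simpa using congrArg im e)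
  have h2 : conj s ≠ 1 := fun e => h' (by simpa using congrArg im e)
  rw [riemannZeta_one_sub h1 h2, riemannZeta_conj, h, map_zero, mul_zero]

theorem fac_ord {f g : ℂ → ℂ} {n : ℕ} {ρ : Fin n → ℂ} {a k : ℂ} (hk : k ≠ 0)
    (hg : AnalyticAt ℂ g a) (h0 : g a ≠ 0) (e : ∀ z, k * f z = (∏ i, (z - ρ i)) * g z) :
    analyticOrderNatAt f a = #{i | ρ i = a} := by
  have e1 : f = fun z => k⁻¹ * ((∏ i, (z - ρ i)) * g z) := funext fun z => by
    rw [← e z, inv_mul_cancel_left₀ hk]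
  have hp : ∀ S : Finset (Fin n), AnalyticAt ℂ (fun z : ℂ => ∏ i ∈ S, (z - ρ i)) a := fun S =>
    Finset.analyticAt_fun_prod S fun i _ => analyticAt_id.sub analyticAt_const
  have hf : AnalyticAt ℂ f a := by
    rw [e1]
    exact analyticAt_const.mul ((hp univ).mul hg)
  have key : analyticOrderAt f a = (#{i | ρ i = a} : ℕ) := by
    refine hf.analyticOrderAt_eq_natCast.2 ⟨fun z => k⁻¹ *
      ((∏ i ∈ univ.filter fun i => ¬ ρ i = a, (z - ρ i)) * g z),
      analyticAt_const.mul ((hp _).mul hg), ?_, Filter.Eventually.of_forall fun z => ?_⟩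
    · refine mul_ne_zero (inv_ne_zero hk) (mul_ne_zero (prod_ne_zero_iff.2 fun i hi => ?_) h0)
      exact sub_ne_zero.2 fun e => (mem_filter.1 hi).2 e.symm
    · have e2 : ∏ i ∈ univ.filter fun i => ρ i = a, (z - ρ i) = (z - a) ^ #{i | ρ i = a} := by
        rw [← prod_const]
        exact prod_congr rfl fun i hi => by rw [(mem_filter.1 hi).2]
      rw [e1, smul_eq_mul]
      dsimp only
      rw [← prod_filter_mul_prod_filter_not univ (fun i => ρ i = a), e2]
      ring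
  rw [analyticOrderNatAt, key, ENat.toNat_natCast]

theorem fac_ld {f g : ℂ → ℂ} {n : ℕ} {ρ : Fin n → ℂ} {s k : ℂ} (hk : k ≠ 0)
    (hg : DifferentiableAt ℂ g s) (h0 : f s ≠ 0) (e : ∀ z, k * f z = (∏ i, (z - ρ i)) * g z) :
    deriv f s / f s = ∑ i, (s - ρ i)⁻¹ + deriv g s / g s := by
  have e1 : f = fun z => k⁻¹ * ((∏ i, (z - ρ i)) * g z) := funext fun z => by
    rw [← e z, inv_mul_cancel_left₀ hk]
  have h1 : (∏ i, (s - ρ i)) * g s ≠ 0 := e s ▸ mul_ne_zero hk h0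
  have h2 := left_ne_zero_of_mul h1
  have h3 := right_ne_zero_of_mul h1
  have h4 : ∀ i, s - ρ i ≠ 0 := fun i => prod_ne_zero_iff.1 h2 i (mem_univ i)
  have h5 : HasDerivAt (fun z : ℂ => ∏ i, (z - ρ i))
      (∑ i, (∏ j ∈ univ.erase i, (s - ρ j)) • (1 : ℂ)) s :=
    HasDerivAt.fun_finsetProd fun i _ => (hasDerivAt_id s).sub_const (ρ i)
  have h6 : ∑ i, (∏ j ∈ univ.erase i, (s - ρ j)) • (1 : ℂ) =
      (∑ i, (s - ρ i)⁻¹) * ∏ i, (s - ρ i) := by
    rw [sum_mul]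
    refine sum_congr rfl fun i _ => ?_
    rw [← mul_prod_erase univ _ (mem_univ i), inv_mul_cancel_left₀ (h4 i), smul_eq_mul, mul_one]
  rw [h6] at h5
  have h7 := ((h5.fun_mul hg.hasDerivAt).const_mul k⁻¹).deriv
  rw [e1, h7]
  field_simp

theorem fac : ∃ C : ℝ, 0 ≤ C ∧ ∀ t : ℝ, 20 ≤ t → ∃ (n : ℕ) (ρ : Fin n → ℂ) (H : ℂ → ℂ),
    n ≤ C * Real.log t ∧ (∀ i, riemannZeta (ρ i) = 0 ∧ ρ i ∈ ball (2 + t * I) 5) ∧
    DifferentiableOn ℂ H (ball (2 + t * I) 5) ∧
    (∀ s ∈ closedBall (2 + t * I) (9 / 2), ‖H s‖ ≤ C * Real.log t) ∧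
    (∀ s ∈ ball (2 + t * I) 5, riemannZeta s ≠ 0 →
      deriv riemannZeta s / riemannZeta s = ∑ i, (s - ρ i)⁻¹ + H s) ∧
    ∀ y h : ℝ, t - 3 ≤ y → y + h ≤ t + 3 →
      IsZ y h #{i | y < (ρ i).im ∧ (ρ i).im < y + h} := by
  obtain ⟨C, C1, hC⟩ := land_zeta
  refine ⟨160 * C, by linarith, fun t ht => ?_⟩
  obtain ⟨hd, hB⟩ := hC t ht
  have l1 : 1 ≤ Real.log t := by
    rw [Real.le_log_iff_exp_le (by linarith)]
    linarith [Real.exp_one_lt_d9]
  obtain ⟨M, hM⟩ : ∃ M, M = C * Real.log t := ⟨_, rfl⟩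
  have M1 : 1 ≤ M := by nlinarith
  rw [mul_assoc, ← hM]
  rw [← hM] at hB
  obtain ⟨c, hc⟩ : ∃ c : ℂ, c = 2 + t * I := ⟨_, rfl⟩
  have cre : c.re = 2 := by simp [hc]
  have cim : c.im = t := by simp [hc]
  rw [← hc] at hd hB ⊢
  have zc : 1 / 2 ≤ ‖riemannZeta c‖ := by
    have := zeta_ge (s := c) (by rw [cre]; norm_num)
    rw [cre] at this
    linarith
  have hm : Real.exp M < 2 ^ ⌈2 * M⌉₊ := by
    have a : Real.exp M < Real.exp ((⌈2 * M⌉₊ : ℕ) * Real.log 2) := Real.exp_lt_exp.2 (by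
      nlinarith [Nat.le_ceil (2 * M), Real.log_two_gt_d9])
    rwa [Real.exp_nat_mul, Real.exp_log two_pos] at a
  obtain ⟨n, ρ, g, h1, h2, h3, h4, h5, h6, h7⟩ := land_fac ⌈2 * M⌉₊ _ hd hB (by
    nlinarith [Real.exp_pos M])
  have hn : (n : ℝ) ≤ 3 * M := by
    have : (n : ℝ) ≤ ⌈2 * M⌉₊ := by exact_mod_cast h1
    linarith [Nat.ceil_lt_add_one (show 0 ≤ 2 * M by linarith)]
  have s5 : ball c 5 ⊆ ball c 16 := ball_subset_ball (by norm_num)
  have t0 : (10 : ℂ) ^ n ≠ 0 := pow_ne_zero _ (by norm_num)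
  have z0 : ∀ i, riemannZeta (ρ i) = 0 := fun i => by
    have := h7 (ρ i)
    rw [prod_eq_zero (mem_univ i) (sub_self _), zero_mul] at this
    exact (mul_eq_zero.1 this).resolve_left t0
  have g5 := h3.mono s5
  refine ⟨n, ρ, fun s => deriv g s / g s, by linarith, fun i => ⟨z0 i, h2 i⟩,
    (g5.deriv isOpen_ball).div g5 h5, fun s hs => ?_, fun s hs h0 =>
      fac_ld t0 (g5.differentiableAt (isOpen_ball.mem_nhds hs)) h0 h7, fun y h hy hh => ?_⟩
  · rw [mem_closedBall, dist_eq_norm] at hs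
    have := logderiv_far (δ := 1 / 4) (M := M) (z := s) (by norm_num) (by linarith) g5 h5
      (fun z hz => h4 z (s5 hz)) (by nlinarith [Real.exp_pos M]) (by linarith)
    exact this.trans (le_of_eq (by ring))
  · have hin : ∀ a : ℂ, riemannZeta a = 0 → y < a.im → a.im < y + h → a ∈ ball c 5 := by
      intro a a0 a1 a2
      have r1 : a.re < 1 := not_le.1 fun h => riemannZeta_ne_zero_of_one_le_re h a0
      have r0 : 0 < a.re := by
        have := not_le.1 fun h => riemannZeta_ne_zero_of_one_le_re h (refl a0 (by linarith))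
        simp only [sub_re, one_re, conj_re] at this
        linarith
      rw [mem_ball, dist_eq_norm]
      have b := norm_le_abs_re_add_abs_im (a - c)
      rw [sub_re, sub_im, cre, cim] at b
      have b1 : |a.re - 2| < 2 := abs_lt.2 ⟨by linarith, by linarith⟩
      have b2 : |a.im - t| ≤ 3 := abs_le.2 ⟨by linarith, by linarith⟩
      linarith
    refine ⟨(univ.filter fun i => y < (ρ i).im ∧ (ρ i).im < y + h).image ρ, fun a => ?_, ?_⟩
    · rw [mem_image]
      constructor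
      · rintro ⟨i, hi, rfl⟩
        exact ⟨z0 i, (mem_filter.1 hi).2⟩
      · rintro ⟨a0, a1, a2⟩
        have := h7 a
        rw [a0, mul_zero] at this
        obtain ⟨i, -, hi⟩ := prod_eq_zero_iff.1
          ((mul_eq_zero.1 this.symm).resolve_right (h5 a (hin a a0 a1 a2)))
        obtain rfl := sub_eq_zero.1 hi
        exact ⟨i, mem_filter.2 ⟨mem_univ i, a1, a2⟩, rfl⟩
    · rw [card_eq_sum_card_image ρ]
      refine sum_congr rfl fun a ha => ?_
      obtain ⟨i, hi, rfl⟩ := mem_image.1 ha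
      rw [fac_ord t0 (g5.analyticAt (isOpen_ball.mem_nhds (h2 i))) (h5 _ (h2 i)) h7]
      congr 1
      ext j
      simp only [mem_filter, mem_univ, true_and]
      exact ⟨fun h => h.2, fun h => ⟨h ▸ (mem_filter.1 hi).2, h⟩⟩

end Pool.Agent.Lib.MP_31bf45_nt.Cl
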