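import Pool.Agent.Lib.MP_31bf45_nt.Cl.Ker
import Pool.Agent.Lib.MP_b09185_nt.ShKer

/-! The residue at a simple pole between two lines. -/

set_option autoImplicit false

namespace Pool.Agent.Lib.MP_31bf45_nt.Cl

open Complex Finset MeasureTheory Metric Om Pool.Agent.Lib.MP_b09185_nt.Sh
open Pool.Agent.Lib.MP_b09185_nt.Mai (EE)
open scoped ComplexConjugate

variable {κ : ℝ}

theorem resid_inv {x y : ℝ} (hy : 1 ≤ |y|) : ‖((x : ℂ) + y * I)⁻¹‖ ≤ 1 := by
  rw [norm_inv]
  refine inv_le_one_of_one_le₀ (hy.trans ?_)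
  simpa using abs_im_le_norm ((x : ℂ) + y * I)

theorem resid_int {c : ℝ} (hc : c ≠ 0) :
    Integrable fun y : ℝ => ((c : ℂ) + y * I)⁻¹ * EE 0 (c + y * I) := by
  refine (shift_line (F := fun z => z⁻¹) (σ₁ := c) (σ₂ := c) (C := 1) 0 le_rfl
    (differentiableOn_id.inv fun z hz e => hc ?_) fun x _ y hy => (resid_inv hy).trans ?_).1 c
    ⟨le_rfl, le_rfl⟩
  · have h := hz.1
    rw [Set.mem_preimage, Set.Icc_self, Set.mem_singleton_iff, show z = 0 from e] at h
    exact h.symm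
  · rw [one_mul]
    exact Real.one_le_exp (by positivity)

theorem resid_pos {c : ℝ} (hc : 0 < c) :
    ∫ y : ℝ, ((c : ℂ) + y * I)⁻¹ * EE 0 (c + y * I) = Real.pi := by
  have h := ker_inv hc 0 0
  simp only [ofReal_zero, zero_mul, add_zero, neg_zero, exp_zero, one_mul, zero_sub, even_two,
    Even.neg_pow] at h
  have e : ∫ y in Set.Ioi (0 : ℝ), Real.exp (-y ^ 2 / 2) = √(Real.pi / (1 / 2)) / 2 := by
    rw [← integral_gaussian_Ioi]
    exact integral_congr_ae (.of_forall fun y => congrArg Real.exp (by ring))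
  rw [h, integral_complex_ofReal, e, ← ofReal_mul, show Real.pi / (1 / 2) = 2 * Real.pi by ring,
    ← mul_div_assoc, Real.mul_self_sqrt (by positivity)]
  congr 1
  ring

theorem resid_neg {c : ℝ} (hc : c < 0) :
    ∫ y : ℝ, ((c : ℂ) + y * I)⁻¹ * EE 0 (c + y * I) = -Real.pi := by
  rw [← resid_pos (neg_pos.2 hc), ← integral_neg, ← integral_neg_eq_self]
  refine integral_congr_ae (.of_forall fun y => ?_)
  have e : (c : ℂ) + ((-y : ℝ) : ℂ) * I = -(((-c : ℝ) : ℂ) + y * I) := by push_cast; ring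
  simp only [e, EE, inv_neg, neg_mul, ofReal_zero, zero_mul, even_two, Even.neg_pow]

/-- the kernel divided by the Gaussian -/
noncomputable def residF (κ : ℝ) (a z : ℂ) : ℂ := KK κ (a + z) * exp (-(z ^ 2 / 2))

theorem resid_diff (κ : ℝ) (a : ℂ) : Differentiable ℂ (residF κ a) :=
  ((KK_diff κ).comp (differentiable_id.const_add a)).mul (by fun_prop)

theorem resid_le (h : 1 ≤ κ) {a : ℂ} {x : ℝ} (hx : |a.re + x| ≤ 3 / 2) (y : ℝ) :
    ‖residF κ a (x + y * I)‖ ≤ 4 * Real.exp (13 * κ) * Real.exp (10 * |a.im| * |y|) := by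
  have e : a + (x + y * I) = ((a.re + x : ℝ) : ℂ) + (a.im + y : ℝ) * I := by
    apply Complex.ext <;> simp
  have e2 : (-(((x : ℂ) + y * I) ^ 2 / 2)).re = (y ^ 2 - x ^ 2) / 2 := by
    simp [pow_two]
    ring
  rw [residF, norm_mul, norm_exp, e, e2]
  refine (mul_le_mul_of_nonneg_right (KK_le (by linarith) _ _) (Real.exp_pos _).le).trans ?_
  simp only [mul_assoc, ← Real.exp_add]
  refine mul_le_mul_of_nonneg_left (Real.exp_le_exp.2 ?_) (by norm_num)
  have b1 : (a.re + x) ^ 2 ≤ 9 / 4 := by nlinarith [abs_nonneg (a.re + x), sq_abs (a.re + x)]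
  have b2 : -(a.im * y) ≤ |a.im| * |y| := by rw [← abs_mul]; exact neg_le_abs _
  have b3 : (a.im + y) ^ 2 ≤ κ * (a.im + y) ^ 2 := le_mul_of_one_le_left (sq_nonneg _) h
  have b4 := mul_le_mul_of_nonneg_left b1 (by linarith : 0 ≤ κ)
  have b5 := mul_le_mul_of_nonneg_left hx (by linarith : 0 ≤ κ)
  nlinarith [sq_nonneg x, sq_nonneg y, sq_nonneg a.im]

theorem resid_split (κ : ℝ) (a : ℂ) {c : ℝ} (hc : c ≠ 0)
    (hi : Integrable fun y : ℝ => dslope (residF κ a) 0 (c + y * I) * EE 0 (c + y * I)) :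
    ∫ u : ℝ, ((a.re + c : ℝ) + u * I - a)⁻¹ * KK κ ((a.re + c : ℝ) + u * I) =
      (∫ y : ℝ, dslope (residF κ a) 0 (c + y * I) * EE 0 (c + y * I)) +
        KK κ a * ∫ y : ℝ, ((c : ℂ) + y * I)⁻¹ * EE 0 (c + y * I) := by
  rw [← integral_const_mul, ← integral_add hi ((resid_int hc).const_mul _),
    ← integral_add_left_eq_self _ a.im]
  refine integral_congr_ae (.of_forall fun y => ?_)
  have e : ((a.re + c : ℝ) : ℂ) + (a.im + y : ℝ) * I = a + (c + y * I) := by
    apply Complex.ext <;> simp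
  have h0 : (c : ℂ) + y * I ≠ 0 := fun e => hc (by simpa using congrArg re e)
  have e1 : exp (-(((c : ℂ) + y * I) ^ 2 / 2)) * exp (((c : ℂ) + y * I) ^ 2 / 2) = 1 := by
    rw [← exp_add, neg_add_cancel, exp_zero]
  simp only [e, add_sub_cancel_left, dslope_of_ne _ h0, slope_def_field, sub_zero, residF, EE,
    ofReal_zero, zero_mul, add_zero]
  generalize (c : ℂ) + y * I = z at e1 ⊢
  simp only [ne_eq, OfNat.ofNat_ne_zero, not_false_eq_true, zero_pow, zero_div, neg_zero, exp_zero,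
    mul_one, div_eq_mul_inv _ z]
  linear_combination -(z⁻¹ * KK κ (a + z)) * e1

theorem resid (h : 1 ≤ κ) {a : ℂ} (ha : |a.re| ≤ 1 / 2) :
    (∫ u : ℝ, ((3 / 2 : ℝ) + u * I - a)⁻¹ * KK κ ((3 / 2 : ℝ) + u * I)) -
      ∫ u : ℝ, ((-(3 / 2) : ℝ) + u * I - a)⁻¹ * KK κ ((-(3 / 2) : ℝ) + u * I) =
      2 * Real.pi * KK κ a := by
  obtain ⟨a1, a2⟩ := abs_le.1 ha
  have hd : Differentiable ℂ (dslope (residF κ a) 0) := differentiableOn_univ.1
    ((differentiableOn_dslope Filter.univ_mem).2 (resid_diff κ a).differentiableOn)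
  obtain ⟨hi, hs⟩ := shift_line (F := dslope (residF κ a) 0) (σ₁ := -(3 / 2) - a.re)
    (σ₂ := 3 / 2 - a.re) (C := 4 * Real.exp (13 * κ) + ‖residF κ a 0‖ + 10 * |a.im|) 0
    (by linarith) hd.differentiableOn fun x hx y hy => by
      have h0 : (x : ℂ) + y * I ≠ 0 := fun e => by
        have : y = 0 := by simpa using congrArg im e
        rw [this, abs_zero] at hy
        linarith
      have b1 := resid_le h (a := a) (x := x) (abs_le.2 ⟨by linarith [hx.1], by linarith [hx.2]⟩) y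
      have b2 : Real.exp (10 * |a.im| * |y|) ≤
          Real.exp ((4 * Real.exp (13 * κ) + ‖residF κ a 0‖ + 10 * |a.im|) * |y|) := by
        gcongr
        exact le_add_of_nonneg_left (by positivity)
      have b3 : 1 ≤ Real.exp (10 * |a.im| * |y|) := Real.one_le_exp (by positivity)
      rw [dslope_of_ne _ h0, slope_def_field, sub_zero, div_eq_mul_inv, norm_mul]
      refine (mul_le_of_le_one_right (norm_nonneg _) (resid_inv hy)).trans
        ((norm_sub_le _ _).trans (le_trans ?_ (mul_le_mul_of_nonneg_left b2 (by positivity))))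
      nlinarith [norm_nonneg (residF κ a 0), abs_nonneg a.im]
  have p1 : (0 : ℝ) < 3 / 2 - a.re := by linarith
  have p2 : -(3 / 2) - a.re < (0 : ℝ) := by linarith
  have e1 := resid_split κ a p1.ne' (hi _ ⟨by linarith, le_rfl⟩)
  have e2 := resid_split κ a p2.ne (hi _ ⟨le_rfl, by linarith⟩)
  rw [add_sub_cancel] at e1 e2
  rw [e1, e2, hs, resid_pos p1, resid_neg p2]
  ring

end Pool.Agent.Lib.MP_31bf45_nt.Cl
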