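import Pool.Agent.Lib.MP_31bf45_nt.Cl.Four
import Pool.Agent.Lib.MP_31bf45_nt.Om.KerB

/-! The logarithmic derivative of zeta on the line two against the kernel. -/

set_option autoImplicit false

namespace Pool.Agent.Lib.MP_31bf45_nt.Cl

open Complex Finset MeasureTheory Metric Om
open ArithmeticFunction (vonMangoldt)

variable {κ : ℝ}

theorem ser_term (y : ℝ) (n : ℕ) :
    LSeries.term (fun n : ℕ => vonMangoldt n) (2 + y * I) n =
      (vonMangoldt n * (1 / (n : ℝ) ^ 2) : ℝ) * ee n y := by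
  rcases eq_or_ne n 0 with rfl | h
  · simp
  · have h1 := cpow_eq h 2 y
    rw [Real.rpow_neg (Nat.cast_nonneg n), Real.rpow_two, cpow_neg] at h1
    rw [LSeries.term_of_ne_zero h, div_eq_mul_inv _ (_ ^ _), ← ofReal_ofNat 2, h1]
    push_cast
    ring

theorem ser_LV (y : ℝ) : LV (2 + y * I) =
    ∑' n : ℕ, (vonMangoldt n * (1 / (n : ℝ) ^ 2) : ℝ) * ee n y :=
  tsum_congr (ser_term y)

theorem ser_norm (y : ℝ) (n : ℕ) :
    ‖((vonMangoldt n * (1 / (n : ℝ) ^ 2) : ℝ) : ℂ) * ee n y‖ =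
      vonMangoldt n * (1 / (n : ℝ) ^ 2) := by
  rw [norm_mul, norm_ee, mul_one, norm_real, Real.norm_of_nonneg
    (mul_nonneg ArithmeticFunction.vonMangoldt_nonneg (by positivity))]

theorem ser_sum : Summable fun n : ℕ => vonMangoldt n * (1 / (n : ℝ) ^ 2) := by
  have h := summable_norm_iff.2 (ArithmeticFunction.LSeriesSummable_vonMangoldt
    (s := 2 + (0 : ℝ) * I) (by simp))
  exact h.congr fun n => by rw [ser_term, ser_norm]

theorem LV_bd : ∃ K : ℝ, 0 ≤ K ∧ ∀ y : ℝ, ‖LV (2 + y * I)‖ ≤ K := by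
  refine ⟨∑' n : ℕ, vonMangoldt n * (1 / (n : ℝ) ^ 2), tsum_nonneg fun n =>
    mul_nonneg ArithmeticFunction.vonMangoldt_nonneg (by positivity), fun y => ?_⟩
  rw [ser_LV]
  exact tsum_of_norm_bounded ser_sum.hasSum fun n => (ser_norm y n).le

theorem LV_cont : Continuous fun y : ℝ => LV (2 + y * I) := by
  simp only [ser_LV]
  exact continuous_tsum (fun n => by fun_prop) ser_sum fun n y => (ser_norm y n).le

theorem LV_eq {s : ℂ} (hs : 1 < s.re) : deriv riemannZeta s / riemannZeta s = -LV s := by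
  rw [LV, ArithmeticFunction.LSeries_vonMangoldt_eq_deriv_riemannZeta_div hs, neg_div, neg_neg]

theorem ser_cont (κ c : ℝ) : Continuous fun u : ℝ => KK κ (c + u * I) :=
  (KK_diff κ).continuous.comp (by fun_prop)

theorem ser_int (h : 0 < κ) (c : ℝ) : Integrable fun u : ℝ => ‖KK κ (c + u * I)‖ := by
  refine ((integrable_exp_neg_mul_sq (b := 5 * κ) (by positivity)).const_mul
    (4 * Real.exp (κ * |c|) * Real.exp (5 * κ * c ^ 2))).mono'
    (ser_cont κ c).norm.aestronglyMeasurable (ae_of_all _ fun u => ?_)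
  rw [norm_norm, mul_assoc _ (Real.exp _) (Real.exp _), ← Real.exp_add]
  exact (KK_le h.le c u).trans_eq (by congr 2; ring)

theorem ser_has (h : 1 ≤ κ) (y : ℝ) :
    HasSum (fun n : ℕ => ((vonMangoldt n / √n * gg κ (Real.log n) : ℝ) : ℂ) * ee n y)
      (∫ u : ℝ, LV (2 + (y + u : ℝ) * I) * KK κ ((3 / 2 : ℝ) + u * I)) := by
  have hκ : 0 < κ := by linarith
  have hb : ∀ (n : ℕ) (u : ℝ), ‖((vonMangoldt n * (1 / (n : ℝ) ^ 2) : ℝ) : ℂ) *
      ee n (y + u) * KK κ ((3 / 2 : ℝ) + u * I)‖ =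
      vonMangoldt n * (1 / (n : ℝ) ^ 2) * ‖KK κ ((3 / 2 : ℝ) + u * I)‖ := fun n u => by
    rw [norm_mul, ser_norm]
  have hi : ∀ n : ℕ, Integrable fun u : ℝ => ((vonMangoldt n * (1 / (n : ℝ) ^ 2) : ℝ) :
      ℂ) * ee n (y + u) * KK κ ((3 / 2 : ℝ) + u * I) := fun n =>
    ((ser_int hκ _).const_mul _).mono' (Continuous.aestronglyMeasurable
      (Continuous.mul (by fun_prop) (ser_cont κ _))) (ae_of_all _ fun u => (hb n u).le)
  have h1 := hasSum_integral_of_summable_integral_norm hi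
    ((ser_sum.mul_right (∫ u : ℝ, ‖KK κ ((3 / 2 : ℝ) + u * I)‖)).congr fun n => by
        simp only [hb]
        rw [integral_const_mul])
  simp only [ser_LV, ← tsum_mul_right]
  refine HasSum.congr_fun h1 fun n => ?_
  simp only [ee_add, ← mul_assoc]
  simp only [mul_assoc _ (ee n _) (KK _ _)]
  rw [integral_const_mul, KK_four h, mul_right_comm, ← ofReal_mul]
  congr 2
  rcases eq_or_ne n 0 with rfl | h0
  · simp
  · have h1 : (0 : ℝ) < n := by exact_mod_cast Nat.pos_of_ne_zero h0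
    have h2 : Real.exp (3 / 2 * Real.log n) * √n = (n : ℝ) ^ 2 := by
      rw [Real.sqrt_eq_rpow, Real.rpow_def_of_pos h1, ← Real.exp_add, ← Real.rpow_two,
        Real.rpow_def_of_pos h1]
      congr 1
      ring
    have h3 := Real.sqrt_pos.2 h1
    have h4 := Real.exp_pos (3 / 2 * Real.log n)
    rw [← h2]
    field_simp

theorem ser_two {n : ℕ} (hn : 1 ≤ n) : 0 ≤ vonMangoldt n / √n ∧ vonMangoldt n / √n ≤ 2 := by
  have h1 : (0 : ℝ) < n := by exact_mod_cast hn
  have h3 := Real.sqrt_pos.2 h1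
  refine ⟨div_nonneg ArithmeticFunction.vonMangoldt_nonneg h3.le, (div_le_iff₀ h3).2
    (ArithmeticFunction.vonMangoldt_le_log.trans ?_)⟩
  have h4 := Real.log_le_sub_one_of_pos h3
  rw [Real.log_sqrt h1.le] at h4
  linarith

theorem ser (h : 1 ≤ κ) {Y : ℕ} (hY : Real.exp (50 * κ) ≤ Y) (y : ℝ) :
    ‖(∫ u : ℝ, LV (2 + (y + u : ℝ) * I) * KK κ ((3 / 2 : ℝ) + u * I)) - PS κ Y y‖ ≤
      16 * Real.exp (-κ) := by
  set a : ℕ → ℂ := fun n => ((vonMangoldt n / √n * gg κ (Real.log n) : ℝ) : ℂ) * ee n y with ha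
  have h1 : HasSum (fun n => if n ∈ Icc 1 Y then a n else 0) (PS κ Y y) := by
    rw [PS, ← sum_congr rfl fun n hn => if_pos (e := (0 : ℂ)) hn]
    exact hasSum_sum_of_ne_finset_zero fun n hn => if_neg hn
  have h2 : ∀ n : ℕ, ‖a n - if n ∈ Icc 1 Y then a n else 0‖ ≤
      8 * Real.exp (-κ) * (1 / (n : ℝ) ^ 2) := fun n => by
    split_ifs with hn
    · simp only [sub_self, norm_zero]
      positivity
    rcases eq_or_ne n 0 with rfl | h0
    · simp [ha]
    have h3 : (Y : ℝ) ≤ n := by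
      rw [mem_Icc] at hn
      exact_mod_cast (by omega : Y ≤ n)
    have h4 : 1 ≤ n := Nat.pos_of_ne_zero h0
    have h5 : (0 : ℝ) < n := by exact_mod_cast h4
    have h6 : Real.exp (48 * κ) ≤ Real.exp (-κ) * n := by
      refine le_trans ?_ (mul_le_mul_of_nonneg_left (hY.trans h3) (Real.exp_pos _).le)
      rw [← Real.exp_add, Real.exp_le_exp]
      linarith
    rw [sub_zero, ha, norm_mul, norm_ee, mul_one, norm_real, Real.norm_eq_abs, abs_mul,
      abs_of_nonneg (ser_two h4).1]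
    calc _ ≤ 2 * (4 * Real.exp (48 * κ) / (n : ℝ) ^ 3) :=
          mul_le_mul (ser_two h4).2 (gg_dec h h4) (abs_nonneg _) (by norm_num)
      _ ≤ 2 * (4 * (Real.exp (-κ) * n) / (n : ℝ) ^ 3) := by gcongr
      _ = _ := by field_simp; ring
  have h7 := ((ser_has h y).sub h1).norm_le_of_bounded (hasSum_zeta_two.mul_left _) h2
  have h8 := kb_pi
  have h9 := Real.exp_pos (-κ)
  nlinarith

end Pool.Agent.Lib.MP_31bf45_nt.Cl
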