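import Pool.Agent.Lib.MP_31bf45_nt.Cl.Chi
import Pool.Agent.Lib.MP_31bf45_nt.Cl.Fac
import Pool.Agent.Lib.MP_31bf45_nt.Cl.Ser
import Pool.Agent.Lib.MP_31bf45_nt.Cl.Resid
import Pool.Agent.Lib.MP_31bf45_nt.Om.KerA

/-! The local explicit formula. -/

set_option autoImplicit false

namespace Pool.Agent.Lib.MP_31bf45_nt.Cl

open Complex Finset MeasureTheory Metric Om Pool.Agent.Lib.MP_b09185_nt.Sh
open scoped ComplexConjugate

theorem ef_ck (κ c : ℝ) : Continuous fun u : ℝ => KK κ (c + u * I) :=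
  (KK_diff κ).continuous.comp (by fun_prop)

theorem ef_tail : ∃ C : ℝ, 0 ≤ C ∧ ∀ (κ A c : ℝ) (F : ℝ → ℂ), 1 ≤ κ → |c| = 3 / 2 → Continuous F →
    (∀ u, ‖F u‖ ≤ A) → ‖(∫ u : ℝ, F u * KK κ (c + u * I)) -
      ∫ u in (-2 : ℝ)..2, F u * KK κ (c + u * I)‖ ≤ C * A * Real.exp (-κ) := by
  obtain ⟨C, C0, hC⟩ := tail
  refine ⟨4 * C, by positivity, fun κ A c F h1 hc hF hA => ?_⟩
  have A0 : 0 ≤ A := (norm_nonneg _).trans (hA 0)
  have e : √(10 * κ) ^ 2 = 10 * κ := Real.sq_sqrt (by linarith)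
  have c2 : c ^ 2 = (3 / 2) ^ 2 := by rw [← hc, sq_abs]
  refine (hC √(10 * κ) (A * (4 * Real.exp (κ * (3 / 2)))) _ (Real.one_le_sqrt.2 (by linarith))
    (hF.mul (ef_ck κ c)).aestronglyMeasurable fun u => ?_).2.trans (le_of_eq ?_)
  · have h := KK_le (by linarith : 0 ≤ κ) c u
    rw [hc, c2] at h
    rw [Pi.mul_apply, norm_mul, e, show 10 * κ * ((3 / 2) ^ 2 - u ^ 2) / 2 =
      5 * κ * ((3 / 2) ^ 2 - u ^ 2) by ring]
    refine (mul_le_mul (hA u) h (norm_nonneg _) A0).trans ?_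
    rw [← mul_assoc, mul_right_comm _ (1 + |u|)]
    exact le_mul_of_one_le_right (by positivity) (by linarith [abs_nonneg u])
  · rw [e, show -κ = κ * (3 / 2) + -(10 * κ) / 4 by ring, Real.exp_add]
    ring

theorem ef_rect {κ A c d : ℝ} (h1 : 1 ≤ κ) (hc : -(3 / 2) ≤ c) (hcd : c ≤ d) (hd : d ≤ 3 / 2)
    {Φ : ℂ → ℂ} (hΦ : DifferentiableOn ℂ Φ (Set.Icc c d ×ℂ Set.Icc (-2) 2))
    (hA : ∀ w ∈ Set.Icc c d ×ℂ Set.Icc (-2 : ℝ) 2, ‖Φ w‖ ≤ A) :
    ‖(∫ u in (-2 : ℝ)..2, Φ (c + u * I) * KK κ (c + u * I)) -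
      ∫ u in (-2 : ℝ)..2, Φ (d + u * I) * KK κ (d + u * I)‖ ≤ 24 * A * Real.exp (-κ) := by
  have A0 : 0 ≤ A := (norm_nonneg _).trans (hA c (by simp [mem_reProdIm, hcd]))
  have side : ∀ y : ℝ, y = 2 ∨ y = -2 →
      ‖∫ x in c..d, Φ (x + y * I) * KK κ (x + y * I)‖ ≤ 12 * A * Real.exp (-κ) := fun y hy => by
    refine (intervalIntegral.norm_integral_le_of_norm_le_const (C := A * (4 * Real.exp (-κ)))
      fun x hx => ?_).trans ?_
    · rw [Set.uIoc_of_le hcd] at hx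
      have h2 : ‖Φ (x + y * I)‖ ≤ A := hA _ (by
        rw [mem_reProdIm]
        rcases hy with e | e <;> simp [e, hx.1.le, hx.2] <;> norm_num)
      rw [norm_mul]
      refine mul_le_mul h2 ((KK_le (by linarith) x y).trans ?_) (norm_nonneg _) A0
      have h3 : y ^ 2 = 4 := by rcases hy with e | e <;> rw [e] <;> norm_num
      have h4 : |x| ≤ 3 / 2 := abs_le.2 ⟨by linarith [hx.1], by linarith [hx.2]⟩
      have h5 : x ^ 2 ≤ 9 / 4 := by nlinarith [sq_abs x, abs_nonneg x]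
      rw [mul_assoc, ← Real.exp_add, h3]
      gcongr
      nlinarith
    · rw [abs_of_nonneg (sub_nonneg.2 hcd)]
      have : 0 ≤ A * Real.exp (-κ) := by positivity
      nlinarith
  have h := integral_boundary_rect_eq_zero_of_differentiableOn (fun w => Φ w * KK κ w)
    ⟨c, -2⟩ ⟨d, 2⟩ (by
      rw [Set.uIcc_of_le hcd, Set.uIcc_of_le (by norm_num)]
      exact hΦ.mul (KK_diff κ).differentiableOn)
  have h2 := side 2 (Or.inl rfl)
  have h3 := side (-2) (Or.inr rfl)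
  simp only [smul_eq_mul] at h
  set a := ∫ u in (-2 : ℝ)..2, Φ (c + u * I) * KK κ (c + u * I)
  set b := ∫ u in (-2 : ℝ)..2, Φ (d + u * I) * KK κ (d + u * I)
  set p := ∫ x in c..d, Φ (x + (2 : ℝ) * I) * KK κ (x + (2 : ℝ) * I)
  set q := ∫ x in c..d, Φ (x + (-2 : ℝ) * I) * KK κ (x + (-2 : ℝ) * I)
  have e : I * (a - b) = q - p := by linear_combination -h
  have h4 : ‖a - b‖ = ‖q - p‖ := by rw [← e, norm_mul, norm_I, one_mul]
  rw [h4]
  linarith [norm_sub_le q p]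

theorem ef_one {a : ℂ} (ha : |a.re| ≤ 1 / 2) {c : ℝ} (hc : |c| = 3 / 2) (u : ℝ) :
    1 ≤ ‖c + u * I - a‖ := by
  refine le_trans ?_ (abs_re_le_norm _)
  have := abs_sub_abs_le_abs_sub c a.re
  simp only [sub_re, add_re, ofReal_re, mul_re, I_re, mul_zero, ofReal_im, I_im, mul_one, sub_self,
    add_zero]
  linarith

theorem ef_inv {a : ℂ} (ha : |a.re| ≤ 1 / 2) {c : ℝ} (hc : |c| = 3 / 2) :
    Continuous fun u : ℝ => (c + u * I - a)⁻¹ :=
  Continuous.inv₀ (by fun_prop) fun u => norm_pos_iff.1 (zero_lt_one.trans_le (ef_one ha hc u))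

/-- the abstract form -/
theorem ef_main : ∃ C : ℝ, 0 ≤ C ∧ ∀ (κ A B K l : ℝ) (n : ℕ) (a : Fin n → ℂ) (H X : ℂ → ℂ)
    (L L' : ℝ → ℂ), 1 ≤ κ → 0 ≤ l → (∀ i, |(a i).re| ≤ 1 / 2) →
    DifferentiableOn ℂ H (Set.Icc (-(3 / 2)) (3 / 2) ×ℂ Set.Icc (-2) 2) →
    (∀ w ∈ Set.Icc (-(3 / 2) : ℝ) (3 / 2) ×ℂ Set.Icc (-2 : ℝ) 2, ‖H w‖ ≤ A) →
    DifferentiableOn ℂ X (Set.Icc (-(3 / 2)) 0 ×ℂ Set.Icc (-2) 2) →
    (∀ w ∈ Set.Icc (-(3 / 2) : ℝ) 0 ×ℂ Set.Icc (-2 : ℝ) 2, ‖X w‖ ≤ B) →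
    Continuous L → Continuous L' → (∀ u, ‖L u‖ ≤ K) → (∀ u, ‖L' u‖ ≤ K) →
    (∀ u : ℝ, |u| ≤ 2 → L u = -(∑ i, ((3 / 2 : ℝ) + u * I - a i)⁻¹ + H ((3 / 2 : ℝ) + u * I))) →
    (∀ u : ℝ, |u| ≤ 2 → L' u = ∑ i, ((-(3 / 2) : ℝ) + u * I - a i)⁻¹ +
      H ((-(3 / 2) : ℝ) + u * I) - X ((-(3 / 2) : ℝ) + u * I) + l) →
    ‖2 * Real.pi * ∑ i, KK κ (a i) - (l * gg κ 0 : ℝ) +
      (∫ u : ℝ, L u * KK κ ((3 / 2 : ℝ) + u * I)) +
      ∫ u : ℝ, L' u * KK κ ((-(3 / 2) : ℝ) + u * I)‖ ≤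
      B * gg κ 0 + (C * (2 * n + 2 * K + l) + 24 * (A + B)) * Real.exp (-κ) := by
  obtain ⟨C, C0, hC⟩ := ef_tail
  refine ⟨C, C0, fun κ A B K l n a H X L L' h1 l0 ha dH bH dX bX cL cL' bL bL' e1 e2 => ?_⟩
  have h0 : 0 < κ := by linarith
  have p1 : |(3 / 2 : ℝ)| = 3 / 2 := abs_of_pos (by norm_num)
  have p2 : |(-(3 / 2) : ℝ)| = 3 / 2 := by rw [abs_neg, p1]
  have B0 : 0 ≤ B := (norm_nonneg _).trans (bX 0 (by simp [mem_reProdIm]; norm_num))
  have ci : ∀ {Φ : ℂ → ℂ} {c d x : ℝ}, DifferentiableOn ℂ Φ (Set.Icc c d ×ℂ Set.Icc (-2) 2) →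
      c ≤ x → x ≤ d → IntervalIntegrable (fun u : ℝ => Φ (x + u * I) * KK κ (x + u * I))
        volume (-2) 2 := fun {Φ c d x} h hc hd =>
    ((h.continuousOn.comp (f := fun u : ℝ => (x + u * I : ℂ)) (by fun_prop) fun u hu => by
      rw [Set.uIcc_of_le (by norm_num)] at hu
      simpa [mem_reProdIm] using ⟨⟨hc, hd⟩, hu⟩).mul (ef_ck κ x).continuousOn).intervalIntegrable
  have ii : ∀ {c : ℝ}, |c| = 3 / 2 → ∀ i, IntervalIntegrable
      (fun u : ℝ => (c + u * I - a i)⁻¹ * KK κ (c + u * I)) volume (-2) 2 := fun hc i =>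
    ((ef_inv (ha i) hc).mul (ef_ck κ _)).intervalIntegrable _ _
  have is : ∀ {c : ℝ}, |c| = 3 / 2 → IntervalIntegrable
      (fun u : ℝ => ∑ i, (c + u * I - a i)⁻¹ * KK κ (c + u * I)) volume (-2) 2 := fun hc =>
    (continuous_finsetSum _ fun i _ => (ef_inv (ha i) hc).mul (ef_ck κ _)).intervalIntegrable _ _
  have ts : ∀ {c : ℝ}, |c| = 3 / 2 → ‖(∑ i, ∫ u : ℝ, (c + u * I - a i)⁻¹ * KK κ (c + u * I)) -
      ∑ i, ∫ u in (-2 : ℝ)..2, (c + u * I - a i)⁻¹ * KK κ (c + u * I)‖ ≤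
      n * (C * 1 * Real.exp (-κ)) := fun hc => by
    rw [← sum_sub_distrib]
    exact (norm_sum_le _ _).trans ((sum_le_card_nsmul _ _ _ fun i _ => hC κ 1 _ _ h1 hc
      (ef_inv (ha i) hc) fun u => by
        rw [norm_inv]; exact inv_le_one_of_one_le₀ (ef_one (ha i) hc u)).trans_eq
      (by rw [card_univ, Fintype.card_fin, nsmul_eq_mul]))
  have iH1 := ci dH (x := 3 / 2) (by norm_num) le_rfl
  have iH2 := ci dH (x := -(3 / 2)) le_rfl (by norm_num)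
  have iX := ci dX (x := -(3 / 2)) le_rfl (by norm_num)
  have ik : IntervalIntegrable (fun u : ℝ => (l : ℂ) * KK κ ((-(3 / 2) : ℝ) + u * I)) volume
      (-2) 2 := (continuous_const.mul (ef_ck κ _)).intervalIntegrable _ _
  have s1 : ∫ u in (-2 : ℝ)..2, L u * KK κ ((3 / 2 : ℝ) + u * I) =
      -((∑ i, ∫ u in (-2 : ℝ)..2, ((3 / 2 : ℝ) + u * I - a i)⁻¹ * KK κ ((3 / 2 : ℝ) + u * I)) +
        ∫ u in (-2 : ℝ)..2, H ((3 / 2 : ℝ) + u * I) * KK κ ((3 / 2 : ℝ) + u * I)) := by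
    rw [← intervalIntegral.integral_finsetSum fun i _ => ii p1 i,
      ← intervalIntegral.integral_add (is p1) iH1, ← intervalIntegral.integral_neg]
    refine intervalIntegral.integral_congr fun u hu => ?_
    rw [Set.uIcc_of_le (by norm_num)] at hu
    simp only [← sum_mul, ← add_mul, e1 u (abs_le.2 hu), neg_mul]
  have s2 : ∫ u in (-2 : ℝ)..2, L' u * KK κ ((-(3 / 2) : ℝ) + u * I) =
      (∑ i, ∫ u in (-2 : ℝ)..2, ((-(3 / 2) : ℝ) + u * I - a i)⁻¹ *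
        KK κ ((-(3 / 2) : ℝ) + u * I)) +
      (∫ u in (-2 : ℝ)..2, H ((-(3 / 2) : ℝ) + u * I) * KK κ ((-(3 / 2) : ℝ) + u * I)) -
      (∫ u in (-2 : ℝ)..2, X ((-(3 / 2) : ℝ) + u * I) * KK κ ((-(3 / 2) : ℝ) + u * I)) +
      ∫ u in (-2 : ℝ)..2, (l : ℂ) * KK κ ((-(3 / 2) : ℝ) + u * I) := by
    rw [← intervalIntegral.integral_finsetSum fun i _ => ii p2 i,
      ← intervalIntegral.integral_add (is p2) iH2,
      ← intervalIntegral.integral_sub ((is p2).add iH2) iX,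
      ← intervalIntegral.integral_add (((is p2).add iH2).sub iX) ik]
    refine intervalIntegral.integral_congr fun u hu => ?_
    rw [Set.uIcc_of_le (by norm_num)] at hu
    simp only [← sum_mul, ← add_mul, ← sub_mul, e2 u (abs_le.2 hu)]
  have s3 : ∫ u : ℝ, (l : ℂ) * KK κ ((-(3 / 2) : ℝ) + u * I) = (l * gg κ 0 : ℝ) := by
    have := KK_four h1 (-(3 / 2)) 1
    simp only [ee, Nat.cast_one, Real.log_one, mul_zero, neg_zero, ofReal_zero, zero_mul, exp_zero,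
      one_mul, Real.exp_zero] at this
    rw [integral_const_mul, this, ofReal_mul]
  have s4 : 2 * Real.pi * ∑ i, KK κ (a i) =
      (∑ i, ∫ u : ℝ, ((3 / 2 : ℝ) + u * I - a i)⁻¹ * KK κ ((3 / 2 : ℝ) + u * I)) -
      ∑ i, ∫ u : ℝ, ((-(3 / 2) : ℝ) + u * I - a i)⁻¹ * KK κ ((-(3 / 2) : ℝ) + u * I) := by
    rw [mul_sum, ← sum_sub_distrib]
    exact sum_congr rfl fun i _ => (resid h1 (ha i)).symm
  have x0 : ‖∫ u in (-2 : ℝ)..2, X ((0 : ℝ) + u * I) * KK κ ((0 : ℝ) + u * I)‖ ≤ B * gg κ 0 := by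
    rw [intervalIntegral.integral_of_le (by norm_num), gg_zero, ← integral_const_mul]
    have hj := (kr_int h0).const_mul B
    refine (norm_integral_le_of_norm_le hj.integrableOn ?_).trans (setIntegral_le_integral hj
      (Filter.Eventually.of_forall fun u => mul_nonneg B0 (kr_nonneg κ u)))
    refine (ae_restrict_iff' measurableSet_Ioc).2 (Filter.Eventually.of_forall fun u hu => ?_)
    rw [ofReal_zero, zero_add, KK_zero h0.le, norm_mul, norm_real,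
      Real.norm_of_nonneg (kr_nonneg κ u)]
    exact mul_le_mul_of_nonneg_right (bX _ (by
      simpa [mem_reProdIm] using ⟨by norm_num, hu.1.le, hu.2⟩)) (kr_nonneg κ u)
  have t1 := ts p1
  have t2 := ts p2
  have t3 := hC κ K _ _ h1 p1 cL bL
  have t4 := hC κ K _ _ h1 p2 cL' bL'
  have t5 := hC κ l _ (fun _ => (l : ℂ)) h1 p2 continuous_const fun _ => by
    rw [norm_real, Real.norm_of_nonneg l0]
  have t6 := ef_rect h1 le_rfl (by norm_num) le_rfl dH bH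
  have t7 := ef_rect h1 le_rfl (by norm_num) (by norm_num) dX bX
  rw [s1] at t3
  rw [s2] at t4
  rw [s3] at t5
  rw [s4]
  have key : ∀ P M p m h g x z k G U V : ℂ, P - M - G + U + V = (P - p) - (M - m) +
      (U - -(p + h)) + (V - (m + g - x + k)) - (G - k) + (g - h) - (x - z) - z := by
    intros; ring
  rw [key]
  refine ((norm_sub_le _ _).trans (add_le_add ((norm_sub_le _ _).trans (add_le_add
    ((norm_add_le _ _).trans (add_le_add ((norm_sub_le _ _).trans (add_le_add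
    ((norm_add_le _ _).trans (add_le_add ((norm_add_le _ _).trans (add_le_add
    ((norm_sub_le _ _).trans (add_le_add t1 t2)) t3)) t4)) t5)) t6)) t7)) x0)).trans (le_of_eq ?_)
  ring

theorem ef_mem {t y : ℝ} (hy : |y - t| ≤ 1 / 2) {w : ℂ}
    (hw : w ∈ Set.Icc (-(3 / 2) : ℝ) (3 / 2) ×ℂ Set.Icc (-2 : ℝ) 2) :
    (1 / 2 : ℝ) + y * I + w ∈ closedBall (2 + t * I : ℂ) (9 / 2) := by
  obtain ⟨⟨a1, a2⟩, a3, a4⟩ := mem_reProdIm.1 hw
  obtain ⟨a5, a6⟩ := abs_le.1 hy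
  rw [mem_closedBall, dist_eq_norm, ← abs_norm, ← sq_le_sq₀ (abs_nonneg _) (by norm_num), sq_abs,
    ← normSq_eq_norm_sq, normSq_apply]
  simp only [sub_re, add_re, ofReal_re, mul_re, I_re, mul_zero, ofReal_im, I_im, mul_one, sub_self,
    add_zero, re_ofNat, sub_im, add_im, mul_im, zero_add, im_ofNat]
  nlinarith

/-- the functional equation for the logarithmic derivative -/
theorem ef_refl {s : ℂ} (hs : s.re < 0) (h : chi s ≠ 0) : riemannZeta s ≠ 0 ∧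
    deriv riemannZeta s / riemannZeta s = deriv chi s / chi s + LV (1 - s) := by
  have r : 1 < (1 - s).re := by rw [sub_re, one_re]; linarith
  have z := riemannZeta_ne_zero_of_one_le_re r.le
  have e : riemannZeta =ᶠ[nhds s] fun z => chi z * riemannZeta (1 - z) := by
    filter_upwards [(isOpen_lt continuous_re continuous_const).mem_nhds hs] with z hz
    have hz' : z.re < 0 := hz
    exact zeta_refl (by linarith) fun c => by simp [c] at hz'
  have d1 := (chi_diffAt (s := s) (by linarith)).hasDerivAt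
  have d2 := (differentiableAt_riemannZeta (s := 1 - s) fun c => by
    rw [c] at r; simp at r).hasDerivAt.comp s ((hasDerivAt_id s).const_sub 1)
  have d3 := ((d1.fun_mul d2).congr_of_eventuallyEq e).deriv
  have l := LV_eq r
  rw [d3, e.eq_of_nhds]
  refine ⟨mul_ne_zero h z, ?_⟩
  rw [← neg_neg (LV _), ← l]
  simp only [Function.comp_apply]
  field_simp

theorem ef : ∃ C : ℝ, 0 ≤ C ∧ ∀ t : ℝ, 20 ≤ t → ∃ (n : ℕ) (ρ : Fin n → ℂ),
    n ≤ C * Real.log t ∧ (∀ i, riemannZeta (ρ i) = 0 ∧ |(ρ i).im - t| ≤ 5) ∧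
    (∀ y h : ℝ, t - 3 ≤ y → y + h ≤ t + 3 → IsZ y h #{i | y < (ρ i).im ∧ (ρ i).im < y + h}) ∧
    ∀ (κ y : ℝ) (Y : ℕ), 1 ≤ κ → Real.exp (50 * κ) ≤ Y → |y - t| ≤ 1 / 2 →
      ‖2 * Real.pi * ∑ i, KK κ (ρ i - ((1 / 2 : ℝ) + y * I)) - (Real.log t * gg κ 0 : ℝ) +
        PS κ Y y + PS κ Y (-y)‖ ≤ C / κ + C * Real.log t * Real.exp (-κ) := by
  obtain ⟨C, C0, hC⟩ := ef_main
  obtain ⟨A, A0, hA⟩ := fac
  obtain ⟨B, B0, hB⟩ := chi_ld
  obtain ⟨K, K0, hK⟩ := LV_bd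
  obtain ⟨D, hD⟩ : ∃ D, D = C * (2 * A + 2 * K + 1) + 24 * (A + B) + 32 := ⟨_, rfl⟩
  have D0 : 0 ≤ D := by rw [hD]; positivity
  refine ⟨A + 16 * B + D, by positivity, fun t ht => ?_⟩
  obtain ⟨n, ρ, H, hn, hρ, dH, bH, eH, hZ⟩ := hA t ht
  have l1 : 1 ≤ Real.log t := by
    rw [Real.le_log_iff_exp_le (by linarith)]
    linarith [Real.exp_one_lt_d9]
  have im : ∀ i, |(ρ i).im - t| ≤ 5 := fun i => by
    have := (hρ i).2
    rw [mem_ball, dist_eq_norm] at this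
    simpa using (abs_im_le_norm _).trans this.le
  refine ⟨n, ρ, hn.trans (by gcongr; linarith), fun i => ⟨(hρ i).1, im i⟩, hZ,
    fun κ y Y h1 hY hy => ?_⟩
  have h0 : 0 < κ := by linarith
  have sb : closedBall (2 + t * I : ℂ) (9 / 2) ⊆ ball (2 + t * I) 5 :=
    closedBall_subset_ball (by norm_num)
  have hX : ∀ w ∈ Set.Icc (-(3 / 2) : ℝ) 0 ×ℂ Set.Icc (-2 : ℝ) 2,
      ((1 / 2 : ℝ) + y * I + w : ℂ).re < 1 ∧ chi ((1 / 2 : ℝ) + y * I + w) ≠ 0 ∧
      ‖deriv chi ((1 / 2 : ℝ) + y * I + w) / chi ((1 / 2 : ℝ) + y * I + w) + Real.log t‖ ≤ B := by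
    intro w hw
    obtain ⟨⟨a1, a2⟩, a3, a4⟩ := mem_reProdIm.1 hw
    obtain ⟨a5, a6⟩ := abs_le.1 hy
    have r : ((1 / 2 : ℝ) + y * I + w : ℂ).re = 1 / 2 + w.re := by simp
    have i : ((1 / 2 : ℝ) + y * I + w : ℂ).im = y + w.im := by simp
    exact ⟨by linarith, hB t ht _ (by linarith) (by linarith)
      (abs_le.2 ⟨by linarith, by linarith⟩)⟩
  have o : IsOpen {s : ℂ | s.re < 1} := isOpen_lt continuous_re continuous_const
  have mv : Set.MapsTo (fun w => ((1 / 2 : ℝ) + y * I + w : ℂ))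
      (Set.Icc (-(3 / 2) : ℝ) 0 ×ℂ Set.Icc (-2 : ℝ) 2) {s : ℂ | s.re < 1} := fun w hw => (hX w hw).1
  have k := hC κ (A * Real.log t) B K (Real.log t) n (fun i => ρ i - ((1 / 2 : ℝ) + y * I))
    (fun w => H ((1 / 2 : ℝ) + y * I + w))
    (fun w => deriv chi ((1 / 2 : ℝ) + y * I + w) / chi ((1 / 2 : ℝ) + y * I + w) + Real.log t)
    (fun u => LV (2 + (y + u : ℝ) * I)) (fun u => LV (2 + (-y + -u : ℝ) * I)) h1 (by linarith)
    (fun i => by
      have a1 := not_le.1 fun h => riemannZeta_ne_zero_of_one_le_re h (hρ i).1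
      have a2 := not_le.1 fun h => riemannZeta_ne_zero_of_one_le_re h (refl (hρ i).1 fun c => by
        have := abs_le.1 (im i)
        linarith [this.1])
      rw [sub_re, one_re, conj_re] at a2
      simp only [sub_re, add_re, ofReal_re, mul_re, I_re, mul_zero, ofReal_im, I_im, mul_one,
        sub_self, add_zero]
      exact abs_le.2 ⟨by linarith, by linarith⟩)
    (dH.comp (by fun_prop) fun w hw => sb (ef_mem hy hw)) (fun w hw => bH _ (ef_mem hy hw))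
    (((((chi_diff.deriv o).comp (by fun_prop) mv)).div (chi_diff.comp (by fun_prop) mv)
      fun w hw => (hX w hw).2.1).add_const _) (fun w hw => (hX w hw).2.2)
    (LV_cont.comp (by fun_prop)) (LV_cont.comp (by fun_prop)) (fun u => hK _) (fun u => hK _)
    (fun u hu => by
      have m := sb (ef_mem hy (w := (3 / 2 : ℝ) + u * I) (by
        simpa [mem_reProdIm] using ⟨by norm_num, abs_le.1 hu⟩))
      have e : ((1 / 2 : ℝ) + y * I + ((3 / 2 : ℝ) + u * I) : ℂ) = 2 + (y + u : ℝ) * I := by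
        push_cast; ring
      have r : 1 < (2 + (y + u : ℝ) * I : ℂ).re := by simp
      rw [e] at m ⊢
      rw [← neg_neg (LV _), ← LV_eq r, eH _ m (riemannZeta_ne_zero_of_one_le_re r.le), ← e]
      congr 2
      exact sum_congr rfl fun i _ => by congr 1; ring)
    (fun u hu => by
      have m := sb (ef_mem hy (w := (-(3 / 2) : ℝ) + u * I) (by
        simpa [mem_reProdIm] using ⟨by norm_num, abs_le.1 hu⟩))
      obtain ⟨z, e⟩ := ef_refl (s := (1 / 2 : ℝ) + y * I + ((-(3 / 2) : ℝ) + u * I))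
        (by simp; norm_num) (hX _ (by simpa [mem_reProdIm] using ⟨by norm_num, abs_le.1 hu⟩)).2.1
      rw [eH _ m z, show (1 - ((1 / 2 : ℝ) + y * I + ((-(3 / 2) : ℝ) + u * I)) : ℂ) =
        2 + (-y + -u : ℝ) * I by push_cast; ring] at e
      rw [sum_congr rfl fun i _ => show ((-(3 / 2) : ℝ) + u * I - (ρ i - ((1 / 2 : ℝ) + y * I)))⁻¹ =
        ((1 / 2 : ℝ) + y * I + ((-(3 / 2) : ℝ) + u * I) - ρ i : ℂ)⁻¹ by congr 1; ring, e]
      ring)
  have s1 := ser h1 hY y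
  have s2 := ser h1 hY (-y)
  have e : ∫ u : ℝ, LV (2 + (-y + -u : ℝ) * I) * KK κ ((-(3 / 2) : ℝ) + u * I) =
      ∫ u : ℝ, LV (2 + (-y + u : ℝ) * I) * KK κ ((3 / 2 : ℝ) + u * I) := by
    rw [← integral_neg_eq_self]
    refine integral_congr_ae (Filter.Eventually.of_forall fun u => ?_)
    simp only [neg_neg]
    rw [← KK_neg κ ((3 / 2 : ℝ) + u * I)]
    congr 2
    push_cast
    ring
  rw [e] at k
  have key : ∀ S U V P Q : ℂ, S + P + Q = (S + U + V) - (U - P) - (V - Q) := by intros; ring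
  rw [key]
  refine ((norm_sub_le _ _).trans (add_le_add ((norm_sub_le _ _).trans (add_le_add k s1))
    s2)).trans ?_
  have g1 : B * gg κ 0 ≤ (A + 16 * B + D) / κ := by
    refine (mul_le_mul_of_nonneg_left (gg_le h0) B0).trans ?_
    rw [← mul_div_assoc]
    gcongr
    nlinarith [Real.pi_le_four]
  have E0 := (Real.exp_pos (-κ)).le
  have g2 : C * (2 * n + 2 * K + Real.log t) + 24 * (A * Real.log t + B) + 32 ≤
      (A + 16 * B + D) * Real.log t := by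
    have a1 : C * (2 * n + 2 * K + Real.log t) ≤
        C * (2 * (A * Real.log t) + 2 * (K * Real.log t) + Real.log t) := by
      gcongr
      nlinarith
    rw [hD]
    nlinarith
  nlinarith [mul_le_mul_of_nonneg_right g2 E0]

end Pool.Agent.Lib.MP_31bf45_nt.Cl
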