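import Pool.Agent.Lib.MP_31bf45_nt.Cl.Ker
import Pool.Agent.Lib.MP_b09185_nt.ShKer

/-! The cosine transform of the kernel. -/

set_option autoImplicit false

namespace Pool.Agent.Lib.MP_31bf45_nt.Cl

open Complex Finset MeasureTheory Metric Om Pool.Agent.Lib.MP_b09185_nt.Sh
open scoped ComplexConjugate

variable {κ : ℝ}

theorem four_sinc (y : ℝ) : Real.sinc y ^ 2 * y ^ 2 ≤ 1 := by
  rcases eq_or_ne y 0 with rfl | h
  · simp
  · rw [Real.sinc_of_ne_zero h, ← mul_pow, div_mul_cancel₀ _ h]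
    exact Real.sin_sq_le_one y

theorem four_low {y : ℝ} (h : |y| ≤ 1) : 3 / 4 ≤ Real.sinc y := by
  have key : ∀ y : ℝ, 0 < y → y ≤ 1 → 3 / 4 ≤ Real.sinc y := fun y h0 h1 => by
    rw [Real.sinc_of_ne_zero h0.ne', le_div_iff₀ h0]
    have := Real.sin_gt_sub_cube h0
    nlinarith [mul_nonneg h0.le (sub_nonneg.2 (pow_le_one₀ (n := 2) h0.le h1))]
  rcases lt_trichotomy y 0 with e | rfl | e
  · rw [← Real.sinc_neg]
    exact key _ (by linarith) (by linarith [(abs_le.1 h).1])
  · norm_num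
  · exact key y e (abs_le.1 h).2

theorem four_zero (h : 180 ≤ κ) : 2 / κ ≤ gg κ 0 := by
  have k0 : 0 < κ := by linarith
  have a0 : -(2 / κ) ≤ 2 / κ := by linarith [div_pos two_pos k0]
  rw [gg_zero]
  refine le_trans ?_ (setIntegral_le_integral (s := Set.Ioc (-(2 / κ)) (2 / κ)) (kr_int k0)
    (.of_forall (kr_nonneg κ)))
  rw [← intervalIntegral.integral_of_le a0]
  refine le_trans (le_of_eq ?_) (intervalIntegral.integral_mono_on (f := fun _ => (1 / 2 : ℝ)) a0
    (by simp) (kr_int k0).intervalIntegrable fun u hu => ?_)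
  · rw [intervalIntegral.integral_const, smul_eq_mul]
    ring
  · have h1 : |κ * u / 2| ≤ 1 := by
      rw [abs_div, abs_mul, abs_of_pos k0, abs_two, div_le_one two_pos, mul_comm, ← le_div_iff₀ k0]
      exact abs_le.2 hu
    have h2 := four_low h1
    have h3 : (κ * u / 2) ^ 2 ≤ 1 := (sq_le_one_iff_abs_le_one _).2 h1
    have h4 : 5 * κ * u ^ 2 ≤ 1 / 9 := by
      refine le_of_mul_le_mul_left ?_ k0
      nlinarith
    have h5 := Real.add_one_le_exp (-(5 * κ) * u ^ 2)
    calc (1 / 2 : ℝ) = (3 / 4) ^ 2 * (8 / 9) := by norm_num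
      _ ≤ kr κ u := mul_le_mul (pow_le_pow_left₀ (by norm_num) h2 2) (by linarith) (by norm_num)
        (sq_nonneg _)

theorem four_int (h : 0 < κ) {g : ℝ → ℝ} (hg : Continuous g) (h1 : ∀ u, |g u| ≤ 1) :
    Integrable fun u => kr κ u * g u :=
  (kr_int h).mul_bdd hg.aestronglyMeasurable (.of_forall h1)

theorem gg_ge (h : 180 ≤ κ) {v : ℝ} (hv : |v| ≤ κ / 32) : 1 / κ ≤ gg κ v := by
  have k0 : 0 < κ := by linarith
  have i1 := four_int k0 (g := fun u => Real.cos (u * v)) (by fun_prop)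
    fun u => Real.abs_cos_le_one _
  have i2 : Integrable fun u : ℝ => 1 / 256 * (1 + (κ / 64 * u) ^ 2)⁻¹ :=
    (integrable_inv_one_add_sq.comp_mul_left' (by positivity)).const_mul _
  have e2 : ∫ u : ℝ, 1 / 256 * (1 + (κ / 64 * u) ^ 2)⁻¹ = Real.pi / 4 / κ := by
    rw [integral_const_mul, Measure.integral_comp_mul_left (fun x : ℝ => (1 + x ^ 2)⁻¹),
      integral_univ_inv_one_add_sq, abs_of_pos (by positivity), smul_eq_mul]
    field_simp
    norm_num
  have h1 : gg κ 0 - gg κ v ≤ Real.pi / 4 / κ := by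
    rw [gg_zero, gg, ← integral_sub (kr_int k0) i1, ← e2]
    refine integral_mono ((kr_int k0).sub i1) i2 fun u => ?_
    have a1 := four_sinc (κ * u / 2)
    have a2 : kr κ u ≤ Real.sinc (κ * u / 2) ^ 2 := mul_le_of_le_one_right (sq_nonneg _)
      (Real.exp_le_one_iff.2 (by nlinarith [sq_nonneg u]))
    have a3 := Real.one_sub_sq_div_two_le_cos (x := u * v)
    have a4 := Real.neg_one_le_cos (u * v)
    have a5 : v ^ 2 ≤ (κ / 32) ^ 2 := sq_le_sq' (abs_le.1 hv).1 (abs_le.1 hv).2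
    have a6 := kr_nonneg κ u
    have a7 : kr κ u * (κ * u) ^ 2 ≤ 4 := by nlinarith [sq_nonneg (κ * u)]
    have a8 : 1 - Real.cos (u * v) ≤ (κ * u) ^ 2 / 2048 := by nlinarith [sq_nonneg u]
    have a9 := mul_le_mul_of_nonneg_left a8 a6
    have b1 := mul_le_mul_of_nonneg_left (show 1 - Real.cos (u * v) ≤ 2 by linarith)
      (mul_nonneg a6 (sq_nonneg (κ * u)))
    beta_reduce
    rw [← div_eq_mul_inv, le_div_iff₀ (by positivity)]
    nlinarith
  have h2 := four_zero h
  have h3 : Real.pi / 4 / κ ≤ 1 / κ := by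
    gcongr
    linarith [Real.pi_le_four]
  have h4 : 2 / κ = 1 / κ + 1 / κ := by ring
  linarith

theorem four_axis (h : 0 < κ) (n : ℕ) :
    ∫ u : ℝ, ee n u * KK κ (u * I) = gg κ (Real.log n) := by
  have i1 := four_int h (g := fun u => Real.cos (u * Real.log n)) (by fun_prop)
    fun u => Real.abs_cos_le_one _
  have i2 := four_int h (g := fun u => Real.sin (u * Real.log n)) (by fun_prop)
    fun u => Real.abs_sin_le_one _
  have e0 : ∫ u : ℝ, kr κ u * Real.sin (u * Real.log n) = 0 := by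
    have := integral_neg_eq_self (fun u : ℝ => kr κ u * Real.sin (u * Real.log n)) volume
    simp only [kr_neg, neg_mul, Real.sin_neg, mul_neg, integral_neg] at this
    linarith
  have e1 : ∀ u : ℝ, ee n u * KK κ (u * I) = (kr κ u * Real.cos (u * Real.log n) : ℝ) -
      (kr κ u * Real.sin (u * Real.log n) : ℝ) * I := fun u => by
    rw [KK_zero h.le, ee, exp_mul_I, ← ofReal_cos, ← ofReal_sin, Real.cos_neg, Real.sin_neg]
    push_cast
    ring
  simp only [e1]
  rw [integral_sub i1.ofReal (i2.ofReal.mul_const _), integral_mul_const,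
    integral_complex_ofReal, integral_complex_ofReal, e0, gg]
  simp

theorem KK_four (h : 1 ≤ κ) (c : ℝ) (n : ℕ) : ∫ u : ℝ, ee n u * KK κ (c + u * I) =
    (Real.exp (c * Real.log n) * gg κ (Real.log n) : ℝ) := by
  have k0 : 0 < κ := by linarith
  have e1 : ∀ x u : ℝ, exp (-(x + u * I) * Real.log n) * KK κ (x + u * I) =
      (Real.exp (-(x * Real.log n)) : ℝ) * (ee n u * KK κ (x + u * I)) := fun x u => by
    rw [← mul_assoc, ee, ofReal_exp, ← exp_add]
    congr 2
    push_cast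
    ring
  have key : ∀ a b : ℝ, a ≤ b → ∫ u : ℝ, exp (-(a + u * I) * Real.log n) * KK κ (a + u * I) =
      ∫ u : ℝ, exp (-(b + u * I) * Real.log n) * KK κ (b + u * I) := fun a b hab => by
    refine (shift_gauss (G := fun w => exp (-w * Real.log n) * KK κ w)
      (D := Real.exp ((|a| + |b|) * Real.log n) * (4 * Real.exp (κ * (|a| + |b|)) *
        Real.exp (5 * κ * (|a| + |b|) ^ 2))) hab
      ((by fun_prop : Differentiable ℂ fun w : ℂ => exp (-w * Real.log n)).mul
        (KK_diff κ)).differentiableOn fun x hx y => ?_).2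
    have a1 : |x| ≤ |a| + |b| := abs_le.2 ⟨by linarith [hx.1, neg_abs_le a, abs_nonneg b],
      by linarith [hx.2, le_abs_self b, abs_nonneg a]⟩
    have a2 := Real.log_natCast_nonneg n
    have a3 : x ^ 2 ≤ (|a| + |b|) ^ 2 := sq_le_sq' (abs_le.1 a1).1 (abs_le.1 a1).2
    rw [e1, norm_mul, norm_mul, norm_ee, one_mul, norm_real, Real.norm_of_nonneg (Real.exp_pos _).le,
      mul_assoc, mul_assoc, ← Real.exp_add]
    refine mul_le_mul (Real.exp_le_exp.2 (by nlinarith [(abs_le.1 a1).1])) ((KK_le k0.le x y).trans ?_)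
      (norm_nonneg _) (Real.exp_pos _).le
    gcongr
    nlinarith [sq_nonneg y]
  have e2 : ∫ u : ℝ, exp (-(c + u * I) * Real.log n) * KK κ (c + u * I) =
      ∫ u : ℝ, exp (-((0 : ℝ) + u * I) * Real.log n) * KK κ ((0 : ℝ) + u * I) :=
    (le_total c 0).elim (key c 0) fun e => (key 0 c e).symm
  simp only [e1, integral_const_mul] at e2
  simp only [zero_mul, neg_zero, Real.exp_zero, ofReal_one, one_mul, ofReal_zero, zero_add,
    four_axis k0] at e2
  rw [ofReal_mul, ← e2, ← mul_assoc, ← ofReal_mul, ← Real.exp_add, add_neg_cancel]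
  simp

theorem gg_dec (h : 1 ≤ κ) {n : ℕ} (hn : 1 ≤ n) :
    |gg κ (Real.log n)| ≤ 4 * Real.exp (48 * κ) / (n : ℝ) ^ 3 := by
  have k0 : 0 < κ := by linarith
  have n0 : (0 : ℝ) < n := by exact_mod_cast hn
  have e1 : Real.exp (3 * Real.log n) = (n : ℝ) ^ 3 := by
    rw [← Real.exp_log (pow_pos n0 3), Real.log_pow]
    norm_num
  have h1 := norm_integral_le_of_norm_le (f := fun u : ℝ => ee n u * KK κ ((3 : ℝ) + u * I))
    ((integrable_exp_neg_mul_sq (by positivity : 0 < 5 * κ)).const_mul (4 * Real.exp (48 * κ)))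
    (.of_forall fun u => by
      rw [norm_mul, norm_ee, one_mul]
      refine (KK_le k0.le 3 u).trans (le_of_eq ?_)
      rw [mul_assoc 4, mul_assoc 4, ← Real.exp_add, ← Real.exp_add, abs_of_pos three_pos]
      congr 2
      ring)
  rw [KK_four h, integral_const_mul, integral_gaussian, e1, norm_real, Real.norm_eq_abs, abs_mul,
    abs_of_pos (pow_pos n0 3)] at h1
  rw [le_div_iff₀ (pow_pos n0 3), mul_comm]
  refine h1.trans (mul_le_of_le_one_right (by positivity) (Real.sqrt_le_one.2 ?_))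
  rw [div_le_one (by positivity)]
  linarith [Real.pi_le_four]

theorem cb_le (h : 0 < κ) (n : ℕ) : |cb κ n| ≤ 1 / √n := by
  have a1 : |ArithmeticFunction.vonMangoldt n / Real.log n| ≤ 1 := by
    rw [abs_of_nonneg (div_nonneg ArithmeticFunction.vonMangoldt_nonneg (Real.log_natCast_nonneg n))]
    exact div_le_one_of_le₀ ArithmeticFunction.vonMangoldt_le_log (Real.log_natCast_nonneg n)
  have a2 : |κ * gg κ (Real.log n) / (4 * Real.pi)| ≤ 1 := by
    have := (gg_abs h (Real.log n)).trans (gg_le h)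
    rw [le_div_iff₀ h] at this
    rw [abs_div, abs_mul, abs_of_pos h, abs_of_pos (by positivity : 0 < 4 * Real.pi),
      div_le_one (by positivity)]
    linarith
  rw [cb, abs_mul, abs_mul, abs_div _ √n, abs_of_nonneg (Real.sqrt_nonneg _)]
  refine (mul_le_of_le_one_right (by positivity) (Real.abs_sin_le_one _)).trans
    ((mul_le_of_le_one_right (by positivity) a2).trans ?_)
  gcongr

theorem cb_pow {n : ℕ} (h : cb κ n ≠ 0) : IsPrimePow n :=
  ArithmeticFunction.vonMangoldt_ne_zero_iff.1 fun e => h (by simp [cb, e])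

/-- `40 log p / κ ∈ [1/2, 5/4]`, `sin x ≥ 2 x / π` -/
theorem cb_prime (h : 180 ≤ κ) {p : ℕ} (hp : p.Prime) (h1 : κ / 80 ≤ Real.log p)
    (h2 : Real.log p ≤ κ / 32) : 1 / 64 / √p ≤ cb κ p := by
  have k0 : 0 < κ := by linarith
  have l0 : 0 < Real.log p := by linarith
  have p3 := Real.pi_gt_three
  have p4 := Real.pi_le_four
  have a1 : 1 / 16 ≤ κ * gg κ (Real.log p) / (4 * Real.pi) := by
    have := gg_ge h (v := Real.log p) (by rwa [abs_of_pos l0])
    rw [div_le_iff₀ k0] at this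
    rw [le_div_iff₀ (by positivity)]
    linarith
  have a2 : 1 / 2 ≤ 40 * Real.log p / κ := by rw [le_div_iff₀ k0]; linarith
  have a3 : 40 * Real.log p / κ ≤ 5 / 4 := by rw [div_le_iff₀ k0]; linarith
  have a4 : 1 / 4 ≤ Real.sin (40 * Real.log p / κ) := by
    refine le_trans ?_ (Real.mul_le_sin (by linarith) (by linarith))
    have : 1 / 2 ≤ 2 / Real.pi := by rw [le_div_iff₀ (by positivity)]; linarith
    nlinarith
  rw [cb, ArithmeticFunction.vonMangoldt_apply_prime hp, div_self l0.ne', mul_assoc]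
  calc 1 / 64 / √p = 1 / √p * (1 / 16 * (1 / 4)) := by ring
    _ ≤ _ := by gcongr

end Pool.Agent.Lib.MP_31bf45_nt.Cl
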