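import Pool.Agent.Lib.MP_31bf45_nt.Om.Res

/-! Clusters and gaps of zeros of zeta: the gain of the resonator, real part. -/

set_option autoImplicit false

namespace Pool.Agent.Lib.MP_31bf45_nt.Cl

open Complex Finset MeasureTheory Metric Om Pool.Agent.Lib.MP_b09185_nt.Sh
open scoped ComplexConjugate

theorem rs_mem {P : Finset ℕ} (hP : ∀ p ∈ P, p.Prime) {S T : Finset ℕ} (hT : T ⊆ P) {n : ℕ}
    (hn : IsPrimePow n) (h : mS S * n = mS T) : n ∈ P := by
  have h0 := res_pos hP hT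
  have sq : Squarefree (mS T) := by
    refine (Nat.squarefree_iff_factorization_le_one (by omega)).2 ?_
    intro q
    rw [mS, Nat.factorization_prod_apply (fun p hp => (hP p (hT hp)).ne_zero)]
    calc ∑ p ∈ T, p.factorization q = ∑ p ∈ T, if p = q then 1 else 0 :=
          sum_congr rfl fun p hp => by rw [(hP p (hT hp)).factorization, Finsupp.single_apply]
      _ ≤ 1 := by rw [sum_ite_eq']; split_ifs <;> omega
  have dv : n ∣ mS T := ⟨mS S, by rw [← h, mul_comm]⟩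
  have hp : n.Prime := Nat.squarefree_and_prime_pow_iff_prime.1 ⟨sq.squarefree_of_dvd dv, hn⟩
  refine hT ?_
  rw [← res_pf hP hT]
  exact Nat.mem_primeFactors.2 ⟨hp, dv, by omega⟩

theorem rs_diag {P : Finset ℕ} {k Y : ℕ} {a : ℝ} (hP : ∀ p ∈ P, p.Prime) (ha : 0 < a) {c : ℕ → ℝ}
    (c1 : ∀ n, c n ≠ 0 → IsPrimePow n) {w : ℝ} (c2 : ∀ p ∈ P, p ≤ Y ∧ w / √p ≤ c p) (hw : 0 ≤ w) :
    w / a * ∑ S ∈ SS P k, #S * fS a S ^ 2 ≤ ∑ i ∈ SS P k ×ˢ Icc 1 Y, ∑ T ∈ SS P k,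
      if mS i.1 * i.2 = mS T then fS a i.1 * c i.2 * fS a T else 0 := by
  rw [sum_comm, mul_sum]
  refine sum_le_sum fun T hT => ?_
  obtain ⟨hT1, hT2⟩ := res_mem.1 hT
  have inj : Set.InjOn (fun p => (T.erase p, p)) (T : Set ℕ) := fun p _ q _ h => (Prod.ext_iff.1 h).2
  have sub : T.image (fun p => (T.erase p, p)) ⊆ SS P k ×ˢ Icc 1 Y := by
    intro i hi
    obtain ⟨p, hp, rfl⟩ := mem_image.1 hi
    refine mem_product.2 ⟨res_mem.2 ⟨(erase_subset _ _).trans hT1, card_erase_le.trans hT2⟩,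
      mem_Icc.2 ⟨(hP p (hT1 hp)).pos, (c2 p (hT1 hp)).1⟩⟩
  refine le_trans ?_ (sum_le_sum_of_subset_of_nonneg sub fun i _ _ => ?_)
  · rw [sum_image inj]
    have e : w / a * ((#T : ℝ) * fS a T ^ 2) = ∑ _p ∈ T, w / a * fS a T ^ 2 := by
      rw [sum_const, nsmul_eq_mul]; ring
    rw [e]
    refine sum_le_sum fun p hp => ?_
    have e1 : mS (T.erase p) * p = mS T := prod_erase_mul T (fun p => p) hp
    have e2 : fS a (T.erase p) * (a / √p) = fS a T := prod_erase_mul T (fun p : ℕ => a / √p) hp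
    rw [if_pos e1]
    have h1 := fS_nonneg ha.le (T.erase p)
    have h2 := fS_nonneg ha.le T
    have e3 : w / a * fS a T ^ 2 = fS a (T.erase p) * (w / √p) * fS a T := by
      rw [sq]; nth_rewrite 1 [← e2]; field_simp
    rw [e3]
    have := (c2 p (hT1 hp)).2
    gcongr
  · have := fS_nonneg ha.le i.1
    have := fS_nonneg ha.le T
    split_ifs with e
    · by_cases hc : c i.2 = 0
      · simp [hc]
      · have h3 : 0 ≤ c i.2 :=
          le_trans (by positivity) (c2 _ (rs_mem hP hT1 (c1 _ hc) e)).2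
        positivity
    · exact le_rfl

theorem main {P : Finset ℕ} {k N Y : ℕ} {a H : ℝ} (hP : ∀ p ∈ P, p.Prime) (ha : 0 < a)
    (hN : ∀ S ∈ SS P k, mS S ≤ N) {c : ℕ → ℝ} (c0 : ∀ n, |c n| ≤ 1)
    (c1 : ∀ n, c n ≠ 0 → IsPrimePow n) {w : ℝ} (c2 : ∀ p ∈ P, p ≤ Y ∧ w / √p ≤ c p) (hw : 0 ≤ w)
    (hY : 1 ≤ Y) (hg : k * QQ P k a ≤ 2 * ∑ S ∈ SS P k, #S * fS a S ^ 2) {ε : ℝ}
    (hε : ε = 1 ∨ ε = -1) (h : N * Y * gs (H / (N * Y)) ≤ 1) (t₀ : ℝ) :
    √(2 * Real.pi) * QQ P k a * (w * k / (2 * a) - 1) ≤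
      ∫ x : ℝ, ‖RR P k a ε (t₀ + H * x)‖ ^ 2 *
        (ε * (∑ n ∈ Icc 1 Y, c n * ee n (t₀ + H * x)).re) * gs x := by
  classical
  set θ : ℂ := (ε : ℂ) with hθ
  have ε2 : ε * ε = 1 := by rcases hε with h | h <;> simp [h]
  have εa : |ε| = 1 := by rcases hε with h | h <;> simp [h]
  have nθ : ‖θ‖ = 1 := by simp [hθ, εa]
  have cθ : conj θ = ε := by simp [hθ]
  have tθ : θ * conj θ = 1 := by rw [mul_conj', nθ]; simp
  have hY' : (1 : ℝ) ≤ Y := by exact_mod_cast hY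
  have key := mv (A := SS P k ×ˢ Icc 1 Y) (B := SS P k) (Y := (N : ℝ) * Y) (H := H) t₀
    (fun i => θ ^ #i.1 * fS a i.1 * c i.2) (fun S => θ ^ #S * fS a S)
    (m := fun i => mS i.1 * i.2) (n := mS)
    (fun i hi => by
      obtain ⟨h1, h2⟩ := mem_product.1 hi
      have h3 := res_pos hP (res_mem.1 h1).1
      have h4 := hN _ h1
      obtain ⟨h5, h6⟩ := mem_Icc.1 h2
      exact ⟨Nat.mul_pos h3 h5, by exact_mod_cast Nat.mul_le_mul h4 h6⟩)
    (fun S hS => ⟨res_pos hP (res_mem.1 hS).1, by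
      have h4 : (mS S : ℝ) ≤ N := by exact_mod_cast hN _ hS
      nlinarith [(Nat.cast_nonneg N : (0 : ℝ) ≤ N)]⟩)
  have eA : ∀ t : ℝ, ∑ i ∈ SS P k ×ˢ Icc 1 Y, θ ^ #i.1 * fS a i.1 * c i.2 * ee (mS i.1 * i.2) t =
      RR P k a θ t * ∑ n ∈ Icc 1 Y, c n * ee n t := fun t => by
    rw [RR, sum_mul_sum, sum_product]
    refine sum_congr rfl fun S hS => sum_congr rfl fun n hn => ?_
    have h3 := res_pos hP (res_mem.1 hS).1
    have h5 := (mem_Icc.1 hn).1
    dsimp only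
    rw [ee_mul (by omega) (by omega)]; ring
  have eB : ∀ t : ℝ, ∑ S ∈ SS P k, θ ^ #S * fS a S * ee (mS S) t = RR P k a θ t := fun t => rfl
  simp only [eA, eB] at key
  set F : ℝ → ℂ := fun x => (RR P k a θ (t₀ + H * x) * ∑ n ∈ Icc 1 Y, c n * ee n (t₀ + H * x)) *
    conj (RR P k a θ (t₀ + H * x)) * gs x with hF
  have nR : ∀ t, ‖RR P k a θ t‖ ≤ ∑ S ∈ SS P k, fS a S := fun t =>
    (norm_sum_le _ _).trans (sum_le_sum fun S _ => by
      rw [norm_mul, norm_mul, norm_pow, nθ, norm_ee, norm_real, Real.norm_of_nonneg (fS_nonneg ha.le S)]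
      simp)
  have nD : ∀ t, ‖∑ n ∈ Icc 1 Y, (c n : ℂ) * ee n t‖ ≤ ∑ n ∈ Icc 1 Y, |c n| := fun t =>
    (norm_sum_le _ _).trans (sum_le_sum fun n _ => by
      rw [norm_mul, norm_ee, norm_real, Real.norm_eq_abs, mul_one])
  have f0 : 0 ≤ ∑ S ∈ SS P k, fS a S := sum_nonneg fun S _ => fS_nonneg ha.le S
  have cs0 : 0 ≤ ∑ n ∈ Icc 1 Y, |c n| := sum_nonneg fun n _ => abs_nonneg _
  have iF : Integrable F := by
    have ig : Integrable gs := integrable_exp_neg_mul_sq (b := 1 / 2) (by norm_num)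
    refine (ig.const_mul ((∑ S ∈ SS P k, fS a S) * (∑ n ∈ Icc 1 Y, |c n|) *
      ∑ S ∈ SS P k, fS a S)).mono' ?_ (Filter.Eventually.of_forall fun x => ?_)
    · refine Continuous.aestronglyMeasurable ?_
      have cR : Continuous fun x : ℝ => RR P k a θ (t₀ + H * x) := by unfold RR; fun_prop
      rw [hF]
      exact ((cR.mul (by fun_prop)).mul (continuous_conj.comp cR)).mul (by fun_prop)
    · simp only [hF]
      rw [norm_mul, norm_mul, norm_mul, norm_conj, norm_real, Real.norm_of_nonneg (gs_pos x).le]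
      have := gs_pos x
      have := nR (t₀ + H * x)
      have := nD (t₀ + H * x)
      gcongr
  have eI : (∫ x : ℝ, ‖RR P k a θ (t₀ + H * x)‖ ^ 2 *
      (ε * (∑ n ∈ Icc 1 Y, c n * ee n (t₀ + H * x)).re) * gs x) = ε * (∫ x, F x).re := by
    have h1 : (∫ x, F x).re = ∫ x, (F x).re := (integral_re iF).symm
    rw [h1, ← integral_const_mul]
    refine integral_congr_ae (Filter.Eventually.of_forall fun x => ?_)
    have : F x = ((‖RR P k a θ (t₀ + H * x)‖ ^ 2 * gs x : ℝ) : ℂ) *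
        ∑ n ∈ Icc 1 Y, c n * ee n (t₀ + H * x) := by
      simp only [hF]
      push_cast
      rw [← mul_conj']; ring
    simp only []
    rw [this, re_ofReal_mul]; ring
  set D : ℝ := ∑ i ∈ SS P k ×ˢ Icc 1 Y, ∑ T ∈ SS P k,
    if mS i.1 * i.2 = mS T then fS a i.1 * c i.2 * fS a T else 0 with hD
  have eD : (∑ i ∈ SS P k ×ˢ Icc 1 Y, ∑ T ∈ SS P k, if mS i.1 * i.2 = mS T then
      θ ^ #i.1 * fS a i.1 * c i.2 * conj (θ ^ #T * fS a T) else 0) = ε * D := by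
    rw [hD]; push_cast; rw [mul_sum]
    refine sum_congr rfl fun i hi => ?_
    rw [mul_sum]
    refine sum_congr rfl fun T hT => ?_
    by_cases e : mS i.1 * i.2 = mS T
    · rw [if_pos e, if_pos e]
      by_cases hc : c i.2 = 0
      · simp [hc]
      · rw [res_succ hP (res_mem.1 (mem_product.1 hi).1).1 (res_mem.1 hT).1 (c1 _ hc) e, map_mul,
          map_pow, conj_ofReal (fS a T), pow_succ]
        have : θ ^ #i.1 * conj θ ^ #i.1 = 1 := by rw [← mul_pow, tθ, one_pow]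
        push_cast
        linear_combination (conj θ * (fS a i.1 * c i.2 * fS a T)) * this +
          (fS a i.1 * c i.2 * fS a T : ℂ) * cθ
    · rw [if_neg e, if_neg e]; simp
  have nA : ∑ i ∈ SS P k ×ˢ Icc 1 Y, ‖θ ^ #i.1 * fS a i.1 * c i.2‖ =
      (∑ S ∈ SS P k, fS a S) * ∑ n ∈ Icc 1 Y, |c n| := by
    rw [sum_mul_sum, sum_product]
    refine sum_congr rfl fun S _ => sum_congr rfl fun n _ => ?_
    rw [norm_mul, norm_mul, norm_pow, nθ, norm_real, norm_real,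
      Real.norm_of_nonneg (fS_nonneg ha.le S), Real.norm_eq_abs]
    simp
  have nB : ∑ S ∈ SS P k, ‖θ ^ #S * fS a S‖ = ∑ S ∈ SS P k, fS a S :=
    sum_congr rfl fun S _ => by
      rw [norm_mul, norm_pow, nθ, norm_real, Real.norm_of_nonneg (fS_nonneg ha.le S)]; simp
  have key2 : ‖(∫ x, F x) - (√(2 * Real.pi) : ℝ) * (ε * D)‖ ≤ √(2 * Real.pi) *
      gs (H / (N * Y)) * (((∑ S ∈ SS P k, fS a S) * ∑ n ∈ Icc 1 Y, |c n|) *
        ∑ S ∈ SS P k, fS a S) := by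
    rw [← eD, ← nA, ← nB]
    convert key
  have cY : ∑ n ∈ Icc 1 Y, |c n| ≤ Y := by
    simpa using sum_le_card_nsmul (Icc 1 Y) (fun n => |c n|) 1 fun n _ => c0 n
  have fQ : (∑ S ∈ SS P k, fS a S) ^ 2 ≤ N * QQ P k a := by
    refine sq_sum_le_card_mul_sum_sq.trans ?_
    have : (#(SS P k) : ℝ) ≤ N := by exact_mod_cast res_card hP hN
    have h2 := one_le_QQ P k a
    rw [QQ] at h2 ⊢
    gcongr
  have Q1 := one_le_QQ P k a
  have g0 := gs_pos (H / (N * Y))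
  have s0 : 0 ≤ √(2 * Real.pi) := Real.sqrt_nonneg _
  have err : gs (H / (N * Y)) * (((∑ S ∈ SS P k, fS a S) * ∑ n ∈ Icc 1 Y, |c n|) *
      ∑ S ∈ SS P k, fS a S) ≤ QQ P k a := by
    calc _ = gs (H / (N * Y)) * ((∑ S ∈ SS P k, fS a S) ^ 2 * ∑ n ∈ Icc 1 Y, |c n|) := by ring
      _ ≤ gs (H / (N * Y)) * (N * QQ P k a * Y) := by gcongr
      _ = N * Y * gs (H / (N * Y)) * QQ P k a := by ring
      _ ≤ 1 * QQ P k a := by gcongr
      _ = _ := one_mul _
  have im1 := (abs_re_le_norm _).trans key2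
  have e5 : ((∫ x, F x) - (√(2 * Real.pi) : ℝ) * (ε * D)).re =
      (∫ x, F x).re - √(2 * Real.pi) * (ε * D) := by simp
  rw [e5, mul_assoc] at im1
  have im2 : |ε * (∫ x, F x).re - √(2 * Real.pi) * D| ≤ √(2 * Real.pi) * QQ P k a := by
    have : ε * (∫ x, F x).re - √(2 * Real.pi) * D =
        ε * ((∫ x, F x).re - √(2 * Real.pi) * (ε * D)) := by
      linear_combination (√(2 * Real.pi) * D) * ε2
    rw [this, abs_mul, εa, one_mul]
    exact im1.trans (mul_le_mul_of_nonneg_left err s0)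
  have dg := rs_diag (k := k) hP ha c1 c2 hw
  have dg2 : QQ P k a * (w * k / (2 * a)) ≤ D := by
    refine le_trans ?_ dg
    calc QQ P k a * (w * k / (2 * a)) = w / a * (k * QQ P k a / 2) := by field_simp
      _ ≤ _ := by
          refine mul_le_mul_of_nonneg_left (by linarith) (by positivity)
  rw [eI]
  have := (abs_le.1 im2).1
  nlinarith [mul_le_mul_of_nonneg_left dg2 s0]

end Pool.Agent.Lib.MP_31bf45_nt.Cl
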