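import Pool.Agent.Lib.MP_31bf45_nt.Cl.Pt
import Pool.Agent.Lib.MP_31bf45_nt.Cl.Res
import Pool.Agent.Lib.MP_31bf45_nt.Cl.Asy
import Pool.Agent.Lib.MP_31bf45_nt.Cl.Four
import Pool.Agent.Lib.MP_31bf45_nt.Om.End

/-! Clusters and gaps of zeros of zeta: choice of the parameters. -/

set_option autoImplicit false

namespace Pool.Agent.Lib.MP_31bf45_nt.Cl

open Complex Finset MeasureTheory Metric Om Pool.Agent.Lib.MP_b09185_nt.Sh

theorem end_one {κ : ℝ} (h : 0 < κ) (n : ℕ) : |cb κ n| ≤ 1 := by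
  refine (cb_le h n).trans ?_
  rcases eq_or_ne n 0 with rfl | h0
  · simp
  · exact div_le_one_of_le₀ (Real.one_le_sqrt.2 (by exact_mod_cast Nat.pos_of_ne_zero h0))
      (Real.sqrt_nonneg _)

theorem end_FP {κ : ℝ} (h : 0 < κ) (Y : ℕ) (t : ℝ) : ‖FP κ Y t‖ ≤ Y := by
  refine (norm_sum_le_of_le _ (n := fun _ => (1 : ℝ)) fun n _ => ?_).trans (by simp)
  rw [norm_mul, norm_ee, mul_one, norm_real]
  exact end_one h n

theorem end_QP {κ : ℝ} (h : 0 < κ) {Y K : ℕ} (hK : Y ≤ K) : ∃ b : ℕ → ℂ, Dv b ∧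
    ∀ t, QP K b t = FP κ Y t := by
  refine ⟨fun n => if n ∈ Icc 1 Y then (cb κ n * √n : ℝ) else 0, fun n => ?_, fun t => ?_⟩
  · dsimp only
    split_ifs with hn
    · have h0 : n ≠ 0 := by have := (mem_Icc.1 hn).1; omega
      have h1 : 0 < √(n : ℝ) := Real.sqrt_pos.2 (by exact_mod_cast Nat.pos_of_ne_zero h0)
      have h2 : 1 ≤ #n.divisors := card_pos.2 ⟨1, Nat.one_mem_divisors.2 h0⟩
      rw [norm_real, Real.norm_eq_abs, abs_mul, abs_of_pos h1]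
      exact ((le_div_iff₀ h1).1 (cb_le h n)).trans (by exact_mod_cast h2)
    · simp
  · rw [QP, FP, ← sum_subset (Icc_subset_Icc_right hK) fun n _ hn => by simp only [if_neg hn]; simp]
    refine sum_congr rfl fun n hn => ?_
    have h1 : √(n : ℝ) ≠ 0 := (Real.sqrt_pos.2 (by exact_mod_cast (mem_Icc.1 hn).1)).ne'
    simp only [if_pos hn]
    rw [← ofReal_div, mul_div_cancel_right₀ _ h1]

theorem end_num' {V r A E q m : ℝ} (hV : 0 < V) (r1 : 1 ≤ r) (hq : 0 < q) (hm : 9 / 100 * V ≤ m)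
    (h : r * q * (m - 1) ≤ q * (2 * r * A + E)) (hE : E ≤ 9) (hA : 2 * A + 10 ≤ 8 / 100 * V) :
    False := by
  have h1 : r * (m - 1) ≤ 2 * r * A + E := le_of_mul_le_mul_left (by linarith) hq
  nlinarith

theorem end_a3 {a σ k V : ℝ} (h1 : a ^ 2 * σ = 2 * k) (h2 : σ ≤ 3) (h3 : 0 ≤ k)
    (h4 : k ≤ 1280 * V ^ 2) (hV : 0 < V) : 4 * a * σ ≤ 400 * V := by
  have : a * σ ≤ 100 * V := (abs_le_of_sq_le_sq' (by
    rw [mul_pow, sq σ, ← mul_assoc, h1]; nlinarith [sq_nonneg V]) (by positivity)).2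
  linarith

theorem end_a4 {a σ k V : ℝ} (h1 : a ^ 2 * σ = 2 * k) (h2 : 1 / 4 ≤ σ) (h3 : 1279 * V ^ 2 ≤ k)
    (ha : 0 < a) (_ : 0 < V) : 9 / 100 * V ≤ 1 / 64 * k / (2 * a) := by
  have k0 : 0 < k := by nlinarith
  have e3 : a ^ 2 ≤ 8 * k := by nlinarith
  have e2 : 12 * V * a ≤ k := by
    refine abs_le_of_sq_le_sq' ?_ k0.le |>.2
    have := mul_le_mul h3 e3 (sq_nonneg _) k0.le
    nlinarith [mul_pos (pow_pos ‹0 < V› 2) (pow_pos ha 2)]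
  rw [le_div_iff₀ (by positivity)]
  nlinarith [mul_pos ‹0 < V› ha]

theorem end_A {C D w κ l L : ℝ} (hC : 1 ≤ C) (hD : D = 1000 * C) (hw : 100 * C + 100 ≤ w)
    (hκ : 0 < κ) (hl : l = w ^ 4 * κ) (hL : L ≤ 1000 * l) :
    C * (D * κ * w)⁻¹ ^ 2 * κ ^ 2 ≤ 1 / 4 ∧
      2 * (Real.pi * (1 / 200 * w ^ 2) + C * (1 + (D * κ * w)⁻¹ ^ 2 * κ * L)) + 10 ≤
        8 / 100 * w ^ 2 := by
  have w0 : 0 < w := by linarith
  have C0 : 0 < C := by linarith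
  have w2 : 10000 * C + 10000 ≤ w ^ 2 := by nlinarith
  constructor
  · have e : C * (D * κ * w)⁻¹ ^ 2 * κ ^ 2 = 1 / (1000000 * C * w ^ 2) := by
      rw [hD]; field_simp; norm_num
    rw [e]
    exact one_div_le_one_div_of_le (by norm_num) (by nlinarith)
  · have e1 : C * ((D * κ * w)⁻¹ ^ 2 * κ * L) ≤ C * ((D * κ * w)⁻¹ ^ 2 * κ * (1000 * l)) := by
      gcongr
    have e2 : C * ((D * κ * w)⁻¹ ^ 2 * κ * (1000 * l)) = w ^ 2 / (1000 * C) := by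
      rw [hD, hl]; field_simp
    have e3 : w ^ 2 / (1000 * C) ≤ w ^ 2 / 1000 := by gcongr; linarith
    have e4 := mul_le_mul_of_nonneg_right Real.pi_le_four (show 0 ≤ 1 / 200 * w ^ 2 by positivity)
    rw [mul_add C, mul_one]
    linarith

theorem end_two {a b : ℝ} (ha : 1 ≤ a) (hb : 1 ≤ b) : a + 1 ≤ a * Real.exp b := by
  nlinarith [Real.add_one_le_exp b]

theorem end_Z : ∃ (B : ℝ) (Z1 : ℕ), 1 ≤ B ∧ ∀ Z : ℕ, Z1 ≤ Z → 3 ≤ Real.log (Real.log Z) ∧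
    ∀ T : ℝ, (Z : ℝ) ^ 999 ≤ T → 2 * T ≤ (Z : ℝ) ^ 1000 → ∀ κ w : ℝ, 0 < w →
    Real.log Z = w ^ 4 * κ → B * Real.log (Real.log Z) ≤ w ^ 3 →
    64 * Real.log (Real.log T) ≤ κ → ∀ ε : ℝ, ε = 1 ∨ ε = -1 →
    ∃ y ∈ Set.Icc T (T + (Z : ℝ) ^ 603), ∃ m : ℕ, IsZ y (80 / κ) m ∧
      1 / 200 * w ^ 2 ≤ ε * (m - 80 / κ * Real.log T / (2 * Real.pi)) := by
  obtain ⟨C, Z0, hC, hpt⟩ := pt
  obtain ⟨x0, hx0⟩ := primes_sum
  obtain ⟨D, hD⟩ : ∃ D, D = 1000 * C := ⟨_, rfl⟩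
  have D1 : 1 ≤ D := by linarith
  obtain ⟨w0, hw0⟩ := asy (72 * C + 6) D D1
  obtain ⟨W, hW⟩ : ∃ W, W = max w0 (100 * C + 100) := ⟨_, rfl⟩
  have W1 : w0 ≤ W := hW ▸ le_max_left _ _
  have W2 : 100 * C + 100 ≤ W := hW ▸ le_max_right _ _
  have tl := Real.tendsto_log_atTop.comp (tendsto_natCast_atTop_atTop (R := ℝ))
  obtain ⟨Z1, hZ1⟩ := Filter.eventually_atTop.1 ((((tl.eventually_ge_atTop (max x0 1)).and
    ((Real.tendsto_log_atTop.comp tl).eventually_ge_atTop (max (W ^ 3) 3))).and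
    (Filter.eventually_ge_atTop Z0)).and (Filter.eventually_ge_atTop 2400))
  refine ⟨24 * D, Z1, by linarith, fun Z hZ => ?_⟩
  obtain ⟨⟨⟨z0, z1⟩, z2⟩, z3⟩ := hZ1 Z hZ
  obtain ⟨b, hb, hpt⟩ := hpt Z z2
  have z4 : (2400 : ℝ) ≤ Z := by exact_mod_cast z3
  have z5 : (1 : ℝ) ≤ Z := by linarith
  simp only [Function.comp, max_le_iff] at z0 z1
  obtain ⟨l, hl⟩ : ∃ l, l = Real.log Z := ⟨_, rfl⟩
  have el : Real.exp l = Z := by rw [hl, Real.exp_log (by linarith)]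
  rw [← hl] at z0 z1 ⊢
  obtain ⟨l2, l3⟩ := z0
  obtain ⟨l4, l5⟩ := z1
  refine ⟨l5, fun T T1 T2 κ w wp hw hB hκ ε hε => by_contra fun hc => ?_⟩
  obtain ⟨q1, q2, q3, q4, q5⟩ := end_pos z4
  have T0 : 0 < T := by linarith
  obtain ⟨L, hL⟩ : ∃ L, L = Real.log T := ⟨_, rfl⟩
  have L1 := Real.log_le_log (by positivity) T1
  have L2 := Real.log_le_log T0 (show T ≤ (Z : ℝ) ^ 1000 by linarith)
  rw [Real.log_pow, Nat.cast_ofNat, ← hl, ← hL] at L1 L2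
  rw [← hL] at hκ hc
  have L3 : Real.log l ≤ Real.log L := Real.log_le_log (by linarith) (by linarith)
  have κ1 : 192 ≤ κ := by linarith
  have κ0 : 0 < κ := by linarith
  have w1 : W ≤ w := le_of_pow_le_pow_left₀ (n := 3) (by norm_num) wp.le
    (l4.trans ((le_mul_of_one_le_left (by linarith) (by linarith)).trans hB))
  have w2 : 200 ≤ w := by linarith
  obtain ⟨V, hV⟩ : ∃ V, V = w ^ 2 := ⟨_, rfl⟩
  have V1 : 200 ≤ V := hV ▸ w2.trans (le_self_pow₀ (by linarith) two_ne_zero)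
  have V0 : 0 < V := by linarith
  have V2 : l = V ^ 2 * κ := by rw [hw, hV]; ring
  have V3 : 200 ≤ V ^ 2 := V1.trans (le_self_pow₀ (by linarith) two_ne_zero)
  have V5 : 200 * κ ≤ l := by rw [V2]; gcongr
  have V4 : 192 * V ^ 2 ≤ l := by rw [V2, mul_comm]; gcongr
  have a6 := hw0 l κ w (by linarith) (by linarith) hw hB
  obtain ⟨a3, a5⟩ := end_A hC hD (by linarith) κ0 hw L2
  obtain ⟨δ, hδ⟩ : ∃ δ, δ = (D * κ * w)⁻¹ := ⟨_, rfl⟩
  have δ0 : 0 < δ := by rw [hδ]; positivity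
  rw [← hδ, ← hV] at a5 a6
  rw [← hδ] at a3
  rw [← hV] at hc
  obtain ⟨G, hG⟩ : ∃ G, G = δ * (Z : ℝ) ^ (δ / 2) := ⟨_, rfl⟩
  have G0 : 0 < G := by rw [hG]; positivity
  rw [show δ * Real.exp (l * (δ / 2)) = G by rw [hG, Real.rpow_def_of_pos (by linarith), ← hl]] at a6
  have x4 : L ≤ Real.exp (κ / 64) := by
    rw [← Real.exp_log (show 0 < L by linarith)]
    exact Real.exp_le_exp.2 (by linarith)
  obtain ⟨x, hx⟩ : ∃ x, x = ⌊Real.exp (κ / 64)⌋₊ := ⟨_, rfl⟩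
  have x1 : (x : ℝ) ≤ Real.exp (κ / 64) := hx ▸ Nat.floor_le (Real.exp_pos _).le
  have x2 : Real.exp (κ / 64) < x + 1 := hx ▸ Nat.lt_floor_add_one _
  have x5 : 998 * l ≤ x := by linarith
  have x3 : 1 ≤ x := by exact_mod_cast (show (1 : ℝ) ≤ x by linarith)
  obtain ⟨s1, s2⟩ := hx0 x (by exact_mod_cast (show (x0 : ℝ) ≤ x by linarith))
  obtain ⟨P, hP⟩ : ∃ P, P = (Ioc x (x ^ 2)).filter Nat.Prime := ⟨_, rfl⟩
  have p1 : ∀ p ∈ P, p.Prime := fun p hp => (mem_filter.1 (hP ▸ hp)).2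
  have p2 : ∀ p ∈ P, x < p ∧ p ≤ x ^ 2 := fun p hp => mem_Ioc.1 (mem_filter.1 (hP ▸ hp)).1
  obtain ⟨k, hk⟩ : ∃ k, k = ⌊1280 * V ^ 2⌋₊ := ⟨_, rfl⟩
  have k1 : (k : ℝ) ≤ 1280 * V ^ 2 := hk ▸ Nat.floor_le (by linarith)
  have k2 : 1279 * V ^ 2 ≤ k := by linarith [hk ▸ Nat.lt_floor_add_one (1280 * V ^ 2)]
  have hN : ∀ S ∈ SS P k, mS S ≤ Z ^ 40 := fun S hS => by
    refine (end_mS x3 (hP ▸ hS)).trans ?_
    have : (x : ℝ) ^ (2 * k) ≤ (Z : ℝ) ^ 40 := by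
      refine (pow_le_pow_left₀ x.cast_nonneg x1 _).trans ?_
      rw [← el, ← Real.exp_nat_mul, ← Real.exp_nat_mul]
      refine Real.exp_le_exp.2 ?_
      have := mul_le_mul_of_nonneg_right k1 κ0.le
      rw [mul_assoc, ← V2] at this
      push_cast; linarith
    exact_mod_cast this
  rw [← hP] at s1 s2
  obtain ⟨σ, hσ⟩ : ∃ σ, σ = ∑ p ∈ P, (1 / p : ℝ) := ⟨_, rfl⟩
  rw [← hσ] at s1 s2
  obtain ⟨a, ha⟩ : ∃ a, a = √(2 * k / σ) := ⟨_, rfl⟩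
  have b0 : 0 < 2 * k / σ := div_pos (by linarith) (by linarith)
  have b1 : 0 < a := ha ▸ Real.sqrt_pos.2 b0
  have b2 : a ^ 2 * σ = 2 * k := by
    rw [ha, Real.sq_sqrt b0.le, div_mul_cancel₀ _ (by linarith)]
  have b3 := end_a3 b2 s2 k.cast_nonneg k1 V0
  have b4 := end_a4 b2 s1 k2 b1 V0
  obtain ⟨Y, hY⟩ : ∃ Y, Y = ⌈Real.exp (50 * κ)⌉₊ := ⟨_, rfl⟩
  have Y1 : Real.exp (50 * κ) ≤ Y := hY ▸ Nat.le_ceil _
  have Y2 : (Y : ℝ) ≤ Real.exp (50 * κ) + 1 := hY ▸ (Nat.ceil_lt_add_one (Real.exp_pos _).le).le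
  have Y5 : 1 ≤ Real.exp (50 * κ) := Real.one_le_exp (by positivity)
  have Y3 : (Y : ℝ) ≤ Z := by
    have e1 : Real.exp (50 * κ) * Real.exp κ ≤ Z := by
      rw [← el, ← Real.exp_add]
      exact Real.exp_le_exp.2 (by linarith)
    exact Y2.trans ((end_two Y5 (by linarith)).trans e1)
  have Y4 : (1 : ℝ) ≤ Y := Y5.trans Y1
  have p3 : ∀ p ∈ P, κ / 80 ≤ Real.log p ∧ Real.log p ≤ κ / 32 := fun p hp => by
    have h0 : (0 : ℝ) < p := by exact_mod_cast (p1 p hp).pos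
    have h1 : (p : ℝ) ≤ (x : ℝ) ^ 2 := by exact_mod_cast (p2 p hp).2
    have h2 : (x : ℝ) + 1 ≤ p := by exact_mod_cast (p2 p hp).1
    have h3 := (Real.le_log_iff_exp_le h0).2 (x2.le.trans h2)
    refine ⟨by linarith, (Real.log_le_iff_le_exp h0).2 (h1.trans ?_)⟩
    rw [show κ / 32 = (2 : ℕ) * (κ / 64) by push_cast; ring, Real.exp_nat_mul]
    exact pow_le_pow_left₀ x.cast_nonneg x1 _
  have p4 : ∀ p ∈ P, p ≤ Y := fun p hp => by
    have h1 : (p : ℝ) ≤ Y := by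
      rw [← Real.exp_log (show (0 : ℝ) < p by exact_mod_cast (p1 p hp).pos)]
      exact (Real.exp_le_exp.2 ((p3 p hp).2.trans (by linarith))).trans Y1
    exact_mod_cast h1
  have hε' : -ε = 1 ∨ -ε = -1 := by rcases hε with rfl | rfl <;> simp
  have hθ : ‖((-ε : ℝ) : ℂ)‖ = 1 := by rcases hε with rfl | rfl <;> simp
  have hε1 : |-ε| = 1 := by rcases hε with rfl | rfl <;> simp
  have u1 : ∀ j : ℕ, 1 ≤ (Z : ℝ) ^ j := fun j => one_le_pow₀ z5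
  have u2 : ∀ i j : ℕ, i ≤ j → (Z : ℝ) ^ i ≤ (Z : ℝ) ^ j := fun i j => pow_le_pow_right₀ z5
  have u3 : (Y : ℝ) * (Z : ℝ) ^ 40 ≤ (Z : ℝ) ^ 600 :=
    (mul_le_mul_of_nonneg_right Y3 (by positivity)).trans (by
      rw [← pow_succ']; exact u2 _ _ (by norm_num))
  have lo := main (Y := Y) (H := (Z : ℝ) ^ 601) p1 b1 hN (end_one κ0) (fun n => cb_pow)
    (fun p hp => ⟨p4 p hp, cb_prime (by linarith) (p1 p hp) (p3 p hp).1 (p3 p hp).2⟩) (by norm_num)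
    (by exact_mod_cast Y4) (gain (x := x) (fun p hp => by exact_mod_cast (p2 p hp).1.le) (by linarith)
      (hσ ▸ b2) (by rw [← hσ]; linarith [mul_le_mul x5 s1 (by norm_num) x.cast_nonneg])) hε'
    (end_gs z4 (by push_cast; exact one_le_mul_of_one_le_of_one_le (u1 _) Y4)
      (by push_cast; rw [mul_comm]; exact u3)) (T + 2 * (Z : ℝ) ^ 602)
  obtain ⟨X, hX⟩ : ∃ X, X = Real.exp (4 * a * σ) * (1 + Real.log ((Z ^ 560 : ℕ) : ℝ)) ^ 4 := ⟨_, rfl⟩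
  have X1 : 1 ≤ X := by
    rw [hX]
    exact one_le_mul_of_one_le_of_one_le (Real.one_le_exp (by have : 0 < σ := by linarith
                                                              positivity))
      (one_le_pow₀ (by linarith [Real.log_natCast_nonneg (Z ^ 560)]))
  have X2 : (72 * C + 6) / G * X ≤ 1 := by
    refine le_trans ?_ a6
    rw [hX, Nat.cast_pow, Real.log_pow, ← hl, Nat.cast_ofNat]
    gcongr
  have G1 : G⁻¹ ≤ 1 := by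
    have e1 : G⁻¹ ≤ (72 * C + 6) / G := by rw [inv_eq_one_div]; gcongr; linarith
    exact e1.trans ((le_mul_of_one_le_right (by positivity) X1).trans X2)
  have cF : Continuous (FP κ Y) := by unfold FP; fun_prop
  have g2 := end_gs (m := ((Z ^ 40 : ℕ) : ℝ) * ((Z ^ 560 : ℕ) : ℝ)) z4
    (by push_cast; rw [← pow_add]; exact u1 _) (by push_cast; rw [← pow_add])
  have L0 : 0 ≤ L := by linarith
  have up := core (K := Z ^ 560) (H := (Z : ℝ) ^ 601) p1 b1.le hN hθ hb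
    (end_gs z4 (by push_cast; exact u1 _) (by push_cast; exact u2 _ _ (by norm_num))) g2
    (F := fun t => -ε * (FP κ Y t).re - G⁻¹ * ‖FP κ Y t‖ ^ 2) (by fun_prop) (W := 2 * (Z : ℝ) ^ 2)
    (A := Real.pi * (1 / 200 * V) + C * (1 + δ ^ 2 * κ * L)) (B := C / G)
    (X := Z) (fun t => by
      have e1 := (end_FP κ0 Y t).trans Y3
      have e2 : G⁻¹ * ‖FP κ Y t‖ ^ 2 ≤ 1 * (Z : ℝ) ^ 2 := by gcongr
      have e3 := (abs_re_le_norm _).trans e1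
      refine (abs_sub _ _).trans ?_
      rw [abs_mul, hε1, one_mul, abs_of_nonneg (show 0 ≤ G⁻¹ * ‖FP κ Y t‖ ^ 2 by positivity)]
      linarith [le_self_pow₀ z5 two_ne_zero]) (by positivity) (by positivity) (by linarith)
    (T + 2 * (Z : ℝ) ^ 602) fun x hx => by
      have e1 : |(Z : ℝ) ^ 601 * x| ≤ (Z : ℝ) ^ 602 := by
        rw [abs_mul, abs_of_nonneg (by positivity), ← q4]
        exact mul_le_mul_of_nonneg_left hx (by positivity)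
      obtain ⟨e2, e3⟩ := abs_le.1 e1
      generalize (Z : ℝ) ^ 601 * x = y at e2 e3
      have e4 : L ≤ Real.log (T + 2 * (Z : ℝ) ^ 602 + y) :=
        hL ▸ Real.log_le_log T0 (by linarith)
      have e5 : Real.log (T + 2 * (Z : ℝ) ^ 602 + y) ≤ 1 + L := by
        refine (Real.log_le_log (by linarith) (show _ ≤ 2 * T by linarith)).trans ?_
        rw [Real.log_mul two_ne_zero T0.ne', ← hL]
        linarith [Real.log_two_lt_d9]
      have e6 : 1 + L ≤ Real.exp κ := by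
        have f1 : Real.exp (κ / 64) * Real.exp 1 ≤ Real.exp κ := by
          rw [← Real.exp_add]; exact Real.exp_le_exp.2 (by linarith)
        linarith [end_two (show 1 ≤ Real.exp (κ / 64) by linarith) le_rfl]
      rw [hG]
      refine hpt κ _ δ ε (1 / 200 * V) L Y (by linarith) (by linarith) (by linarith) a3 δ0 hε
        (by positivity) Y1 (abs_le.2 ⟨by linarith, by linarith⟩) (by linarith)
        fun y' m hy hs => le_of_not_ge fun h => hc ⟨y', ?_, m, hs, h⟩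
      obtain ⟨e4, e5⟩ := abs_le.1 hy
      exact ⟨by linarith, by linarith⟩
  obtain ⟨b4', hb4, eb4⟩ := end_QP κ0 (Y := Y) (K := Z ^ 560) (by
    exact_mod_cast Y3.trans (le_self_pow₀ z5 (by norm_num)))
  have mid := tw (H := (Z : ℝ) ^ 601) p1 b1.le hN hθ hb4 g2 (T + 2 * (Z : ℝ) ^ 602) 0
  simp only [add_zero, eb4] at mid
  rw [mul_assoc (QQ P k a), ← hσ, ← hX] at mid
  rw [← hσ, ← hX] at up
  have hR := co_RR P k a ((-ε : ℝ) : ℂ)
  have r0 := sup_RR p1 b1.le hN hθ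
  have Q1 := one_le_QQ P k a
  have i1 : Integrable fun x : ℝ => ‖RR P k a ((-ε : ℝ) : ℂ) (T + 2 * (Z : ℝ) ^ 602 +
      (Z : ℝ) ^ 601 * x)‖ ^ 2 * (-ε * (FP κ Y (T + 2 * (Z : ℝ) ^ 602 + (Z : ℝ) ^ 601 * x)).re) *
      gs x := co_int (R := (Z ^ 40 : ℕ) * QQ P k a * Y) (by fun_prop) fun x => by
    rw [abs_mul, abs_mul, hε1, one_mul, abs_of_nonneg (by positivity)]
    exact mul_le_mul (r0 _) ((abs_re_le_norm _).trans (end_FP κ0 Y _)) (abs_nonneg _) (by positivity)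
  have i2 : Integrable fun x : ℝ => ‖RR P k a ((-ε : ℝ) : ℂ) (T + 2 * (Z : ℝ) ^ 602 +
      (Z : ℝ) ^ 601 * x)‖ ^ 2 * ‖FP κ Y (T + 2 * (Z : ℝ) ^ 602 + (Z : ℝ) ^ 601 * x)‖ ^ 2 *
      gs x := co_int (R := (Z ^ 40 : ℕ) * QQ P k a * Y ^ 2) (by fun_prop) fun x => by
    rw [abs_of_nonneg (by positivity)]
    exact mul_le_mul (r0 _) (pow_le_pow_left₀ (norm_nonneg _) (end_FP κ0 Y _) 2) (by positivity)
      (by positivity)
  have sp := (integral_sub i1 (i2.const_mul G⁻¹)).symm.trans (integral_congr_ae (g := fun x : ℝ =>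
    ‖RR P k a ((-ε : ℝ) : ℂ) (T + 2 * (Z : ℝ) ^ 602 + (Z : ℝ) ^ 601 * x)‖ ^ 2 *
      (-ε * (FP κ Y (T + 2 * (Z : ℝ) ^ 602 + (Z : ℝ) ^ 601 * x)).re -
        G⁻¹ * ‖FP κ Y (T + 2 * (Z : ℝ) ^ 602 + (Z : ℝ) ^ 601 * x)‖ ^ 2) * gs x)
    (.of_forall fun x => by ring))
  rw [integral_const_mul] at sp
  have m2 := mul_le_mul_of_nonneg_left mid (inv_pos.2 G0).le
  have e1 : (Z : ℝ) ^ 2 * ((Z ^ 40 : ℕ) : ℝ) * Real.exp (-(Z : ℝ) ^ 2 / 4) ≤ 1 := by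
    refine le_trans ?_ (end_exp z4)
    push_cast
    rw [← pow_add]
    exact mul_le_mul_of_nonneg_right (u2 _ _ (by norm_num)) (Real.exp_pos _).le
  refine end_num' (E := (72 * C + 6) / G * X + 8 * ((Z : ℝ) ^ 2 * ((Z ^ 40 : ℕ) : ℝ) *
    Real.exp (-(Z : ℝ) ^ 2 / 4))) V0 MP_b09185_nt.Mai.one_le_sqrt_two_pi (zero_lt_one.trans_le Q1) b4
    (lo.trans ((eq_add_of_sub_eq sp).trans_le ((add_le_add up m2).trans_eq ?_))) (by linarith) a5
  field_simp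
  ring

theorem cluster : ∃ c C T₀ : ℝ, 0 < c ∧ 0 < C ∧ ∀ T ≥ T₀, ∀ h : ℝ,
    C * Real.log (Real.log T) ^ (4 / 3 : ℝ) ≤ h * Real.log T → h * Real.log (Real.log T) ≤ 1 →
    ∀ ε : ℝ, ε = 1 ∨ ε = -1 → ∃ y ∈ Set.Icc T (T + T ^ (2 / 3 : ℝ)), ∃ m : ℕ, IsZ y h m ∧
      c * √(h * Real.log T) ≤ ε * (m - h * Real.log T / (2 * Real.pi)) := by
  obtain ⟨B, Z1, B1, hZ1⟩ := end_Z
  obtain ⟨D, hD⟩ : ∃ D : ℝ, D = ((1 : ℕ) : ℝ) ^ 1000 + 2 ^ 1000 := ⟨_, rfl⟩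
  have D0 : 0 ≤ D := by rw [hD]; positivity
  obtain ⟨m, hm⟩ : ∃ m : ℝ, m = Z1 + 2 * D + 3 := ⟨_, rfl⟩
  have m1 : 3 ≤ m := by linarith [Z1.cast_nonneg (α := ℝ)]
  refine ⟨1 / 60000, 80000 * B ^ 2, m ^ 1000, by norm_num, by positivity,
    fun T hT h h6 h7 ε hε => ?_⟩
  have T1 : m ≤ T := (le_self_pow₀ (by linarith) (by norm_num)).trans hT
  obtain ⟨Z, -, h1, h2⟩ := dens_scale 1000 (by norm_num) 1 (T := 2 * T) (by linarith)
  rw [← hD] at h2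
  have z1 : m ≤ Z := le_of_pow_le_pow_left₀ (n := 1000) (by norm_num) Z.cast_nonneg (by linarith)
  have z2 : (0 : ℝ) < Z := by linarith
  have h3 : (Z : ℝ) ^ 999 ≤ T := by
    refine le_of_mul_le_mul_right (a := (Z : ℝ)) ?_ z2
    rw [← pow_succ]
    refine h2.trans ?_
    rw [← mul_assoc, mul_comm]
    exact mul_le_mul_of_nonneg_left (by linarith [Z1.cast_nonneg (α := ℝ)]) (by linarith)
  obtain ⟨a1, hZ⟩ := hZ1 Z (by exact_mod_cast (show (Z1 : ℝ) ≤ Z by linarith))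
  have l1 : 1 ≤ Real.log Z := by
    rw [Real.le_log_iff_exp_le z2]
    linarith [Real.exp_one_lt_three]
  have l2 := Real.log_le_log (by positivity) h3
  have l3 := Real.log_le_log (show 0 < T by linarith) (show T ≤ (Z : ℝ) ^ 1000 by linarith)
  rw [Real.log_pow, Nat.cast_ofNat] at l2 l3
  have l4 : Real.log (Real.log Z) ≤ Real.log (Real.log T) :=
    Real.log_le_log (by linarith) (by linarith)
  obtain ⟨l, hl⟩ : ∃ l, l = Real.log Z := ⟨_, rfl⟩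
  obtain ⟨L, hL⟩ : ∃ L, L = Real.log T := ⟨_, rfl⟩
  have hZ' := hZ T h3 h1
  rw [← hl] at a1 l1 l2 l3 l4 hZ'
  rw [← hL] at l2 l3 l4 h6 h7 hZ' ⊢
  have r0 : 0 < Real.log l ^ (4 / 3 : ℝ) := Real.rpow_pos_of_pos (by linarith) _
  have r1 : Real.log l ^ (4 / 3 : ℝ) ≤ Real.log L ^ (4 / 3 : ℝ) :=
    Real.rpow_le_rpow (by linarith) l4 (by norm_num)
  have r2 : 80000 * B ^ 2 * Real.log l ^ (4 / 3 : ℝ) ≤ h * L :=
    (mul_le_mul_of_nonneg_left r1 (by positivity)).trans h6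
  have h0 : 0 < h := (mul_pos_iff_of_pos_right (show 0 < L by linarith)).1
    (lt_of_lt_of_le (by positivity) r2)
  obtain ⟨w, hw⟩ : ∃ w, w = √√(l * h / 80) := ⟨_, rfl⟩
  have w0 : 0 < w := by rw [hw]; positivity
  have w4 : w ^ 4 = l * h / 80 := by
    rw [hw, show 4 = 2 * 2 from rfl, pow_mul, Real.sq_sqrt (Real.sqrt_nonneg _),
      Real.sq_sqrt (by positivity)]
  have w5 : h * L ≤ 80000 * w ^ 4 := by rw [w4]; nlinarith
  have w6 : B * Real.log l ≤ w ^ 3 := by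
    refine le_of_pow_le_pow_left₀ (n := 4) (by norm_num) (by positivity) ?_
    have e1 : B ^ 2 * Real.log l ^ (4 / 3 : ℝ) ≤ w ^ 4 := by linarith
    have e2 := pow_le_pow_left₀ (by positivity) e1 3
    rw [mul_pow, ← Real.rpow_natCast (_ ^ (4 / 3 : ℝ)), ← Real.rpow_mul (by linarith),
      show (4 / 3 : ℝ) * (3 : ℕ) = (4 : ℕ) by norm_num, Real.rpow_natCast, ← pow_mul, ← pow_mul] at e2
    rw [mul_pow, ← pow_mul]
    exact (mul_le_mul_of_nonneg_right (pow_le_pow_right₀ B1 (by norm_num)) (by positivity)).trans e2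
  obtain ⟨y, hy, n, hn, h4⟩ := hZ' (80 / h) w w0 (by rw [w4]; field_simp) w6 (by
    rw [le_div_iff₀ h0]; linarith) ε hε
  rw [show 80 / (80 / h) = h by field_simp] at hn h4
  have h5 : (Z : ℝ) ^ 603 ≤ T ^ (2 / 3 : ℝ) := by
    refine le_trans ?_ (Real.rpow_le_rpow (by positivity) h3 (by norm_num))
    rw [← Real.rpow_natCast, ← Real.rpow_natCast, ← Real.rpow_mul z2.le]
    exact Real.rpow_le_rpow_of_exponent_le (by linarith) (by norm_num)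
  refine ⟨y, ⟨hy.1, by linarith [hy.2]⟩, n, hn, le_trans ?_ h4⟩
  have : √(h * L) ≤ 300 * w ^ 2 := Real.sqrt_le_iff.2 ⟨by positivity, by nlinarith [pow_pos w0 4]⟩
  linarith

end Pool.Agent.Lib.MP_31bf45_nt.Cl
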