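import Pool.Agent.Lib.MP_31bf45_nt.Cl.Def

/-! The kernel. -/

set_option autoImplicit false

namespace Pool.Agent.Lib.MP_31bf45_nt.Cl

open Complex Finset MeasureTheory Metric Om
open scoped ComplexConjugate

variable {κ : ℝ}

theorem ker_ne {z : ℂ} (h : z ≠ 0) : dslope sinh 0 z = sinh z / z := by
  rw [dslope_of_ne _ h, slope_def_field, sinh_zero, sub_zero, sub_zero]

theorem ker_zero : dslope sinh 0 0 = 1 := by
  rw [dslope_same, Complex.deriv_sinh, cosh_zero]

theorem BB_diff (κ : ℝ) : Differentiable ℂ (BB κ) :=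
  (differentiableOn_univ.1 ((differentiableOn_dslope Filter.univ_mem).2
    differentiable_sinh.differentiableOn)).comp (f := fun w : ℂ => κ * w / 2) (by fun_prop)

theorem KK_diff (κ : ℝ) : Differentiable ℂ (KK κ) :=
  ((BB_diff κ).pow 2).mul (by unfold kk; fun_prop)

theorem BB_mul (κ : ℝ) (w : ℂ) : BB κ w * (κ * w / 2) = sinh (κ * w / 2) := by
  rcases eq_or_ne (κ * w / 2) 0 with h | h
  · rw [h, mul_zero, sinh_zero]
  · rw [BB, ker_ne h, div_mul_cancel₀ _ h]

theorem sinh_le (z : ℂ) : ‖sinh z‖ ≤ Real.exp |z.re| := by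
  have h1 := norm_sub_le (exp z) (exp (-z))
  have h2 := Real.exp_le_exp.2 (le_abs_self z.re)
  have h3 := Real.exp_le_exp.2 (neg_le_abs z.re)
  rw [norm_exp, norm_exp, neg_re] at h1
  rw [Complex.sinh, norm_div, Complex.norm_two]
  linarith

theorem BB_le (h : 0 ≤ κ) (w : ℂ) : ‖BB κ w‖ ≤ 2 * Real.exp (κ * |w.re| / 2) := by
  have e : |(κ * w / 2).re| = κ * |w.re| / 2 := by
    simp [abs_div, abs_mul, abs_of_nonneg h]
  rw [BB, ← e]
  generalize κ * w / 2 = z
  have h1 := Real.one_le_exp (abs_nonneg z.re)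
  rcases eq_or_ne z 0 with rfl | h0
  · rw [ker_zero, norm_one]
    linarith
  rw [ker_ne h0, norm_div, div_le_iff₀ (norm_pos_iff.2 h0)]
  rcases le_total ‖z‖ 1 with h2 | h2
  · have h3 := norm_sub_le (exp z - 1) (exp (-z) - 1)
    have h4 := norm_exp_sub_one_le h2
    have h5 := norm_exp_sub_one_le (x := -z) (by rwa [norm_neg])
    rw [sub_sub_sub_cancel_right] at h3
    rw [norm_neg] at h5
    rw [Complex.sinh, norm_div, Complex.norm_two]
    nlinarith [norm_nonneg z]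
  · nlinarith [sinh_le z]

theorem BB_neg (κ : ℝ) (w : ℂ) : BB κ (-w) = BB κ w := by
  rw [BB, BB, mul_neg, neg_div]
  rcases eq_or_ne (κ * w / 2) 0 with h | h
  · rw [h, neg_zero]
  · rw [ker_ne h, ker_ne (neg_ne_zero.2 h), sinh_neg, neg_div_neg_eq]

theorem KK_neg (κ : ℝ) (w : ℂ) : KK κ (-w) = KK κ w := by
  rw [KK, KK, BB_neg, kk, kk, neg_sq]

theorem KK_conj (κ : ℝ) (w : ℂ) : KK κ (conj w) = conj (KK κ w) := by
  have e : (κ * conj w / 2 : ℂ) = conj (κ * w / 2) := by simp [map_ofNat]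
  have h1 : BB κ (conj w) = conj (BB κ w) := by
    rw [BB, BB, e]
    rcases eq_or_ne (κ * w / 2) 0 with h | h
    · rw [h, map_zero, ker_zero, map_one]
    · rw [ker_ne h, ker_ne ((map_ne_zero _).2 h), sinh_conj, ← map_div₀]
  rw [KK, KK, h1, kk, kk, map_mul, map_pow, ← exp_conj]
  simp [map_ofNat]

theorem KK_zero (h : 0 ≤ κ) (u : ℝ) : KK κ (u * I) = kr κ u := by
  have e : (κ * (u * I) / 2 : ℂ) = (κ * u / 2 : ℝ) * I := by push_cast; ring
  have h1 : BB κ (u * I) = Real.sinc (κ * u / 2) := by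
    rw [BB, e]
    rcases eq_or_ne (κ * u / 2) 0 with h | h
    · rw [h, ofReal_zero, zero_mul, ker_zero, Real.sinc_zero, ofReal_one]
    · rw [ker_ne (mul_ne_zero (ofReal_ne_zero.2 h) I_ne_zero), sinh_mul_I,
        mul_div_mul_right _ _ I_ne_zero, Real.sinc_of_ne_zero h, ofReal_div (Real.sin _),
        ofReal_sin]
  rw [KK, h1, kk, kr, ofReal_mul, ofReal_pow, ofReal_exp, ← ofReal_pow √_,
    Real.sq_sqrt (by positivity), mul_pow, I_sq]
  congr 2
  push_cast
  ring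

theorem KK_le (h : 0 ≤ κ) (c u : ℝ) :
    ‖KK κ (c + u * I)‖ ≤ 4 * Real.exp (κ * |c|) * Real.exp (5 * κ * (c ^ 2 - u ^ 2)) := by
  have h1 := pow_le_pow_left₀ (norm_nonneg _) (BB_le h (c + u * I)) 2
  rw [mul_pow, ← Real.exp_nat_mul] at h1
  rw [KK, norm_mul, norm_pow, norm_kk, Real.sq_sqrt (by positivity)]
  refine mul_le_mul (h1.trans (le_of_eq ?_)) (le_of_eq ?_) (by positivity) (by positivity)
  · congr 1
    · norm_num
    · congr 1
      simp
      ring
  · congr 1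
    ring

theorem kr_cont (κ : ℝ) : Continuous (kr κ) :=
  ((Real.continuous_sinc.comp (by fun_prop)).pow 2).mul (by fun_prop)

theorem kr_nonneg (κ u : ℝ) : 0 ≤ kr κ u := by unfold kr; positivity

theorem kr_neg (κ u : ℝ) : kr κ (-u) = kr κ u := by
  rw [kr, kr, mul_neg, neg_div, Real.sinc_neg, neg_sq]

theorem ker_sq (y : ℝ) : Real.sinc y ^ 2 ≤ 1 := (sq_le_one_iff_abs_le_one _).2 (Real.abs_sinc_le_one y)

theorem kr_le (κ u : ℝ) : kr κ u ≤ Real.exp (-(5 * κ) * u ^ 2) :=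
  mul_le_of_le_one_left (Real.exp_pos _).le (ker_sq _)

theorem kr_le' (h : 0 ≤ κ) (u : ℝ) : kr κ u ≤ 2 / (1 + (κ * u / 2) ^ 2) := by
  have a1 : ∀ y : ℝ, Real.sinc y ^ 2 * y ^ 2 ≤ 1 := fun y => by
    rcases eq_or_ne y 0 with rfl | h
    · simp
    · rw [Real.sinc_of_ne_zero h, ← mul_pow, div_mul_cancel₀ _ h]
      exact Real.sin_sq_le_one y
  refine (mul_le_of_le_one_right (sq_nonneg _)
    (Real.exp_le_one_iff.2 (by nlinarith [mul_nonneg h (sq_nonneg u)]))).trans ?_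
  rw [le_div_iff₀ (by positivity)]
  linarith [a1 (κ * u / 2), ker_sq (κ * u / 2)]

theorem kr_int (h : 0 < κ) : Integrable (kr κ) :=
  (integrable_exp_neg_mul_sq (by positivity : 0 < 5 * κ)).mono' (kr_cont κ).aestronglyMeasurable
    (.of_forall fun u => by rw [Real.norm_of_nonneg (kr_nonneg κ u)]; exact kr_le κ u)

theorem gg_zero (κ : ℝ) : gg κ 0 = ∫ u, kr κ u := by simp [gg]

theorem gg_abs (h : 0 < κ) (v : ℝ) : |gg κ v| ≤ gg κ 0 := by
  rw [gg_zero]
  refine norm_integral_le_of_norm_le (f := fun u => kr κ u * Real.cos (u * v)) (kr_int h)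
    (.of_forall fun u => ?_)
  rw [norm_mul, Real.norm_of_nonneg (kr_nonneg κ u)]
  exact mul_le_of_le_one_right (kr_nonneg κ u) (Real.abs_cos_le_one _)

theorem gg_le (h : 0 < κ) : gg κ 0 ≤ 4 * Real.pi / κ := by
  have i2 : Integrable fun u : ℝ => 2 * (1 + (κ / 2 * u) ^ 2)⁻¹ :=
    (integrable_inv_one_add_sq.comp_mul_left' (by positivity)).const_mul _
  rw [gg_zero]
  refine (integral_mono (kr_int h) i2 fun u => (kr_le' h.le u).trans (le_of_eq ?_)).trans (le_of_eq ?_)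
  · rw [div_eq_mul_inv, mul_div_right_comm]
  · rw [integral_const_mul, Measure.integral_comp_mul_left (fun x : ℝ => (1 + x ^ 2)⁻¹),
      integral_univ_inv_one_add_sq, abs_of_pos (by positivity), smul_eq_mul]
    field_simp
    norm_num

end Pool.Agent.Lib.MP_31bf45_nt.Cl
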