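import Pool.Agent.Lib.MP_31bf45_nt.Cl.EF
import Pool.Agent.Lib.MP_31bf45_nt.Cl.Dom
import Pool.Agent.Lib.MP_31bf45_nt.Cl.Avg

/-! The explicit formula integrated over a window. -/

set_option autoImplicit false

namespace Pool.Agent.Lib.MP_31bf45_nt.Cl

open Complex Finset MeasureTheory Om

theorem loc_re (n : ℕ) (y : ℝ) : (ee n y).re = Real.cos (y * Real.log n) := by
  rw [ee, exp_ofReal_mul_I_re, Real.cos_neg]

theorem loc_cos {l : ℝ} (hl : l ≠ 0) (t h : ℝ) :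
    ∫ τ in (-h)..h, Real.cos ((t + τ) * l) = 2 * Real.cos (t * l) * Real.sin (h * l) / l := by
  rw [intervalIntegral.integral_eq_sub_of_hasDerivAt (f := fun τ => Real.sin ((t + τ) * l) / l)
    (fun x _ => ((((hasDerivAt_id x).const_add t).mul_const l).sin.div_const l).congr_deriv
      (by simp [hl])) (Continuous.intervalIntegrable (by fun_prop) _ _), add_mul, add_mul, neg_mul,
    Real.sin_add, Real.sin_add, Real.sin_neg, Real.cos_neg]
  ring

theorem loc_PS (κ : ℝ) (Y : ℕ) (y : ℝ) : (PS κ Y y).re + (PS κ Y (-y)).re = ∑ n ∈ Icc 1 Y,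
    2 * (ArithmeticFunction.vonMangoldt n / √n * gg κ (Real.log n)) *
      Real.cos (y * Real.log n) := by
  rw [PS, PS, re_sum, re_sum, ← sum_add_distrib]
  refine sum_congr rfl fun n _ => ?_
  rw [re_ofReal_mul, re_ofReal_mul, loc_re, loc_re, neg_mul, Real.cos_neg]
  ring

theorem loc_int {κ : ℝ} (h : 0 < κ) (Y : ℕ) (t : ℝ) :
    ∫ τ in (-(40 / κ))..(40 / κ), ((PS κ Y (t + τ)).re + (PS κ Y (-(t + τ))).re) =
      16 * Real.pi / κ * (FP κ Y t).re := by
  simp only [loc_PS]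
  rw [intervalIntegral.integral_finsetSum fun _ _ => Continuous.intervalIntegrable (by fun_prop) _ _,
    FP, re_sum, mul_sum]
  refine sum_congr rfl fun n hn => ?_
  rw [intervalIntegral.integral_const_mul, re_ofReal_mul, loc_re, cb]
  obtain rfl | k := (mem_Icc.1 hn).1.eq_or_lt
  · simp
  · have p := Real.pi_pos
    have l := Real.log_pos (show (1 : ℝ) < n by exact_mod_cast k)
    rw [loc_cos l.ne', show 40 / κ * Real.log n = 40 * Real.log n / κ by ring]
    field_simp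
    ring

theorem loc_alg {ε R S W A e : ℝ} (hε : ε = 1 ∨ ε = -1) (h0 : 0 ≤ e) (h1 : e ≤ 1) (hA : 0 ≤ A)
    (a : |R - S| ≤ e * S) (b : ε * (S - W) ≤ A) : ε * (R - W) ≤ e * W + 2 * A := by
  obtain ⟨a, a'⟩ := abs_le.1 a
  obtain rfl | rfl := hε
  · nlinarith [mul_le_mul_of_nonneg_left b h0, mul_le_mul_of_nonneg_right h1 hA]
  · nlinarith [mul_le_mul_of_nonneg_left b (sub_nonneg.2 h1), mul_nonneg h0 hA]

theorem loc_fin {κ ε F R m M E C₁ C₂ δ l L : ℝ} (hκ : 80 ≤ κ) (hε : ε = 1 ∨ ε = -1)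
    (c1 : 0 ≤ C₁) (c2 : 0 ≤ C₂) (hM : 0 ≤ M) (L0 : 0 ≤ L) (hL : |l - L| ≤ 1) (m0 : 0 ≤ m)
    (m1 : m ≤ 4 * Real.pi / κ) (hE : κ * E ≤ 4 * (C₁ + 2))
    (d : ε * (R - m * (80 / κ * L / (2 * Real.pi))) ≤
      C₂ * δ ^ 2 * κ ^ 2 * (m * (80 / κ * L / (2 * Real.pi))) + 2 * (m * M + E))
    (f : |2 * Real.pi * R - 80 / κ * (l * m) + 16 * Real.pi / κ * F| ≤ 2 * C₁ * (80 / κ)) :
    -ε * F ≤ Real.pi * M + (20 * C₂ + 5 * C₁ + 3) * (1 + δ ^ 2 * κ * L) := by
  have κ0 : 0 < κ := by linarith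
  have p := Real.pi_gt_three
  have p0 := Real.pi_pos.le
  have g1 : κ * m ≤ 4 * Real.pi := by rwa [le_div_iff₀ κ0, mul_comm] at m1
  have g3 : κ * (C₂ * δ ^ 2 * κ ^ 2 * (m * (80 / κ * L / (2 * Real.pi)))) ≤
      160 * C₂ * (δ ^ 2 * κ * L) := by
    calc _ = κ * m * (C₂ * δ ^ 2 * κ ^ 2 * (80 / κ * L / (2 * Real.pi))) := by ring
      _ ≤ 4 * Real.pi * (C₂ * δ ^ 2 * κ ^ 2 * (80 / κ * L / (2 * Real.pi))) := by gcongr
      _ = _ := by field_simp; ring
  have g4 : ε * -(2 * Real.pi * R - 80 / κ * (l * m) + 16 * Real.pi / κ * F) ≤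
      2 * C₁ * (80 / κ) := by
    obtain rfl | rfl := hε <;> linarith [abs_le.1 f]
  have g5 : -ε * (l - L) * m ≤ 1 * m := by
    refine mul_le_mul_of_nonneg_right ?_ m0
    obtain rfl | rfl := hε <;> linarith [abs_le.1 hL]
  have g6 : 16 * Real.pi * (-ε * F) =
      κ * (ε * -(2 * Real.pi * R - 80 / κ * (l * m) + 16 * Real.pi / κ * F)) +
      2 * Real.pi * (κ * (ε * (R - m * (80 / κ * L / (2 * Real.pi))))) +
      80 * (-ε * (l - L) * m) := by
    field_simp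
    ring
  have g7 : 20 * m ≤ Real.pi := by nlinarith [mul_le_mul_of_nonneg_right hκ m0]
  have g8 := mul_le_mul_of_nonneg_left d κ0.le
  have g9 := mul_le_mul_of_nonneg_right g1 hM
  have g0 := (mul_le_mul_of_nonneg_left g4 κ0.le).trans_eq
    (show κ * (2 * C₁ * (80 / κ)) = 160 * C₁ by field_simp; ring)
  have q0 : 0 ≤ δ ^ 2 * κ * L := by positivity
  generalize δ ^ 2 * κ * L = q at *
  have w : κ * (ε * (R - m * (80 / κ * L / (2 * Real.pi)))) ≤
      160 * C₂ * q + 8 * Real.pi * M + 8 * (C₁ + 2) := by linarith only [g8, g9, g3, hE]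
  refine le_of_mul_le_mul_left (g6.trans_le ?_) (by positivity)
  linarith only [mul_le_mul_of_nonneg_left w (mul_nonneg zero_le_two p0), g0, g5, g7, p0, c1,
    mul_nonneg c1 (sub_nonneg.2 p.le), mul_nonneg (mul_nonneg c1 q0) p0, mul_nonneg c2 p0,
    mul_nonneg q0 p0]

theorem loc : ∃ C : ℝ, 1 ≤ C ∧ ∀ (κ t δ ε M L : ℝ) (Y : ℕ), 80 ≤ κ → 20 ≤ t →
    C * δ ^ 2 * κ ^ 2 ≤ 1 / 4 → 0 ≤ δ → (ε = 1 ∨ ε = -1) → 0 ≤ M → Real.exp (50 * κ) ≤ Y →
    |Real.log t - L| ≤ 1 → Real.log t ≤ Real.exp κ →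
    (∀ ρ : ℂ, riemannZeta ρ = 0 → |ρ.im - t| ≤ 5 → ρ.re ≤ 1 / 2 + δ) →
    (∀ (y : ℝ) (m : ℕ), |y - t| ≤ 2 → IsZ y (80 / κ) m →
      ε * (m - 80 / κ * L / (2 * Real.pi)) ≤ M) →
    -ε * (FP κ Y t).re ≤ Real.pi * M + C * (1 + δ ^ 2 * κ * L) := by
  obtain ⟨C₁, c1, ef⟩ := ef
  obtain ⟨C₂, c2, dom⟩ := dom
  refine ⟨20 * C₂ + 5 * C₁ + 3, by linarith, fun κ t δ ε M L Y hκ ht hC hδ hε hM hY hL hl hz hm => ?_⟩
  obtain ⟨n, ρ, hn, hρ, hI, ef⟩ := ef t ht
  have κ0 : 0 < κ := by linarith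
  have p := Real.pi_gt_three
  have h0 : 0 < 40 / κ := by positivity
  have h1 : 40 / κ ≤ 1 / 2 := by rw [div_le_iff₀ κ0]; linarith
  have h2 : 80 / κ = 2 * (40 / κ) := by ring
  have l1 : 1 ≤ Real.log t := by
    rw [Real.le_log_iff_exp_le (by linarith)]
    linarith [Real.exp_one_lt_d9]
  obtain ⟨l2, l3⟩ := abs_le.1 hL
  have L0 : 0 ≤ L := by linarith
  have d0 : 0 ≤ δ ^ 2 * κ ^ 2 := by positivity
  have e0 : 0 ≤ C₂ * δ ^ 2 * κ ^ 2 := by positivity
  have e1 : C₂ * δ ^ 2 * κ ^ 2 ≤ 1 := by nlinarith [mul_nonneg c1 d0]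
  have d1 : δ * κ ≤ 1 / 2 := by
    refine abs_le_of_sq_le_sq' ?_ (by norm_num) |>.2
    nlinarith [mul_nonneg c1 d0]
  have m0 : 0 ≤ gg κ 0 := (abs_nonneg _).trans (gg_abs κ0 0)
  have m1 := gg_le κ0
  set V := 80 / κ * L / (2 * Real.pi) with hV
  have V0 : 0 ≤ V := by positivity
  let a (i : Fin n) : ℂ := ρ i - ((1 / 2 : ℝ) + t * I)
  have ai (i) : (a i).im = (ρ i).im - t := by simp [a]
  have b := avg (κ := κ) (by linarith) hε hM V0 (fun i => (a i).im) fun u hu => by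
    obtain ⟨u1, u2⟩ := abs_le.1 hu
    have := hm _ _ (abs_le.2 ⟨by linarith, by linarith⟩)
      (hI (t + u - 40 / κ) (80 / κ) (by linarith) (by linarith))
    rw [filter_congr (q := fun i => t + u - 40 / κ < (ρ i).im ∧
      (ρ i).im < t + u - 40 / κ + 80 / κ) fun i _ => ?_]
    · exact this
    rw [ai]
    constructor <;> exact fun k => ⟨by linarith [k.1], by linarith [k.2]⟩
  have c : |(∑ i, ∫ τ in (-(40 / κ))..(40 / κ), (KK κ (a i - τ * I)).re) - ∑ i, WW κ (a i).im| ≤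
      C₂ * δ ^ 2 * κ ^ 2 * ∑ i, WW κ (a i).im := by
    rw [← sum_sub_distrib, mul_sum]
    refine (abs_sum_le_sum_abs _ _).trans (sum_le_sum fun i _ => dom κ δ _ hκ d1 ?_ ?_)
    · have k := abs_le.1 (hρ i).2
      have k1 := hz _ (hρ i).1 (hρ i).2
      have k2 := hz _ (refl (hρ i).1 (by linarith [k.1] : 0 < (ρ i).im).ne')
        (by simpa using (hρ i).2)
      simp only [sub_re, one_re, conj_re] at k2
      simp only [a, sub_re, add_re, ofReal_re, mul_re, I_re, I_im, ofReal_im, mul_zero, zero_mul]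
      exact abs_le.2 ⟨by linarith, by linarith⟩
    · rw [ai]
      exact (hρ i).2
  have d := loc_alg hε e0 e1 (by positivity) c b
  have x1 := Real.add_one_le_exp κ
  have x0 := Real.exp_pos κ
  have kc (i) : Continuous fun τ : ℝ => (KK κ (a i - τ * I)).re :=
    continuous_re.comp ((KK_diff κ).continuous.comp (by fun_prop))
  have f := intervalIntegral.norm_integral_le_of_norm_le_const (a := -(40 / κ)) (b := 40 / κ)
    (C := 2 * C₁) (f := fun τ : ℝ => 2 * Real.pi * ∑ i, (KK κ (a i - τ * I)).re -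
      Real.log t * gg κ 0 + ((PS κ Y (t + τ)).re + (PS κ Y (-(t + τ))).re)) fun τ hτ => by
    rw [Set.uIoc_of_le (by linarith)] at hτ
    have k := (abs_re_le_norm _).trans (ef κ (t + τ) Y (by linarith) hY
      (abs_le.2 ⟨by linarith [hτ.1], by linarith [hτ.2]⟩))
    have k1 : C₁ / κ ≤ C₁ := div_le_self c1 (by linarith)
    have k2 : C₁ * Real.log t * Real.exp (-κ) ≤ C₁ := by
      rw [mul_assoc, Real.exp_neg, ← div_eq_mul_inv]
      exact mul_le_of_le_one_right c1 ((div_le_one x0).2 hl)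
    refine le_trans (le_of_eq ?_) (k.trans (by linarith))
    rw [Real.norm_eq_abs, add_re, add_re, sub_re, ofReal_re, add_assoc,
      show (2 * Real.pi : ℂ) = (2 * Real.pi : ℝ) by push_cast; rfl, re_ofReal_mul, re_sum]
    congr 6 with i
    simp only [a]
    push_cast
    ring_nf
  have pc : Continuous fun τ : ℝ => (PS κ Y (t + τ)).re + (PS κ Y (-(t + τ))).re := by
    simp only [loc_PS]
    fun_prop
  have sc : Continuous fun τ : ℝ => 2 * Real.pi * ∑ i, (KK κ (a i - τ * I)).re :=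
    continuous_const.mul (continuous_finsetSum _ fun i _ => kc i)
  rw [intervalIntegral.integral_add ((sc.intervalIntegrable _ _).sub intervalIntegrable_const)
    (pc.intervalIntegrable _ _), intervalIntegral.integral_sub (sc.intervalIntegrable _ _)
    intervalIntegrable_const, loc_int κ0, intervalIntegral.integral_const_mul,
    intervalIntegral.integral_finsetSum fun i _ => (kc i).intervalIntegrable _ _,
    intervalIntegral.integral_const, Real.norm_eq_abs, smul_eq_mul,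
    show 40 / κ - -(40 / κ) = 80 / κ by ring, abs_of_pos (show 0 < 80 / κ by positivity)] at f
  refine loc_fin hκ hε c1 c2 hM L0 hL m0 m1 ?_ d f
  have v : V ≤ 2 * Real.exp κ := by
    rw [hV, div_le_iff₀ (by positivity)]
    nlinarith only [mul_le_mul_of_nonneg_right h1 L0, h2, l2, hl, x1, hκ, p]
  calc _ = 4 * (κ * (n + V) * Real.exp (-(5 * κ) / 2)) := by ring
    _ ≤ 4 * (Real.exp κ * (C₁ * Real.exp κ + 2 * Real.exp κ) * Real.exp (-(2 * κ))) := by
        gcongr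
        · linarith only [x1]
        · exact hn.trans (by gcongr)
        · linarith only [hκ]
    _ = 4 * (C₁ + 2) * (Real.exp κ * Real.exp κ * Real.exp (-(2 * κ))) := by ring
    _ = _ := by rw [← Real.exp_add, ← Real.exp_add, show κ + κ + -(2 * κ) = 0 by ring]; simp

end Pool.Agent.Lib.MP_31bf45_nt.Cl
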