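import Pool.Agent.Lib.MP_31bf45_nt.Om.Pt
import Pool.Agent.Lib.MP_31bf45_nt.Cl.Loc

/-! Clusters and gaps of zeros of zeta: the pointwise bound for the prime sum. -/

set_option autoImplicit false

namespace Pool.Agent.Lib.MP_31bf45_nt.Cl

open Complex Finset MeasureTheory Metric Om Pool.Agent.Lib.MP_b09185_nt.Sh
open scoped ComplexConjugate

theorem pt_re {ε : ℝ} (hε : ε = 1 ∨ ε = -1) (z : ℂ) : -ε * z.re ≤ ‖z‖ := by
  have := abs_le.1 (abs_re_le_norm z)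
  rcases hε with rfl | rfl <;> linarith

theorem pt : ∃ (C : ℝ) (Z0 : ℕ), 1 ≤ C ∧ ∀ Z : ℕ, Z0 ≤ Z → ∃ b : Fin 3 → ℕ → ℂ,
    (∀ i, Dv (b i)) ∧ ∀ (κ t δ ε M L : ℝ) (Y : ℕ), 80 ≤ κ → 20 ≤ t → t + 5 ≤ (Z : ℝ) ^ 1000 →
      C * δ ^ 2 * κ ^ 2 ≤ 1 / 4 → 0 < δ → (ε = 1 ∨ ε = -1) → 0 ≤ M → Real.exp (50 * κ) ≤ Y →
      |Real.log t - L| ≤ 1 → Real.log t ≤ Real.exp κ →
      (∀ (y : ℝ) (m : ℕ), |y - t| ≤ 2 → IsZ y (80 / κ) m →
        ε * (m - 80 / κ * L / (2 * Real.pi)) ≤ M) →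
      -ε * (FP κ Y t).re - (δ * (Z : ℝ) ^ (δ / 2))⁻¹ * ‖FP κ Y t‖ ^ 2 ≤
        (Real.pi * M + C * (1 + δ ^ 2 * κ * L)) + C / (δ * (Z : ℝ) ^ (δ / 2)) * ∑ i,
          ∫ v, ‖QP (Z ^ 560) (b i) (t + v)‖ ^ 2 * Real.exp (-(1 / 4) * v ^ 2) := by
  obtain ⟨C1, c1, H1⟩ := loc
  obtain ⟨C2, Z0, c2, H2⟩ := det'
  set c := C2 * Real.exp (25 / 2) + 1 with hc
  have c0 : 0 < c := by positivity
  refine ⟨C1 + 12 * c ^ 2, Z0, by nlinarith [sq_nonneg c], fun Z hZ => ?_⟩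
  obtain ⟨b, hb, H⟩ := H2 Z hZ
  refine ⟨b, hb, fun κ t δ ε M L Y hκ ht htZ hδκ hδ hε hM hY hL hlt hS => ?_⟩
  have hZ0 : (0 : ℝ) < Z := by
    rcases Nat.eq_zero_or_pos Z with rfl | h
    · norm_num at htZ; linarith
    · exact_mod_cast h
  set S := ∑ i, ∫ v, ‖QP (Z ^ 560) (b i) (t + v)‖ ^ 2 * Real.exp (-(1 / 4) * v ^ 2) with hSdef
  have S0 : 0 ≤ S := sum_nonneg fun i _ => integral_nonneg fun v => by positivity
  have hl : 1 ≤ Real.log t := by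
    rw [Real.le_log_iff_exp_le (by linarith)]
    linarith [Real.exp_one_lt_d9]
  have L0 : 0 ≤ L := by linarith [(abs_le.1 hL).2]
  have κ0 : 0 ≤ κ := by linarith
  have hA : 0 ≤ 1 + δ ^ 2 * κ * L := by positivity
  set l := δ * (Z : ℝ) ^ (δ / 2) with hldef
  have l0 : 0 < l := by positivity
  have hB : 0 ≤ S / l := by positivity
  have hF : 0 ≤ l⁻¹ * ‖FP κ Y t‖ ^ 2 := by positivity
  rw [show (C1 + 12 * c ^ 2) / l * S = (C1 + 12 * c ^ 2) * (S / l) by ring]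
  have a1 := mul_nonneg (sq_nonneg c) hA
  have a2 := mul_nonneg (sq_nonneg c) hB
  have a3 := mul_nonneg (zero_le_one.trans c1) hB
  have a4 := mul_nonneg (zero_le_one.trans c1) hA
  by_cases hz : ∀ ρ : ℂ, riemannZeta ρ = 0 → |ρ.im - t| ≤ 5 → ρ.re ≤ 1 / 2 + δ
  · have h0 : C1 * δ ^ 2 * κ ^ 2 ≤ 1 / 4 := by
      have : 0 ≤ c ^ 2 * δ ^ 2 * κ ^ 2 := by positivity
      nlinarith
    have h1 := H1 κ t δ ε M L Y hκ ht h0 hδ.le hε hM hY hL hlt hz hS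
    rw [add_mul, add_mul, mul_assoc 12 (c ^ 2) (1 + _), mul_assoc 12 (c ^ 2) (S / l)]
    linarith
  · push Not at hz
    obtain ⟨ρ, h0, h1, h2⟩ := hz
    have h3 := abs_le.1 h1
    have hγ : |ρ.im| = ρ.im := abs_of_nonneg (by linarith)
    have h4 := H δ ρ.re ρ.im hδ h2.le (by linarith) (by linarith) (by rwa [re_add_im])
    have h5 : ∑ i, ∫ v, ‖QP (Z ^ 560) (b i) (ρ.im + v)‖ * gs v ≤
        Real.exp (25 / 2) * (l / (2 * c) + 6 * c / l * S) := by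
      refine (sum_le_sum fun i _ =>
        pt_shift _ (b i) h1 (η := l / (24 * c)) (by positivity)).trans_eq ?_
      rw [← mul_sum, sum_add_distrib, sum_const, card_univ, Fintype.card_fin, nsmul_eq_mul,
        ← mul_sum, ← hSdef, show 1 / (4 * (l / (24 * c))) = 6 * c / l by field_simp; norm_num]
      congr 2
      push_cast; field_simp; norm_num
    have h6 : l ≤ c * (l / (2 * c) + 6 * c / l * S) := by
      refine (h4.trans (mul_le_mul_of_nonneg_left h5 c2)).trans ?_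
      rw [← mul_assoc]
      exact mul_le_mul_of_nonneg_right (by linarith) (by positivity)
    have h7 : l ≤ 12 * c ^ 2 * (S / l) := by
      have e : c * (l / (2 * c) + 6 * c / l * S) = l / 2 + 6 * c ^ 2 * (S / l) := by field_simp
      linarith
    have h8 : ‖FP κ Y t‖ ≤ l⁻¹ * ‖FP κ Y t‖ ^ 2 + l := by
      rw [inv_mul_eq_div, ← sub_le_iff_le_add, le_div_iff₀ l0]
      nlinarith [sq_nonneg (‖FP κ Y t‖ - l), sq_nonneg ‖FP κ Y t‖, sq_nonneg l]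
    have := pt_re hε (FP κ Y t)
    have := mul_nonneg Real.pi_pos.le hM
    rw [add_mul, add_mul, mul_assoc 12 (c ^ 2) (1 + _)]
    linarith

end Pool.Agent.Lib.MP_31bf45_nt.Cl
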